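import Mathlib

/-! Additive subgroups of a field of characteristic two stable under squaring: the
combinatorial heart of the computation. -/

open Classical

namespace Q36.FA

structure Data (E : Type) [Field E] where
  (s z y t : E)
  (hs : s ≠ 0) (ht : t ≠ 0) (hy : y ≠ 0)
  (rel : z ^ 5 = t + s * z ^ 2)

namespace Data

variable {E : Type} [Field E] (d : Data E)

/-- Monomials. -/
def mo (i : ℕ) (a b c : ℤ) : E := d.z ^ i * d.s ^ a * d.t ^ b * d.y ^ c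

lemma mo5 (i : ℕ) (a b c : ℤ) :
    d.mo (i + 5) a b c = d.mo i a (b + 1) c + d.mo (i + 2) (a + 1) b c := by
  unfold mo
  rw [pow_add, d.rel, zpow_add_one₀ d.ht, zpow_add_one₀ d.hs]
  ring

lemma s_mo (n : ℕ) (i : ℕ) (a b c : ℤ) : d.s ^ n * d.mo i a b c = d.mo i (a + n) b c := by
  unfold mo
  rw [zpow_add₀ d.hs, zpow_natCast]
  ring

lemma t_mo (n : ℕ) (i : ℕ) (a b c : ℤ) : d.t ^ n * d.mo i a b c = d.mo i a (b + n) c := by
  unfold mo
  rw [zpow_add₀ d.ht, zpow_natCast]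
  ring

lemma y_mo (n : ℕ) (i : ℕ) (a b c : ℤ) : d.y ^ n * d.mo i a b c = d.mo i a b (c + n) := by
  unfold mo
  rw [zpow_add₀ d.hy, zpow_natCast]
  ring

lemma yz_mo (j : ℕ) (i : ℕ) (a b c : ℤ) :
    d.y * d.z ^ j * d.mo i a b c = d.mo (i + j) a b (c + 1) := by
  unfold mo
  rw [zpow_add_one₀ d.hy, pow_add]
  ring

lemma mo_sq (i : ℕ) (a b c : ℤ) : d.mo i a b c ^ 2 = d.mo (2 * i) (2 * a) (2 * b) (2 * c) := by
  unfold mo
  rw [two_mul i, two_mul a, two_mul b, two_mul c, pow_add, zpow_add₀ d.hs, zpow_add₀ d.ht,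
    zpow_add₀ d.hy]
  ring

lemma mo6 (a b c : ℤ) : d.mo 6 a b c = d.mo 1 a (b + 1) c + d.mo 3 (a + 1) b c := d.mo5 1 a b c

lemma mo8 (a b c : ℤ) : d.mo 8 a b c =
    d.mo 3 a (b + 1) c + (d.mo 0 (a + 1) (b + 1) c + d.mo 2 (a + 1 + 1) b c) := by
  rw [show (8 : ℕ) = 3 + 5 from rfl, mo5, show (3 + 2 : ℕ) = 0 + 5 from rfl, mo5]

/-- The subgroups that occur. -/
structure Good (N : AddSubgroup E) : Prop where
  ms : ∀ e ∈ N, d.s * e ∈ N
  mt : ∀ e ∈ N, d.t * e ∈ N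
  my : ∀ e ∈ N, d.y * e ∈ N
  myz : ∀ (j : ℕ), ∀ e ∈ N, d.y * d.z ^ j * e ∈ N
  sq : ∀ e ∈ N, e ^ 2 ∈ N
  b1 : ∀ i a b c, 0 ≤ a → d.mo i a b c ∈ N
  b2 : ∀ i a b c, 0 ≤ b → d.mo i a b c ∈ N
  b3 : ∀ i a b c, 1 ≤ c → d.mo i a b c ∈ N
  b4 : ∀ a b, d.mo 0 a b 0 ∈ N

namespace Good

variable {d} {N : AddSubgroup E} (h : d.Good N)
include h

lemma mS (n : ℕ) {e : E} (he : e ∈ N) : d.s ^ n * e ∈ N := by
  induction n with
  | zero => simpa using he
  | succ n ih => rw [pow_succ', mul_assoc]; exact h.ms _ ih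

lemma mT (n : ℕ) {e : E} (he : e ∈ N) : d.t ^ n * e ∈ N := by
  induction n with
  | zero => simpa using he
  | succ n ih => rw [pow_succ', mul_assoc]; exact h.mt _ ih

lemma mY (n : ℕ) {e : E} (he : e ∈ N) : d.y ^ n * e ∈ N := by
  induction n with
  | zero => simpa using he
  | succ n ih => rw [pow_succ', mul_assoc]; exact h.my _ ih

lemma down {i : ℕ} {a b c : ℤ} (hm : d.mo i a b c ∈ N) (a' b' c' : ℤ) (ha : a ≤ a')
    (hb : b ≤ b') (hc : c ≤ c') : d.mo i a' b' c' ∈ N := by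
  obtain ⟨n, hn⟩ := Int.eq_ofNat_of_zero_le (sub_nonneg.2 ha)
  obtain ⟨m, hm'⟩ := Int.eq_ofNat_of_zero_le (sub_nonneg.2 hb)
  obtain ⟨k, hk⟩ := Int.eq_ofNat_of_zero_le (sub_nonneg.2 hc)
  have h1 := h.mY k (h.mT m (h.mS n hm))
  rw [d.s_mo, d.t_mo, d.y_mo] at h1
  rwa [show a + (n : ℤ) = a' by omega, show b + (m : ℤ) = b' by omega,
    show c + (k : ℤ) = c' by omega] at h1

lemma sq' {i : ℕ} {a b c : ℤ} (hm : d.mo i a b c ∈ N) :
    d.mo (2 * i) (2 * a) (2 * b) (2 * c) ∈ N := by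
  rw [← d.mo_sq]; exact h.sq _ hm

omit h in
lemma of_mo6 {a b c : ℤ} (hm : d.mo 6 a b c ∈ N) (h' : d.mo 3 (a + 1) b c ∈ N) :
    d.mo 1 a (b + 1) c ∈ N := by
  rw [d.mo6] at hm
  exact (AddSubgroup.add_mem_cancel_right N h').1 hm

lemma of_mo8 {a b : ℤ} (hm : d.mo 8 a b 0 ∈ N) (h' : d.mo 2 (a + 2) b 0 ∈ N) :
    d.mo 3 a (b + 1) 0 ∈ N := by
  rw [d.mo8] at hm
  refine (AddSubgroup.add_mem_cancel_right N ?_).1 hm
  refine add_mem (h.b4 _ _) ?_
  rwa [show a + 1 + 1 = a + 2 by ring]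

/-- Growth in the direction of `t`, one step. -/
lemma grow_t_step {b : ℤ} (hb : 1 ≤ b) (hm : d.mo 1 (-1) (-b) 0 ∈ N) :
    d.mo 1 (-1) (-(2 * b)) 0 ∈ N ∧ d.mo 3 (-2) (-b) 0 ∈ N := by
  have h2 := h.sq' hm
  have h4 := h.sq' h2
  have h8 := h.sq' h4
  norm_num at h8
  have h8' : d.mo 8 (-2) (-(8 * b)) 0 ∈ N :=
    h.down h8 _ _ _ (by norm_num) (by linarith) le_rfl
  have h3 : d.mo 3 (-2) (-(8 * b) + 1) 0 ∈ N := h.of_mo8 h8' (h.b1 _ _ _ _ (by norm_num))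
  have h6 := h.sq' h3
  norm_num at h6
  have h6' : d.mo 6 (-1) (2 * (-(8 * b) + 1)) 0 ∈ N :=
    h.down h6 _ _ _ (by norm_num) le_rfl le_rfl
  have h1 : d.mo 1 (-1) (2 * (-(8 * b) + 1) + 1) 0 ∈ N :=
    of_mo6 h6' (h.b1 _ _ _ _ (by norm_num))
  exact ⟨h.down h1 _ _ _ le_rfl (by linarith) le_rfl,
    h.down h3 _ _ _ le_rfl (by linarith) le_rfl⟩

lemma grow_t (hm : d.mo 1 (-1) (-1) 0 ∈ N) (b : ℤ) :
    d.mo 1 (-1) b 0 ∈ N ∧ d.mo 3 (-2) b 0 ∈ N := by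
  have key : ∀ n : ℕ, d.mo 1 (-1) (-(2 ^ n : ℤ)) 0 ∈ N := by
    intro n
    induction n with
    | zero => simpa using hm
    | succ n ih =>
      have := (h.grow_t_step (one_le_pow₀ (by norm_num)) ih).1
      rwa [pow_succ, mul_comm]
  obtain ⟨n, hn⟩ : ∃ n : ℕ, -b ≤ 2 ^ n := by
    refine ⟨(-b).toNat, (Int.self_le_toNat _).trans ?_⟩
    exact_mod_cast Nat.lt_two_pow_self.le
  refine ⟨h.down (key n) _ _ _ le_rfl (by linarith) le_rfl, ?_⟩
  exact h.down (h.grow_t_step (one_le_pow₀ (by norm_num)) (key n)).2 _ _ _ le_rfl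
    (by linarith) le_rfl

/-- Growth in the direction of `s`. -/
lemma grow_s (hm : d.mo 1 (-1) (-1) 0 ∈ N) (n : ℕ) :
    (∀ b, d.mo 1 (-(n + 1 : ℤ)) b 0 ∈ N) ∧ (∀ b, d.mo 3 (-(n + 1 : ℤ)) b 0 ∈ N) := by
  induction n with
  | zero =>
    refine ⟨fun b => by simpa using (h.grow_t hm b).1, fun b => ?_⟩
    exact h.down (h.grow_t hm b).2 _ _ _ (by norm_num) le_rfl le_rfl
  | succ n ih =>
    have h2 : ∀ b, d.mo 2 (-(2 * (n + 1) : ℤ)) b 0 ∈ N := by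
      intro b
      have := h.sq' (ih.1 b)
      rcases le_total b 0 with hb | hb
      · exact h.down this _ _ _ (by linarith) (by linarith) (by norm_num)
      · exact h.b2 _ _ _ _ hb
    have h4 : ∀ b, d.mo 4 (-(4 * (n + 1) : ℤ)) b 0 ∈ N := by
      intro b
      have := h.sq' (h2 b)
      rcases le_total b 0 with hb | hb
      · exact h.down this _ _ _ (by linarith) (by linarith) (by norm_num)
      · exact h.b2 _ _ _ _ hb
    have h3 : ∀ b, d.mo 3 (-(2 * (n + 2) : ℤ)) b 0 ∈ N := by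
      intro b
      rcases le_total b 0 with hb | hb
      · have h8 : d.mo 8 (-(2 * (n + 2) : ℤ)) (2 * b - 1) 0 ∈ N := by
          have h4' : d.mo 4 (-(n + 2 : ℤ)) (b - 1) 0 ∈ N :=
            h.down (h4 (b - 1)) _ _ _ (by push_cast; linarith) le_rfl le_rfl
          exact h.down (h.sq' h4') _ _ _ (by linarith) (by linarith) (by norm_num)
        have h3' := h.of_mo8 h8 (h.down (h2 (2 * b - 1)) _ _ _ (by linarith) le_rfl le_rfl)
        exact h.down h3' _ _ _ le_rfl (by linarith) le_rfl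
      · exact h.b2 _ _ _ _ hb
    have h1 : ∀ b, d.mo 1 (-(2 * (n + 1) : ℤ)) b 0 ∈ N := by
      intro b
      rcases le_total b 0 with hb | hb
      · have h6 : d.mo 6 (-(2 * (n + 1) : ℤ)) (2 * b - 1) 0 ∈ N := by
          have h3' : d.mo 3 (-(n + 1 : ℤ)) (b - 1) 0 ∈ N :=
            h.down (h3 (b - 1)) _ _ _ (by linarith) le_rfl le_rfl
          exact h.down (h.sq' h3') _ _ _ (by linarith) (by linarith) (by norm_num)
        have h1' := of_mo6 h6 (h.down (h3 (2 * b - 1)) _ _ _ (by linarith) le_rfl le_rfl)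
        exact h.down h1' _ _ _ le_rfl (by linarith) le_rfl
      · exact h.b2 _ _ _ _ hb
    constructor
    · intro b
      exact h.down (h1 b) _ _ _ (by push_cast; linarith) le_rfl le_rfl
    · intro b
      exact h.down (h3 b) _ _ _ (by push_cast; linarith) le_rfl le_rfl

end Good

end Data

end Q36.FA
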