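import Mathlib
import Pool.Agent.Q36.FA.Core

/-! Extraction of the socle and the classification of the stable subgroups. -/

open Classical

namespace Q36.FA

namespace Data

variable {E : Type} [Field E] {d : Data E}

namespace Good

variable {N : AddSubgroup E} (h : d.Good N)
include h

lemma mo_ge5 (i : ℕ) (hi : 5 ≤ i) (c : ℤ) : d.mo i (-1) (-1) c ∈ N := by
  obtain ⟨k, rfl⟩ := Nat.exists_eq_add_of_le' hi
  rw [d.mo5]
  exact add_mem (h.b2 _ _ _ _ (by norm_num)) (h.b1 _ _ _ _ (by norm_num))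

/-- Once the element `z^4/(st)` is in `N`, all monomials without `y` are. -/
lemma all0 (hm : d.mo 4 (-1) (-1) 0 ∈ N) (i : ℕ) (a b : ℤ) : d.mo i a b 0 ∈ N := by
  have h8 := h.sq' hm
  norm_num at h8
  have h3 : d.mo 3 (-2) (-2 + 1) 0 ∈ N := h.of_mo8 h8 (h.b1 _ _ _ _ (by norm_num))
  have h6 := h.sq' h3
  norm_num at h6
  have h6' : d.mo 6 (-1) (-2) 0 ∈ N := h.down h6 _ _ _ (by norm_num) le_rfl le_rfl
  have h1 : d.mo 1 (-1) (-2 + 1) 0 ∈ N := of_mo6 h6' (h.b1 _ _ _ _ (by norm_num))
  norm_num at h1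
  have g := h.grow_s h1
  have g1 : ∀ a b, d.mo 1 a b 0 ∈ N := by
    intro a b
    refine h.down ((g (-a).toNat).1 b) _ _ _ ?_ le_rfl le_rfl
    have := Int.self_le_toNat (-a)
    linarith
  have g3 : ∀ a b, d.mo 3 a b 0 ∈ N := by
    intro a b
    refine h.down ((g (-a).toNat).2 b) _ _ _ ?_ le_rfl le_rfl
    have := Int.self_le_toNat (-a)
    linarith
  have dbl : ∀ i, (∀ a b, d.mo i a b 0 ∈ N) → ∀ a b, d.mo (2 * i) a b 0 ∈ N := by
    intro i hi a b
    rcases le_total a 0 with ha | ha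
    · rcases le_total b 0 with hb | hb
      · exact h.down (h.sq' (hi a b)) _ _ _ (by linarith) (by linarith) (by norm_num)
      · exact h.b2 _ _ _ _ hb
    · exact h.b1 _ _ _ _ ha
  have g2 := dbl 1 g1
  have g4 := dbl 2 g2
  induction i using Nat.strong_induction_on generalizing a b with
  | _ i ih =>
    rcases Nat.lt_or_ge i 5 with hi | hi
    · interval_cases i
      · exact h.b4 _ _
      · exact g1 _ _
      · exact g2 _ _
      · exact g3 _ _
      · exact g4 _ _
    · obtain ⟨k, rfl⟩ := Nat.exists_eq_add_of_le' hi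
      rw [d.mo5]
      exact add_mem (ih k (by omega) _ _) (ih (k + 2) (by omega) _ _)

section Sums

variable {X : Type} (F : Finset X) (i : X → ℕ) (a b c : X → ℤ)

lemma sumS (n : ℕ) (hF : ∑ x ∈ F, d.mo (i x) (a x) (b x) (c x) ∈ N) :
    ∑ x ∈ F, d.mo (i x) (a x + n) (b x) (c x) ∈ N := by
  have := h.mS n hF
  rw [Finset.mul_sum] at this
  simpa only [d.s_mo] using this

lemma sumT (n : ℕ) (hF : ∑ x ∈ F, d.mo (i x) (a x) (b x) (c x) ∈ N) :
    ∑ x ∈ F, d.mo (i x) (a x) (b x + n) (c x) ∈ N := by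
  have := h.mT n hF
  rw [Finset.mul_sum] at this
  simpa only [d.t_mo] using this

lemma sumY (n : ℕ) (hF : ∑ x ∈ F, d.mo (i x) (a x) (b x) (c x) ∈ N) :
    ∑ x ∈ F, d.mo (i x) (a x) (b x) (c x + n) ∈ N := by
  have := h.mY n hF
  rw [Finset.mul_sum] at this
  simpa only [d.y_mo] using this

lemma sumYZ (j : ℕ) (hF : ∑ x ∈ F, d.mo (i x) (a x) (b x) (c x) ∈ N) :
    ∑ x ∈ F, d.mo (i x + j) (a x) (b x) (c x + 1) ∈ N := by
  have := h.myz j _ hF
  rw [Finset.mul_sum] at this
  simpa only [d.yz_mo] using this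

lemma sumSq [CharP E 2] (hF : ∑ x ∈ F, d.mo (i x) (a x) (b x) (c x) ∈ N) :
    ∑ x ∈ F, d.mo (2 * i x) (2 * a x) (2 * b x) (2 * c x) ∈ N := by
  have := h.sq _ hF
  rw [CharTwo.sum_sq] at this
  simpa only [d.mo_sq] using this

end Sums

omit h in
lemma filt {X : Type} (F : Finset X) (f : X → E) (P : X → Prop) [DecidablePred P]
    (hF : ∑ x ∈ F, f x ∈ N) (hP : ∀ x ∈ F, ¬ P x → f x ∈ N) :
    ∑ x ∈ F.filter P, f x ∈ N := by
  rw [← Finset.sum_filter_add_sum_filter_not F P] at hF
  refine (AddSubgroup.add_mem_cancel_right N ?_).1 hF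
  exact sum_mem fun x hx => hP x (Finset.mem_filter.1 hx).1 (Finset.mem_filter.1 hx).2

omit h in
lemma single (F : Finset ℕ) (f : ℕ → E) (i0 : ℕ) (hi : i0 ∈ F)
    (hF : ∑ x ∈ F, f x ∈ N) (hP : ∀ x ∈ F, x ≠ i0 → f x ∈ N) : f i0 ∈ N := by
  rw [← Finset.add_sum_erase F f hi] at hF
  refine (AddSubgroup.add_mem_cancel_right N ?_).1 hF
  exact sum_mem fun x hx => hP x (Finset.mem_erase.1 hx).2 (Finset.mem_erase.1 hx).1

/-- A nonzero combination of the socle elements without `y` gives `z^4/(st)`; first case. -/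
lemma soc1 [CharP E 2] (I : Finset ℕ) (hI : ∀ i ∈ I, 1 ≤ i) (h1 : 1 ∈ I)
    (hF : ∑ i ∈ I, d.mo i (-1) (-1) 0 ∈ N) : d.mo 4 (-1) (-1) 0 ∈ N := by
  have k1 := h.sumSq I id _ _ _ hF
  norm_num at k1
  have k2 := h.sumSq I _ _ _ _ k1
  norm_num at k2
  have k3 := h.sumS I _ _ _ _ 3 k2
  have k4 := h.sumT I _ _ _ _ 3 k3
  norm_num at k4
  have := single I _ 1 h1 k4 (fun i hi hne => ?_)
  · simpa using this
  · have : 2 ≤ i := by have := hI i hi; omega
    exact h.mo_ge5 _ (by omega) _

lemma soc [CharP E 2] (I : Finset ℕ) (hI : ∀ i ∈ I, 1 ≤ i ∧ i < 5) (hne : I.Nonempty)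
    (hF : ∑ i ∈ I, d.mo i (-1) (-1) 0 ∈ N) : d.mo 4 (-1) (-1) 0 ∈ N := by
  obtain ⟨i0, hi0, hmin⟩ := I.exists_min_image id hne
  simp only [id] at hmin
  have hb := hI i0 hi0
  have k1 := h.sumSq I id _ _ _ hF
  norm_num at k1
  have k2 := h.sumT I _ _ _ _ 1 (h.sumS I _ _ _ _ 1 k1)
  norm_num at k2
  obtain ⟨hb1, hb2⟩ := hb
  interval_cases i0
  · exact h.soc1 I (fun i hi => (hI i hi).1) hi0 hF
  · have := single I _ 2 hi0 k2 (fun i hi hne => ?_)
    · simpa using this
    · have := hmin i hi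
      exact h.mo_ge5 _ (by omega) _
  · -- the least index is three
    have k3 := h.sumS I _ _ _ _ 1 k1
    norm_num at k3
    by_cases h4 : 4 ∈ I
    · have hI2 : I = {3, 4} := by
        ext i
        constructor
        · intro hi
          have := hmin i hi
          have := hI i hi
          have : i = 3 ∨ i = 4 := by omega
          simpa using this
        · intro hi
          rcases (by simpa using hi : i = 3 ∨ i = 4) with rfl | rfl
          · exact hi0
          · exact h4
      rw [hI2, Finset.sum_pair (by norm_num)] at k3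
      norm_num at k3
      rw [d.mo6, d.mo8] at k3
      norm_num at k3
      have k4 : d.mo 1 (-1) (-1) 0 + d.mo 3 (-1) (-1) 0 ∈ N := by
        have e1 : d.mo 3 0 (-2) 0 ∈ N := h.b1 _ _ _ _ le_rfl
        have e2 : d.mo 0 0 (-1) 0 + d.mo 2 1 (-2) 0 ∈ N :=
          add_mem (h.b1 _ _ _ _ le_rfl) (h.b1 _ _ _ _ (by norm_num))
        have := sub_mem (sub_mem k3 e1) e2
        convert this using 1
        ring
      refine h.soc1 {1, 3} (by simp) (by simp) ?_
      rwa [Finset.sum_pair (by norm_num)]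
    · have hI2 : I = {3} := by
        ext i
        constructor
        · intro hi
          have := hmin i hi
          have := hI i hi
          have : i ≠ 4 := fun e => h4 (e ▸ hi)
          have : i = 3 := by omega
          simpa using this
        · intro hi
          rw [(by simpa using hi : i = 3)]
          exact hi0
      rw [hI2, Finset.sum_singleton] at k3
      norm_num at k3
      have k4 := of_mo6 k3 (h.b1 _ _ _ _ (by norm_num))
      norm_num at k4
      refine h.soc1 {1} (by simp) (by simp) ?_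
      rwa [Finset.sum_singleton]
  · have hI2 : I = {4} := by
      ext i
      constructor
      · intro hi
        have := hmin i hi
        have := hI i hi
        have : i = 4 := by omega
        simpa using this
      · intro hi
        rw [(by simpa using hi : i = 4)]
        exact hi0
    rwa [hI2, Finset.sum_singleton] at hF

end Good

end Data

end Q36.FA
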