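import Mathlib
import Pool.Agent.Q36.FA.Core2

/-! Extraction of the socle from a finite sum of monomials, and the conclusion. -/

open Classical

namespace Q36.FA

namespace Data

variable {E : Type} [Field E] {d : Data E}

namespace Good

variable {N : AddSubgroup E} (h : d.Good N)
include h

/-- Reduction to exponents `-1` of `s` and `t`. -/
lemma red (F : Finset (ℕ × ℤ × ℤ × ℤ)) (hne : F.Nonempty)
    (hF : ∀ x ∈ F, x.2.1 < 0 ∧ x.2.2.1 < 0)
    (hs : ∑ x ∈ F, d.mo x.1 x.2.1 x.2.2.1 x.2.2.2 ∈ N) :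
    ∃ G : Finset (ℕ × ℤ × ℤ × ℤ), G ⊆ F ∧ G.Nonempty ∧
      (∀ x ∈ G, ∀ x' ∈ G, x.2.1 = x'.2.1 ∧ x.2.2.1 = x'.2.2.1) ∧
      ∑ x ∈ G, d.mo x.1 (-1) (-1) x.2.2.2 ∈ N := by
  obtain ⟨x0, hx0, hmin⟩ := F.exists_min_image (fun x => x.2.1) hne
  obtain ⟨n, hn⟩ := Int.eq_ofNat_of_zero_le (show (0 : ℤ) ≤ -1 - x0.2.1 by
    have := (hF x0 hx0).1; omega)
  have k1 := filt F _ (fun x => x.2.1 = x0.2.1)
    (h.sumS F (fun x => x.1) (fun x => x.2.1) (fun x => x.2.2.1) (fun x => x.2.2.2) n hs)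
    (fun x hx hne' => h.b1 _ _ _ _ (by have := hmin x hx; omega))
  have k2 : ∑ x ∈ F.filter (fun x => x.2.1 = x0.2.1), d.mo x.1 (-1) x.2.2.1 x.2.2.2 ∈ N := by
    convert k1 using 1
    refine Finset.sum_congr rfl fun x hx => ?_
    have := (Finset.mem_filter.1 hx).2
    rw [show x.2.1 + (n : ℤ) = -1 by omega]
  have hne2 : (F.filter (fun x => x.2.1 = x0.2.1)).Nonempty :=
    ⟨x0, Finset.mem_filter.2 ⟨hx0, rfl⟩⟩
  obtain ⟨x1, hx1, hmin1⟩ := Finset.exists_min_image _ (fun x => x.2.2.1) hne2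
  have hx1F := (Finset.mem_filter.1 hx1).1
  obtain ⟨m, hm⟩ := Int.eq_ofNat_of_zero_le (show (0 : ℤ) ≤ -1 - x1.2.2.1 by
    have := (hF x1 hx1F).2; omega)
  have k3 := filt (F.filter (fun x => x.2.1 = x0.2.1)) _ (fun x => x.2.2.1 = x1.2.2.1)
    (h.sumT (F.filter (fun x => x.2.1 = x0.2.1)) (fun x => x.1) (fun _ => -1)
      (fun x => x.2.2.1) (fun x => x.2.2.2) m k2)
    (fun x hx hne' => h.b2 _ _ _ _ (by have := hmin1 x hx; omega))
  refine ⟨(F.filter (fun x => x.2.1 = x0.2.1)).filter (fun x => x.2.2.1 = x1.2.2.1),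
    (Finset.filter_subset _ _).trans (Finset.filter_subset _ _),
    ⟨x1, Finset.mem_filter.2 ⟨hx1, rfl⟩⟩, fun x hx x' hx' => ?_, ?_⟩
  · have e1 := Finset.mem_filter.1 hx
    have e2 := Finset.mem_filter.1 hx'
    exact ⟨(Finset.mem_filter.1 e1.1).2.trans (Finset.mem_filter.1 e2.1).2.symm,
      e1.2.trans e2.2.symm⟩
  · convert k3 using 1
    refine Finset.sum_congr rfl fun x hx => ?_
    have := (Finset.mem_filter.1 hx).2
    rw [show x.2.2.1 + (m : ℤ) = -1 by omega]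

lemma extract1 [CharP E 2] (F : Finset (ℕ × ℤ × ℤ × ℤ)) (hne : F.Nonempty)
    (hF : ∀ x ∈ F, x.1 < 5 ∧ x.2.1 < 0 ∧ x.2.2.1 < 0 ∧ x.2.2.2 ≤ 0 ∧ (x.2.2.2 = 0 → 1 ≤ x.1))
    (hs : ∑ x ∈ F, d.mo x.1 x.2.1 x.2.2.1 x.2.2.2 ∈ N) : d.mo 4 (-1) (-1) 0 ∈ N := by
  obtain ⟨G, hGF, hGne, hG, hGs⟩ := h.red F hne (fun x hx => ⟨(hF x hx).2.1, (hF x hx).2.2.1⟩) hs
  obtain ⟨x0, hx0, hmin⟩ := G.exists_min_image (fun x => x.2.2.2) hGne
  have hx0F := hF x0 (hGF hx0)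
  rcases lt_or_ge x0.2.2.2 0 with hc | hc
  · -- the case with `y`
    have hne2 : (G.filter (fun x => x.2.2.2 = x0.2.2.2)).Nonempty :=
      ⟨x0, Finset.mem_filter.2 ⟨hx0, rfl⟩⟩
    obtain ⟨x1, hx1, hmin1⟩ := Finset.exists_min_image _ (fun x => x.1) hne2
    obtain ⟨hx1G, hx1c⟩ := Finset.mem_filter.1 hx1
    obtain ⟨n, hn⟩ := Int.eq_ofNat_of_zero_le (show (0 : ℤ) ≤ -1 - x0.2.2.2 by omega)
    have h5 := (hF x1 (hGF hx1G)).1
    have k1 := h.sumY G (fun x => x.1) (fun _ => -1) (fun _ => -1) (fun x => x.2.2.2) n hGs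
    have k2 := h.sumYZ G _ _ _ _ (4 - x1.1) k1
    have k3 := filt G _ (fun x => x = x1) k2 (fun x hx hne' => by
      have hle := hmin x hx
      rcases eq_or_ne x.2.2.2 x0.2.2.2 with he | he
      · have h1 := hmin1 x (Finset.mem_filter.2 ⟨hx, he⟩)
        have h2 : x.1 ≠ x1.1 := by
          intro e
          apply hne'
          have hab := hG x hx x1 hx1G
          exact Prod.ext e (Prod.ext hab.1 (Prod.ext hab.2 (he.trans hx1c.symm)))
        exact h.mo_ge5 _ (by omega) _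
      · exact h.b3 _ _ _ _ (by omega))
    rw [Finset.filter_eq', if_pos hx1G, Finset.sum_singleton] at k3
    rwa [show x1.1 + (4 - x1.1) = 4 by omega, show x1.2.2.2 + (n : ℤ) + 1 = 0 by omega] at k3
  · have hz : ∀ x ∈ G, x.2.2.2 = 0 := fun x hx => by
      have h1 := hmin x hx
      have h2 := (hF x (hGF hx)).2.2.2.1
      omega
    refine h.soc (G.image (fun x => x.1)) (fun i hi => ?_) (hGne.image _) ?_
    · obtain ⟨x, hx, rfl⟩ := Finset.mem_image.1 hi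
      exact ⟨(hF x (hGF hx)).2.2.2.2 (hz x hx), (hF x (hGF hx)).1⟩
    · rw [Finset.sum_image]
      · convert hGs using 1
        refine Finset.sum_congr rfl fun x hx => ?_
        rw [hz x hx]
      · intro x hx x' hx' e
        have hab := hG x hx x' hx'
        exact Prod.ext e (Prod.ext hab.1 (Prod.ext hab.2 ((hz x hx).trans (hz x' hx').symm)))

lemma soc2 [CharP E 2] (I : Finset ℕ) (hI : ∀ i ∈ I, i < 5) (hne : I.Nonempty)
    (hF : ∑ i ∈ I, d.mo i (-1) (-1) (-1) ∈ N) : d.mo 4 (-1) (-1) (-1) ∈ N := by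
  obtain ⟨i0, hi0, hmin⟩ := I.exists_min_image id hne
  simp only [id] at hmin
  have hb := hI i0 hi0
  have k1 := h.sumSq I id _ _ _ hF
  norm_num at k1
  have k1s := h.sumS I _ _ _ _ 1 k1
  norm_num at k1s
  have k1t := h.sumT I _ _ _ _ 1 k1s
  norm_num at k1t
  interval_cases i0
  · have k2 := h.sumYZ I _ _ _ _ 4 k1t
    norm_num at k2
    have := single I _ 0 hi0 k2 (fun i hi hne => ?_)
    · simpa using this
    · exact h.mo_ge5 _ (by omega) _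
  · have k2 := h.sumYZ I _ _ _ _ 2 k1t
    norm_num at k2
    have := single I _ 1 hi0 k2 (fun i hi hne => ?_)
    · simpa using this
    · have := hmin i hi
      exact h.mo_ge5 _ (by omega) _
  · have k2 := h.sumYZ I _ _ _ _ 0 k1t
    norm_num at k2
    have := single I _ 2 hi0 k2 (fun i hi hne => ?_)
    · simpa using this
    · have := hmin i hi
      exact h.mo_ge5 _ (by omega) _
  · have k2 := h.sumYZ I _ _ _ _ 3 k1s
    norm_num at k2
    have := single I _ 3 hi0 k2 (fun i hi hne => ?_)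
    · norm_num at this
      rw [show (9 : ℕ) = 4 + 5 from rfl, d.mo5] at this
      have h' := (AddSubgroup.add_mem_cancel_right N (h.b1 (4 + 2) (-1 + 1) (-2) (-1)
        (by norm_num))).1 this
      simpa using h'
    · have := hmin i hi
      have := hI i hi
      have : i = 4 := by omega
      subst this
      show d.mo (2 * 4 + 3) (-1) (-2) (-1) ∈ N
      rw [show 2 * 4 + 3 = 6 + 5 from rfl, d.mo5]
      refine add_mem ?_ (h.b1 _ _ _ _ (by norm_num))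
      norm_num
      exact h.mo_ge5 _ (by omega) _
  · have hI2 : I = {4} := by
      ext i
      constructor
      · intro hi
        have := hmin i hi
        have := hI i hi
        have : i = 4 := by omega
        simpa using this
      · intro hi
        rw [(by simpa using hi : i = 4)]
        exact hi0
    rwa [hI2, Finset.sum_singleton] at hF

lemma all3 (h4 : d.mo 4 (-1) (-1) (-1) ∈ N) (i : ℕ) (a b c : ℤ) : d.mo i a b c ∈ N := by
  have k8 := h.sq' h4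
  norm_num at k8
  have k8' : d.mo 8 (-1) (-2) (-1) ∈ N := h.down k8 _ _ _ (by norm_num) le_rfl (by norm_num)
  rw [d.mo8] at k8'
  have h3 := (AddSubgroup.add_mem_cancel_right N
    (add_mem (h.b1 _ _ _ _ (by norm_num)) (h.b1 _ _ _ _ (by norm_num)))).1 k8'
  norm_num at h3
  have k6 := h.sq' h3
  norm_num at k6
  have k6' : d.mo 6 (-1) (-2) (-1) ∈ N := h.down k6 _ _ _ (by norm_num) le_rfl (by norm_num)
  have h1 := of_mo6 k6' (h.b1 _ _ _ _ (by norm_num))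
  norm_num at h1
  have k2 := h.sq' h1
  norm_num at k2
  have k5 := h.myz 3 _ k2
  rw [d.yz_mo] at k5
  norm_num at k5
  have k5' : d.mo 5 (-1) (-2) (-1) ∈ N := h.down k5 _ _ _ (by norm_num) le_rfl le_rfl
  rw [show (5 : ℕ) = 0 + 5 from rfl, d.mo5] at k5'
  have h0 := (AddSubgroup.add_mem_cancel_right N (h.b1 _ _ _ _ (by norm_num))).1 k5'
  norm_num at h0
  have key : ∀ n : ℕ, d.mo 0 (-(2 ^ n : ℤ)) (-(2 ^ n : ℤ)) (-(2 ^ n : ℤ)) ∈ N := by
    intro n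
    induction n with
    | zero => simpa using h0
    | succ n ih =>
      have := h.sq' ih
      rw [mul_zero] at this
      rwa [pow_succ, show -((2 : ℤ) ^ n * 2) = 2 * -(2 ^ n) by ring]
  have all : ∀ a b c, d.mo 0 a b c ∈ N := by
    intro a b c
    obtain ⟨n, hn⟩ : ∃ n : ℕ, -a ≤ 2 ^ n ∧ -b ≤ 2 ^ n ∧ -c ≤ 2 ^ n := by
      refine ⟨(-a).toNat + (-b).toNat + (-c).toNat, ?_⟩
      have h1 : (((-a).toNat + (-b).toNat + (-c).toNat : ℕ) : ℤ) ≤
          2 ^ ((-a).toNat + (-b).toNat + (-c).toNat) := by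
        exact_mod_cast Nat.lt_two_pow_self.le
      have ha := Int.self_le_toNat (-a)
      have hb := Int.self_le_toNat (-b)
      have hc := Int.self_le_toNat (-c)
      push_cast at h1
      have ha' : (0 : ℤ) ≤ ((-a).toNat : ℤ) := Int.natCast_nonneg _
      have hb' : (0 : ℤ) ≤ ((-b).toNat : ℤ) := Int.natCast_nonneg _
      have hc' : (0 : ℤ) ≤ ((-c).toNat : ℤ) := Int.natCast_nonneg _
      refine ⟨by linarith, by linarith, by linarith⟩
    exact h.down (key n) _ _ _ (by linarith [hn.1]) (by linarith [hn.2.1]) (by linarith [hn.2.2])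
  have := h.myz i _ (all a b (c - 1))
  rw [d.yz_mo] at this
  simpa using this

lemma extract2 [CharP E 2] (hW : ∀ i a b c, 0 ≤ c → d.mo i a b c ∈ N)
    (F : Finset (ℕ × ℤ × ℤ × ℤ)) (hne : F.Nonempty)
    (hF : ∀ x ∈ F, x.1 < 5 ∧ x.2.1 < 0 ∧ x.2.2.1 < 0 ∧ x.2.2.2 < 0)
    (hs : ∑ x ∈ F, d.mo x.1 x.2.1 x.2.2.1 x.2.2.2 ∈ N) (i : ℕ) (a b c : ℤ) :
    d.mo i a b c ∈ N := by
  obtain ⟨G, hGF, hGne, hG, hGs⟩ := h.red F hne (fun x hx => ⟨(hF x hx).2.1, (hF x hx).2.2.1⟩) hs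
  obtain ⟨x0, hx0, hmin⟩ := G.exists_min_image (fun x => x.2.2.2) hGne
  have hx0F := hF x0 (hGF hx0)
  obtain ⟨n, hn⟩ := Int.eq_ofNat_of_zero_le (show (0 : ℤ) ≤ -1 - x0.2.2.2 by omega)
  have k1 := filt G _ (fun x => x.2.2.2 = x0.2.2.2)
    (h.sumY G (fun x => x.1) (fun _ => -1) (fun _ => -1) (fun x => x.2.2.2) n hGs)
    (fun x hx hne' => hW _ _ _ _ (by have := hmin x hx; omega))
  have hne3 : (G.filter (fun x => x.2.2.2 = x0.2.2.2)).Nonempty :=
    ⟨x0, Finset.mem_filter.2 ⟨hx0, rfl⟩⟩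
  refine h.all3 (h.soc2 ((G.filter (fun x => x.2.2.2 = x0.2.2.2)).image (fun x => x.1))
    (fun i hi => ?_) (hne3.image _) ?_) i a b c
  · obtain ⟨x, hx, rfl⟩ := Finset.mem_image.1 hi
    exact (hF x (hGF (Finset.mem_filter.1 hx).1)).1
  · rw [Finset.sum_image]
    · convert k1 using 1
      refine Finset.sum_congr rfl fun x hx => ?_
      have := (Finset.mem_filter.1 hx).2
      rw [show x.2.2.2 + (n : ℤ) = -1 by omega]
    · intro x hx x' hx' e
      have e1 := Finset.mem_filter.1 hx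
      have e2 := Finset.mem_filter.1 hx'
      have hab := hG x e1.1 x' e2.1
      exact Prod.ext e (Prod.ext hab.1 (Prod.ext hab.2 (e1.2.trans e2.2.symm)))

end Good

variable (d)

/-- All finite sums of monomials. -/
def DD : AddSubgroup E := AddSubgroup.closure {e | ∃ i a b c, e = d.mo i a b c}

/-- The sums of monomials that vanish in the local cohomology of the overring. -/
def WW : AddSubgroup E :=
  AddSubgroup.closure {e | ∃ i a b c, (0 ≤ a ∨ 0 ≤ b ∨ 0 ≤ c) ∧ e = d.mo i a b c}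

/-- The sums of monomials that are coboundaries. -/
def Bd : AddSubgroup E :=
  AddSubgroup.closure {e | ∃ i a b c, (0 ≤ a ∨ 0 ≤ b ∨ 1 ≤ c ∨ (i = 0 ∧ c = 0)) ∧
    e = d.mo i a b c}

variable {d}

lemma mo_DD (i : ℕ) (a b c : ℤ) : d.mo i a b c ∈ d.DD :=
  AddSubgroup.subset_closure ⟨i, a, b, c, rfl⟩

lemma Good.Bd_le {N : AddSubgroup E} (h : d.Good N) : d.Bd ≤ N := by
  rw [Bd, AddSubgroup.closure_le]
  rintro _ ⟨i, a, b, c, hc, rfl⟩
  rcases hc with hc | hc | hc | ⟨rfl, rfl⟩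
  · exact h.b1 _ _ _ _ hc
  · exact h.b2 _ _ _ _ hc
  · exact h.b3 _ _ _ _ hc
  · exact h.b4 _ _

lemma sum_symmDiff [CharP E 2] {X : Type} [DecidableEq X] (F G : Finset X) (f : X → E) :
    ∑ x ∈ symmDiff F G, f x = ∑ x ∈ F, f x + ∑ x ∈ G, f x := by
  have h1 := Finset.sum_inter_add_sum_sdiff F G f
  have h2 := Finset.sum_inter_add_sum_sdiff G F f
  rw [Finset.inter_comm G F] at h2
  rw [symmDiff_def, Finset.sup_eq_union, Finset.sum_union disjoint_sdiff_sdiff, ← h1, ← h2]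
  have := CharTwo.add_self_eq_zero (∑ x ∈ F ∩ G, f x)
  linear_combination -this

lemma rep [CharP E 2] (e : E) (he : e ∈ d.DD) : ∃ F : Finset (ℕ × ℤ × ℤ × ℤ),
    (∀ x ∈ F, x.1 < 5) ∧ e = ∑ x ∈ F, d.mo x.1 x.2.1 x.2.2.1 x.2.2.2 := by
  have add : ∀ e e' : E, (∃ F : Finset (ℕ × ℤ × ℤ × ℤ),
      (∀ x ∈ F, x.1 < 5) ∧ e = ∑ x ∈ F, d.mo x.1 x.2.1 x.2.2.1 x.2.2.2) →
      (∃ F : Finset (ℕ × ℤ × ℤ × ℤ),
      (∀ x ∈ F, x.1 < 5) ∧ e' = ∑ x ∈ F, d.mo x.1 x.2.1 x.2.2.1 x.2.2.2) →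
      (∃ F : Finset (ℕ × ℤ × ℤ × ℤ),
      (∀ x ∈ F, x.1 < 5) ∧ e + e' = ∑ x ∈ F, d.mo x.1 x.2.1 x.2.2.1 x.2.2.2) := by
    rintro e e' ⟨F, hF, rfl⟩ ⟨G, hG, rfl⟩
    refine ⟨symmDiff F G, fun x hx => ?_, (sum_symmDiff F G _).symm⟩
    rcases Finset.mem_symmDiff.1 hx with hx | hx
    · exact hF x hx.1
    · exact hG x hx.1
  refine AddSubgroup.closure_induction (p := fun e _ => ∃ F : Finset (ℕ × ℤ × ℤ × ℤ),
    (∀ x ∈ F, x.1 < 5) ∧ e = ∑ x ∈ F, d.mo x.1 x.2.1 x.2.2.1 x.2.2.2) ?_ ?_ ?_ ?_ he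
  · rintro _ ⟨i, a, b, c, rfl⟩
    induction i using Nat.strong_induction_on generalizing a b with
    | _ i ih =>
      rcases Nat.lt_or_ge i 5 with hi | hi
      · exact ⟨{(i, a, b, c)}, by simpa using hi, by simp⟩
      · obtain ⟨k, rfl⟩ := Nat.exists_eq_add_of_le' hi
        rw [d.mo5]
        exact add _ _ (ih k (by omega) _ _) (ih (k + 2) (by omega) _ _)
  · exact ⟨∅, by simp, by simp⟩
  · intro x y _ _ hx hy
    exact add x y hx hy
  · intro x _ hx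
    rwa [CharTwo.neg_eq]

lemma Good.first [CharP E 2] {N : AddSubgroup E} (h : d.Good N) {e : E} (he : e ∈ N)
    (heD : e ∈ d.DD) (heB : e ∉ d.Bd) : d.WW ≤ N := by
  obtain ⟨F, hF, rfl⟩ := rep e heD
  have k := Good.filt F _ (fun x => ¬ (0 ≤ x.2.1 ∨ 0 ≤ x.2.2.1 ∨ 1 ≤ x.2.2.2 ∨
    (x.1 = 0 ∧ x.2.2.2 = 0))) he (fun x hx hP => by
      have hP := not_not.1 hP
      exact h.Bd_le (AddSubgroup.subset_closure ⟨_, _, _, _, hP, rfl⟩))
  have hne : (F.filter (fun x => ¬ (0 ≤ x.2.1 ∨ 0 ≤ x.2.2.1 ∨ 1 ≤ x.2.2.2 ∨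
    (x.1 = 0 ∧ x.2.2.2 = 0)))).Nonempty := by
    by_contra hcon
    rw [Finset.not_nonempty_iff_eq_empty, Finset.filter_eq_empty_iff] at hcon
    refine heB (sum_mem fun x hx => ?_)
    have := not_not.1 (hcon hx)
    exact AddSubgroup.subset_closure ⟨_, _, _, _, this, rfl⟩
  have h4 := h.extract1 _ hne (fun x hx => by
    have h1 := hF x (Finset.mem_filter.1 hx).1
    have h2 := (Finset.mem_filter.1 hx).2
    push Not at h2
    refine ⟨h1, h2.1, h2.2.1, by omega, fun h0 => ?_⟩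
    by_contra h3
    exact h2.2.2.2 (by omega) h0) k
  rw [WW, AddSubgroup.closure_le]
  rintro _ ⟨i, a, b, c, hc, rfl⟩
  rcases hc with hc | hc | hc
  · exact h.b1 _ _ _ _ hc
  · exact h.b2 _ _ _ _ hc
  · rcases eq_or_lt_of_le hc with hc | hc
    · rw [← hc]; exact h.all0 h4 _ _ _
    · exact h.b3 _ _ _ _ (by omega)

lemma Good.second [CharP E 2] {N : AddSubgroup E} (h : d.Good N) (hW : d.WW ≤ N) {e : E}
    (he : e ∈ N) (heD : e ∈ d.DD) (heB : e ∉ d.WW) : d.DD ≤ N := by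
  obtain ⟨F, hF, rfl⟩ := rep e heD
  have k := Good.filt F _ (fun x => ¬ (0 ≤ x.2.1 ∨ 0 ≤ x.2.2.1 ∨ 0 ≤ x.2.2.2)) he
    (fun x hx hP => by
      have hP := not_not.1 hP
      exact hW (AddSubgroup.subset_closure ⟨_, _, _, _, hP, rfl⟩))
  have hne : (F.filter (fun x => ¬ (0 ≤ x.2.1 ∨ 0 ≤ x.2.2.1 ∨ 0 ≤ x.2.2.2))).Nonempty := by
    by_contra hcon
    rw [Finset.not_nonempty_iff_eq_empty, Finset.filter_eq_empty_iff] at hcon
    refine heB (sum_mem fun x hx => ?_)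
    have := not_not.1 (hcon hx)
    exact AddSubgroup.subset_closure ⟨_, _, _, _, this, rfl⟩
  rw [DD, AddSubgroup.closure_le]
  rintro _ ⟨i, a, b, c, rfl⟩
  refine h.extract2 (fun i a b c hc => hW (AddSubgroup.subset_closure
    ⟨_, _, _, _, Or.inr (Or.inr hc), rfl⟩)) _ hne (fun x hx => ?_) k i a b c
  have h1 := hF x (Finset.mem_filter.1 hx).1
  have h2 := (Finset.mem_filter.1 hx).2
  push Not at h2
  exact ⟨h1, h2⟩

/-- The conclusion: squaring is injective modulo every stable subgroup. -/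
theorem Good.main [CharP E 2] {N : AddSubgroup E} (h : d.Good N)
    (n1 : ∃ e ∈ d.DD, e ^ 2 ∉ d.WW) (n2 : ∃ e ∈ d.WW, e ^ 2 ∉ d.Bd) {e0 : E}
    (hD : e0 ∈ d.DD) (hsq : e0 ^ 2 ∈ N) : e0 ∈ N := by
  by_contra hN
  have sqD : ∀ e ∈ d.DD, e ^ 2 ∈ d.DD := by
    intro e he
    obtain ⟨F, -, rfl⟩ := rep e he
    rw [CharTwo.sum_sq]
    refine sum_mem fun x _ => ?_
    rw [d.mo_sq]
    exact mo_DD _ _ _ _
  have mulD : ∀ (r : E), (∀ i a b c, r * d.mo i a b c ∈ d.DD) → ∀ e ∈ d.DD, r * e ∈ d.DD := by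
    intro r hr e he
    obtain ⟨F, -, rfl⟩ := rep e he
    rw [Finset.mul_sum]
    exact sum_mem fun x _ => hr _ _ _ _
  have hsD := mulD d.s (fun i a b c => by
    have := d.s_mo 1 i a b c; rw [pow_one] at this; rw [this]; exact mo_DD _ _ _ _)
  have htD := mulD d.t (fun i a b c => by
    have := d.t_mo 1 i a b c; rw [pow_one] at this; rw [this]; exact mo_DD _ _ _ _)
  have hyD := mulD d.y (fun i a b c => by
    have := d.y_mo 1 i a b c; rw [pow_one] at this; rw [this]; exact mo_DD _ _ _ _)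
  have hyzD := fun j => mulD (d.y * d.z ^ j) (fun i a b c => by
    rw [d.yz_mo]; exact mo_DD _ _ _ _)
  let K : AddSubgroup E :=
    { carrier := {e | e ∈ d.DD ∧ e ^ 2 ∈ N}
      zero_mem' := ⟨zero_mem _, by simp⟩
      add_mem' := fun {x y} hx hy => ⟨add_mem hx.1 hy.1, by
        rw [CharTwo.add_sq]; exact add_mem hx.2 hy.2⟩
      neg_mem' := fun {x} hx => by rwa [CharTwo.neg_eq] }
  have memK : ∀ e, e ∈ K ↔ e ∈ d.DD ∧ e ^ 2 ∈ N := fun e => Iff.rfl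
  have hK : d.Good K := by
    refine ⟨?_, ?_, ?_, ?_, ?_, ?_, ?_, ?_, ?_⟩
    · rintro e ⟨h1, h2⟩
      exact ⟨hsD e h1, by rw [mul_pow]; exact h.mS 2 h2⟩
    · rintro e ⟨h1, h2⟩
      exact ⟨htD e h1, by rw [mul_pow]; exact h.mT 2 h2⟩
    · rintro e ⟨h1, h2⟩
      exact ⟨hyD e h1, by rw [mul_pow]; exact h.mY 2 h2⟩
    · rintro j e ⟨h1, h2⟩
      refine ⟨hyzD j e h1, ?_⟩
      have := h.my _ (h.myz (2 * j) _ h2)
      convert this using 1
      ring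
    · rintro e ⟨h1, h2⟩
      exact ⟨sqD e h1, h.sq _ h2⟩
    · exact fun i a b c hc => ⟨mo_DD _ _ _ _, h.sq _ (h.b1 _ _ _ _ hc)⟩
    · exact fun i a b c hc => ⟨mo_DD _ _ _ _, h.sq _ (h.b2 _ _ _ _ hc)⟩
    · exact fun i a b c hc => ⟨mo_DD _ _ _ _, h.sq _ (h.b3 _ _ _ _ hc)⟩
    · exact fun a b => ⟨mo_DD _ _ _ _, h.sq _ (h.b4 _ _)⟩
  have he0K : e0 ∈ K := ⟨hD, hsq⟩
  have hWK : d.WW ≤ K := hK.first he0K hD (fun hb => hN (h.Bd_le hb))
  by_cases hWN : d.WW ≤ N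
  · have hDK : d.DD ≤ K := hK.second hWK he0K hD (fun hb => hN (hWN hb))
    obtain ⟨e, he, he2⟩ := n1
    exact hN (h.second hWN ((memK e).1 (hDK he)).2 (sqD e he) he2 hD)
  · obtain ⟨e, he, he2⟩ := n2
    have h1 := (memK e).1 (hWK he)
    exact hWN (h.first h1.2 (sqD e h1.1) he2)

end Data

end Q36.FA
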