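import Mathlib

/-! Polynomial facts on the extension generated by `t = z^5 + s z^2`. -/

open Classical

namespace Q36.FA

open Polynomial

/-- The field with two elements. -/
def F2 : Type := ZMod 2

noncomputable instance : Field F2 := inferInstanceAs (Field (ZMod 2))

instance : CharP F2 2 := inferInstanceAs (CharP (ZMod 2) 2)

lemma F2_cases (x : F2) : x = 0 ∨ x = 1 := by
  have h : ∀ x : ZMod 2, x = 0 ∨ x = 1 := by decide
  exact h x

/-- Polynomials in `s`. -/
abbrev K0 := Polynomial F2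
/-- Polynomials in `s`, `z`. -/
abbrev CC := Polynomial K0

noncomputable def tC : CC := X ^ 5 + C X * X ^ 2

/-- Polynomials in `s` and `t`. -/
noncomputable def BB : Subring CC := (Polynomial.compRingHom tC).range

lemma mem_BB (c : CC) : c ∈ BB ↔ ∃ g : CC, g.comp tC = c := Iff.rfl

lemma tC_monic : tC.Monic := by
  unfold tC
  refine monic_X_pow_add ?_
  refine lt_of_le_of_lt (degree_C_mul_X_pow_le 2 _) ?_
  norm_num

lemma tC_natDegree : tC.natDegree = 5 := by
  unfold tC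
  compute_degree!

/-- Setting `s = 0`. -/
noncomputable def ph : CC →+* Polynomial F2 := Polynomial.mapRingHom (Polynomial.evalRingHom 0)

lemma ph_C (f : K0) : ph (C f) = C (f.eval 0) := by
  simp [ph]

lemma ph_X : ph X = X := by simp [ph]

lemma ph_tC : ph tC = X ^ 5 := by
  rw [tC, map_add, map_mul, map_pow, map_pow, ph_X, ph_C]
  simp

lemma ph_comp (g : CC) : ph (g.comp tC) = expand F2 5 (ph g) := by
  rw [expand_eq_comp_X_pow, ← ph_tC]
  show Polynomial.map _ (g.comp tC) = (Polynomial.map _ g).comp (Polynomial.map _ tC)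
  rw [Polynomial.map_comp]

lemma ph_eq_zero (g : CC) (h : ph g = 0) : ∃ g', g = C X * g' := by
  have : (C (X : K0)) ∣ g := by
    rw [C_dvd_iff_dvd_coeff]
    intro n
    have h1 : (ph g).coeff n = 0 := by rw [h]; simp
    simp only [ph, coe_mapRingHom, coeff_map, coe_evalRingHom] at h1
    exact X_dvd_iff.2 (by rwa [coeff_zero_eq_eval_zero])
  exact this

lemma cancel_s (c : CC) (h : C X * c ∈ BB) : c ∈ BB := by
  obtain ⟨g, hg⟩ := (mem_BB _).1 h
  have h1 : ph (g.comp tC) = 0 := by rw [hg, map_mul, ph_C]; simp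
  rw [ph_comp, expand_eq_zero (by norm_num)] at h1
  obtain ⟨g', rfl⟩ := ph_eq_zero g h1
  rw [mul_comp, C_comp] at hg
  have h2 : (C (X : K0) : CC) ≠ 0 := by simp
  exact (mem_BB _).2 ⟨g', mul_left_cancel₀ h2 hg⟩

lemma cancel_s_pow (n : ℕ) (c : CC) (h : (C X) ^ n * c ∈ BB) : c ∈ BB := by
  induction n with
  | zero => simpa using h
  | succ n ih =>
    refine ih (cancel_s _ ?_)
    rwa [pow_succ', mul_assoc] at h

lemma s_mem : (C X : CC) ∈ BB := (mem_BB _).2 ⟨C X, C_comp⟩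

lemma t_mem : tC ∈ BB := (mem_BB _).2 ⟨X, X_comp⟩

lemma degree_tpow (n : ℕ) : (tC ^ n).degree = ((5 * n : ℕ) : WithBot ℕ) := by
  rw [degree_eq_natDegree (tC_monic.pow n).ne_zero, tC_monic.natDegree_pow, tC_natDegree,
    mul_comm]

lemma red_deg (n : ℕ) (w a b : CC) (hw : w.degree < (tC ^ n).degree)
    (h : w = (C X) ^ n * a + tC ^ n * b) : ∃ a', w = (C X) ^ n * a' := by
  have hm := tC_monic.pow n
  have h1 := (modByMonic_eq_self_iff hm).2 hw
  refine ⟨a %ₘ tC ^ n, ?_⟩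
  rw [← h1, h, add_modByMonic, ← C_pow, ← smul_eq_C_mul, smul_modByMonic,
    (modByMonic_eq_zero_iff_dvd hm).2 (Dvd.intro _ rfl), add_zero, smul_eq_C_mul]

lemma split_B (n : ℕ) (b : CC) (hb : b ∈ BB) : ∃ b1 ∈ BB, ∃ b2 ∈ BB,
    b = b1 + tC ^ n * b2 ∧ b1.degree < (tC ^ n).degree := by
  obtain ⟨g, rfl⟩ := (mem_BB _).1 hb
  refine ⟨(g %ₘ X ^ n).comp tC, (mem_BB _).2 ⟨_, rfl⟩, (g /ₘ X ^ n).comp tC,
    (mem_BB _).2 ⟨_, rfl⟩, ?_, ?_⟩
  · conv_lhs => rw [← modByMonic_add_div g (X ^ n)]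
    rw [add_comp, mul_comp, X_pow_comp]
  · rcases eq_or_ne (g %ₘ X ^ n) 0 with h0 | h0
    · rw [h0, zero_comp, degree_zero, degree_tpow]
      exact WithBot.bot_lt_coe _
    · rw [degree_tpow]
      refine lt_of_le_of_lt degree_le_natDegree ?_
      rw [natDegree_comp, tC_natDegree]
      have h1 := degree_modByMonic_lt g (monic_X_pow (R := K0) n)
      rw [degree_X_pow, degree_eq_natDegree h0] at h1
      have h2 : (g %ₘ X ^ n).natDegree < n := by exact_mod_cast h1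
      exact_mod_cast (by omega : (g %ₘ X ^ n).natDegree * 5 < 5 * n)

/-- The ideal generated by powers of `s` and `t` contracts well. -/
lemma contract (n : ℕ) (b u v : CC) (hb : b ∈ BB) (h : b = (C X) ^ n * u + tC ^ n * v) :
    ∃ b1 ∈ BB, ∃ b2 ∈ BB, b = (C X) ^ n * b1 + tC ^ n * b2 := by
  obtain ⟨b1, hb1, b2, hb2, hbe, hdeg⟩ := split_B n b hb
  obtain ⟨a', ha'⟩ := red_deg n b1 u (v - b2) hdeg (by
    rw [mul_sub]; linear_combination h - hbe)
  refine ⟨a', cancel_s_pow n a' (by rwa [← ha']), b2, hb2, ?_⟩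
  rw [hbe, ha']

lemma natDegree_st (n m : ℕ) : ((X : CC) ^ m * ((C X) * tC) ^ n).degree =
    ((m + 5 * n : ℕ) : WithBot ℕ) := by
  rw [degree_mul, degree_X_pow, mul_pow, degree_mul, degree_tpow, ← C_pow, degree_C (by simp)]
  push_cast
  rw [zero_add]

lemma not1 (n : ℕ) (u v : CC) : ((C X) * tC) ^ n ≠ u * tC ^ (n + 2) + v * (C X) ^ (n + 2) := by
  intro h
  obtain ⟨a, ha⟩ := red_deg (n + 2) (((C X) * tC) ^ n) v u (by
    have := natDegree_st n 0
    rw [pow_zero, one_mul] at this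
    rw [this, degree_tpow]
    exact_mod_cast (by omega : 0 + 5 * n < 5 * (n + 2))) (by rw [h]; ring)
  have h2 : (C (X : K0) : CC) ^ n ≠ 0 := by simp
  have h3 : tC ^ n = (C X) ^ 2 * a := by
    apply mul_left_cancel₀ h2
    rw [← mul_pow, ha]; ring
  have h4 := congrArg ph h3
  rw [map_pow, ph_tC, map_mul, map_pow, ph_C] at h4
  simp at h4

lemma not2 (n : ℕ) (b u v : CC) (hb : b ∈ BB) :
    X ^ 2 * ((C X) * tC) ^ n ≠ b + u * tC ^ (n + 2) + v * (C X) ^ (n + 2) := by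
  intro h
  obtain ⟨b1, hb1, b2, hb2, hbe, hdeg⟩ := split_B (n + 2) b hb
  obtain ⟨a, ha⟩ := red_deg (n + 2) (X ^ 2 * ((C X) * tC) ^ n - b1) v (u + b2) (by
    refine lt_of_le_of_lt (degree_sub_le _ _) (max_lt ?_ hdeg)
    rw [natDegree_st n 2, degree_tpow]
    exact_mod_cast (by omega : 2 + 5 * n < 5 * (n + 2))) (by rw [h, hbe]; ring)
  have h1 : (C X) ^ n * (X ^ 2 * tC ^ n - (C X) ^ 2 * a) = b1 := by
    rw [mul_sub, ← mul_assoc, ← mul_assoc, ← pow_add, ← ha]; ring
  obtain ⟨g, hg⟩ := (mem_BB _).1 (cancel_s_pow n _ (by rw [h1]; exact hb1))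
  have h4 := congrArg ph hg
  rw [ph_comp, map_sub, map_mul, map_pow, map_mul, map_pow, map_pow, ph_tC, ph_C, ph_X] at h4
  have h5 := congrArg (fun q => Polynomial.coeff q (5 * n + 2)) h4
  simp only [eval_X, map_zero, ne_eq, OfNat.ofNat_ne_zero, not_false_eq_true, zero_pow, zero_mul,
    sub_zero] at h5
  rw [← pow_mul, ← pow_add, coeff_X_pow, if_pos (by ring),
    coeff_expand (by norm_num), if_neg (by omega)] at h5
  exact zero_ne_one h5

end Q36.FA
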