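import Mathlib
import Pool.Agent.Q36.FA.Pol

/-! The polynomial ring in `s, z` as an opaque ring. -/

open Classical

namespace Q36.FA

open Polynomial

/-- The polynomial ring in two variables `s`, `z` over the field with two elements. -/
def CR : Type := Polynomial (Polynomial F2)

noncomputable instance : CommRing CR := inferInstanceAs (CommRing CC)

instance : IsDomain CR := inferInstanceAs (IsDomain CC)

instance : CharP CR 2 := inferInstanceAs (CharP CC 2)

/-- The variable `s`. -/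
noncomputable def sR : CR := (C X : CC)
/-- The variable `z`. -/
noncomputable def zR : CR := (X : CC)
/-- The element `t = z^5 + s z^2`. -/
noncomputable def tR : CR := zR ^ 5 + sR * zR ^ 2
/-- The subring of polynomials in `s` and `t`. -/
noncomputable def BR : Subring CR := BB

lemma tR_eq : tR = (tC : CC) := rfl

lemma relR : zR ^ 5 = tR + sR * zR ^ 2 := by
  have h2 : (2 : CR) = 0 := CharTwo.two_eq_zero
  rw [tR]
  linear_combination (-sR * zR ^ 2) * h2

lemma sR_mem : sR ∈ BR := s_mem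
lemma tR_mem : tR ∈ BR := t_mem

lemma prime_sR : Prime sR := by
  show Prime (C X : CC)
  rw [prime_C_iff]
  exact prime_X

lemma sR_not_dvd_tR : ¬ sR ∣ tR := by
  show ¬ (C X : CC) ∣ tC
  rw [C_dvd_iff_dvd_coeff]
  intro h
  have h3 := h 5
  rw [← tC_natDegree, coeff_natDegree, tC_monic.leadingCoeff] at h3
  exact not_isUnit_X (isUnit_of_dvd_one h3)

lemma tR_ne : tR ≠ 0 := tC_monic.ne_zero

lemma cancelR (n : ℕ) (c : CR) (h : sR ^ n * c ∈ BR) : c ∈ BR := cancel_s_pow n c h

lemma contractR (n : ℕ) (b u v : CR) (hb : b ∈ BR) (h : b = sR ^ n * u + tR ^ n * v) :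
    ∃ b1 ∈ BR, ∃ b2 ∈ BR, b = sR ^ n * b1 + tR ^ n * b2 := contract n b u v hb h

lemma not1R (n : ℕ) (u v : CR) : (sR * tR) ^ n ≠ u * tR ^ (n + 2) + v * sR ^ (n + 2) :=
  not1 n u v

lemma not2R (n : ℕ) (b u v : CR) (hb : b ∈ BR) :
    zR ^ 2 * (sR * tR) ^ n ≠ b + u * tR ^ (n + 2) + v * sR ^ (n + 2) :=
  not2 n b u v hb

lemma K0_ind (P : K0 → Prop) (h0 : P 0) (hadd : ∀ a b, P a → P b → P (a + b))
    (hm : ∀ n : ℕ, P (X ^ n)) (q : K0) : P q := by
  induction q using Polynomial.induction_on' with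
  | add p q hp hq => exact hadd _ _ hp hq
  | monomial n a =>
    rcases F2_cases a with rfl | rfl
    · simpa using h0
    · rw [monomial_one_right_eq_X_pow]; exact hm n

lemma CC_ind (P : CC → Prop) (h0 : P 0) (hadd : ∀ a b, P a → P b → P (a + b))
    (hm : ∀ n m : ℕ, P ((C X) ^ n * X ^ m)) (q : CC) : P q := by
  induction q using Polynomial.induction_on' with
  | add p q hp hq => exact hadd _ _ hp hq
  | monomial m a =>
    refine K0_ind (fun a => P (monomial m a)) (by simpa using h0) (fun a b ha hb => ?_)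
      (fun n => ?_) a
    · show P (monomial m (a + b))
      rw [map_add]; exact hadd _ _ ha hb
    · show P (monomial m (X ^ n))
      rw [← C_mul_X_pow_eq_monomial, C_pow]; exact hm n m

lemma CR_ind (P : CR → Prop) (h0 : P 0) (hadd : ∀ a b, P a → P b → P (a + b))
    (hm : ∀ n m : ℕ, P (sR ^ n * zR ^ m)) (q : CR) : P q := CC_ind P h0 hadd hm q

lemma BR_ind (P : CR → Prop) (h0 : P 0) (hadd : ∀ a b, P a → P b → P (a + b))
    (hm : ∀ n m : ℕ, P (sR ^ n * tR ^ m)) (b : CR) (hb : b ∈ BR) : P b := by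
  obtain ⟨g, rfl⟩ := (mem_BB _).1 hb
  refine CC_ind (fun g => P (g.comp tC : CC)) ?_ (fun a b ha hb => ?_) (fun n m => ?_) g
  · show P (comp 0 tC : CC)
    rw [zero_comp]; exact h0
  · show P (comp (a + b) tC : CC)
    rw [add_comp]; exact hadd _ _ ha hb
  · show P (comp (C X ^ n * X ^ m) tC : CC)
    rw [mul_comp, X_pow_comp, ← C_pow, C_comp, C_pow]
    exact hm n m

/-- Setting `z = 0`. -/
noncomputable def ev : CR →+* K0 := (Polynomial.evalRingHom 0 : CC →+* K0)

lemma ev_s : ev sR = X := by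
  show Polynomial.eval 0 (C X : CC) = X
  simp

lemma ev_z : ev zR = 0 := by
  show Polynomial.eval 0 (X : CC) = 0
  simp

lemma ev_t : ev tR = 0 := by
  rw [tR, map_add, map_mul, map_pow, map_pow, ev_z]; simp

lemma ev_zero (c : CR) (h : ev c = 0) : ∃ c', c = zR * c' := by
  have h1 : (X : CC) ∣ c := by
    rw [X_dvd_iff, coeff_zero_eq_eval_zero]
    exact h
  exact h1

/-- A polynomial in `s, t` that vanishes at `z = 0` is divisible by `t`. -/
lemma BR_ev (b : CR) (hb : b ∈ BR) (h0 : ev b = 0) : ∃ b' ∈ BR, b = tR * b' := by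
  obtain ⟨g, rfl⟩ := (mem_BB _).1 hb
  have ht : Polynomial.eval 0 tC = 0 := by simp [tC]
  have h1 : Polynomial.eval 0 (g.comp tC) = 0 := h0
  rw [eval_comp, ht, ← coeff_zero_eq_eval_zero] at h1
  obtain ⟨g', rfl⟩ := X_dvd_iff.2 h1
  exact ⟨g'.comp tC, (mem_BB _).2 ⟨g', rfl⟩, by rw [mul_comp, X_comp]; rfl⟩

/-- A nonzero polynomial in `s, t` is a power of `t` times one that does not vanish at
`z = 0`. -/
lemma BR_order (b : CR) (hb : b ∈ BR) (h0 : b ≠ 0) : ∃ (j : ℕ) (b' : CR),
    b = tR ^ j * b' ∧ ev b' ≠ 0 := by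
  obtain ⟨g, rfl⟩ := (mem_BB _).1 hb
  have hg : g ≠ 0 := by
    rintro rfl
    exact h0 (zero_comp)
  obtain ⟨g', hg', hX⟩ := exists_eq_pow_rootMultiplicity_mul_and_not_dvd g hg 0
  rw [C_0, sub_zero] at hg' hX
  refine ⟨rootMultiplicity 0 g, g'.comp tC, ?_, ?_⟩
  · conv_lhs => rw [hg']
    rw [mul_comp, X_pow_comp]
    rfl
  · show Polynomial.eval 0 (g'.comp tC) ≠ 0
    have ht : Polynomial.eval 0 tC = 0 := by simp [tC]
    rw [eval_comp, ht]
    intro h
    exact hX (X_dvd_iff.2 (by rwa [coeff_zero_eq_eval_zero]))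

/-- The expansion in powers of `z` over a field containing the polynomials in `s`. -/
noncomputable def lam (κ : Type) [Field κ] [Algebra K0 κ] : CR →+* PowerSeries κ :=
  (Polynomial.eval₂RingHom ((PowerSeries.C).comp (algebraMap K0 κ)) PowerSeries.X :
    CC →+* PowerSeries κ)

section
variable (κ : Type) [Field κ] [Algebra K0 κ]

lemma lam_s : lam κ sR = PowerSeries.C (algebraMap K0 κ X) := by
  show Polynomial.eval₂ _ _ (C X : CC) = _
  rw [eval₂_C]; rfl

lemma lam_z : lam κ zR = PowerSeries.X := by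
  show Polynomial.eval₂ _ _ (X : CC) = _
  rw [eval₂_X]

lemma lam_const (c : CR) : PowerSeries.constantCoeff (lam κ c) = algebraMap K0 κ (ev c) := by
  have : (PowerSeries.constantCoeff).comp (lam κ) = (algebraMap K0 κ).comp ev := by
    show (PowerSeries.constantCoeff (R := κ)).comp (Polynomial.eval₂RingHom
      ((PowerSeries.C).comp (algebraMap K0 κ)) PowerSeries.X : CC →+* PowerSeries κ) =
        (algebraMap K0 κ).comp (Polynomial.evalRingHom 0)
    apply Polynomial.ringHom_ext
    · intro a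
      simp
    · simp
  exact RingHom.congr_fun this c

end

/-- Setting `s = z = 0`. -/
noncomputable def ev2 : CR →+* F2 := (Polynomial.evalRingHom 0).comp ev

lemma ev2_apply (c : CR) : ev2 c = (ev c).eval 0 := rfl

end Q36.FA
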