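import Mathlib

/-! Local cohomology of rings of characteristic two through Cech complexes, its Frobenius
action, and anti-nilpotency. -/

open Classical

namespace Q36.FA

variable {R : Type} [CommRing R]

/-- The localisation of `R` at the product of the elements of a finite set `S`. -/
abbrev Loc (S : Finset R) : Type := Localization.Away (∏ a ∈ S, a)

lemma isUnit_prod {S T : Finset R} (h : S ⊆ T) :
    IsUnit (algebraMap R (Loc T) (∏ a ∈ S, a)) := by
  have h1 : IsUnit (algebraMap R (Loc T) (∏ a ∈ T, a)) :=
    IsLocalization.Away.algebraMap_isUnit _
  exact isUnit_of_dvd_unit (map_dvd _ (Finset.prod_dvd_prod_of_subset S T _ h)) h1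

/-- The localisation map between the localisations attached to `S ⊆ T`. -/
noncomputable def res {S T : Finset R} (h : S ⊆ T) : Loc S →+* Loc T :=
  IsLocalization.Away.lift (∏ a ∈ S, a) (isUnit_prod h)

lemma res_algebraMap {S T : Finset R} (h : S ⊆ T) (r : R) :
    res h (algebraMap R (Loc S) r) = algebraMap R (Loc T) r :=
  IsLocalization.Away.lift_eq _ _ _

lemma res_smul {S T : Finset R} (h : S ⊆ T) (r : R) (u : Loc S) :
    res h (r • u) = r • res h u := by
  rw [Algebra.smul_def, Algebra.smul_def, map_mul, res_algebraMap]

/-- A family of elements, one in the localisation attached to each finite subset of `R`.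
A Cech cochain of degree `i` for the finite set `J` is such a family, of which only the
members at the subsets of `J` with `i` elements are used. -/
abbrev Cochain (R : Type) [CommRing R] : Type := (S : Finset R) → Loc S

/-- The Cech differential (no signs are needed in characteristic two). -/
noncomputable def diff : Cochain R →ₗ[R] Cochain R where
  toFun c S := ∑ a ∈ S, res (S.erase_subset a) (c (S.erase a))
  map_add' c c' := by
    funext S
    simp only [Pi.add_apply, map_add, Finset.sum_add_distrib]
  map_smul' r c := by
    funext S
    simp only [Pi.smul_apply, RingHom.id_apply, res_smul, Finset.smul_sum]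

lemma diff_apply (c : Cochain R) (S : Finset R) :
    diff c S = ∑ a ∈ S, res (S.erase_subset a) (c (S.erase a)) := rfl

/-- The cocycles of degree `i` of the Cech complex of the finite set `J`. -/
def cocycles (J : Finset R) (i : ℕ) : Submodule R (Cochain R) where
  carrier := {c | ∀ S ∈ J.powersetCard (i + 1), diff c S = 0}
  zero_mem' S _ := by simp
  add_mem' {c c'} h h' S hS := by simp [h S hS, h' S hS]
  smul_mem' r c h S hS := by simp [h S hS]

/-- The coboundaries of degree `i` of the Cech complex of the finite set `J` (in degree zero,
the cochains that vanish). -/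
def coboundaries (J : Finset R) (i : ℕ) : Submodule R (Cochain R) where
  carrier := {c | ∃ b : Cochain R, ∀ S ∈ J.powersetCard i, c S = diff b S}
  zero_mem' := ⟨0, fun S _ => by simp⟩
  add_mem' := by
    rintro c c' ⟨b, hb⟩ ⟨b', hb'⟩
    exact ⟨b + b', fun S hS => by simp [hb S hS, hb' S hS]⟩
  smul_mem' := by
    rintro r c ⟨b, hb⟩
    exact ⟨r • b, fun S hS => by simp [hb S hS]⟩

/-- `H^i(J) = cocycles / coboundaries`, with the Frobenius action induced by squaring cochains
componentwise, is anti-nilpotent: for every submodule `N / coboundaries` stable under Frobenius,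
Frobenius is injective on the quotient `H^i(J) / (N / coboundaries) = cocycles / N`. -/
def AntiNilpotent (J : Finset R) (i : ℕ) : Prop :=
  ∀ N : Submodule R (Cochain R), coboundaries J i ≤ N → N ≤ cocycles J i →
    (∀ c ∈ N, c ^ 2 ∈ N) → ∀ c ∈ cocycles J i, c ^ 2 ∈ N → c ∈ N

/-- A local ring of characteristic two is F-anti-nilpotent when for every finite set `J` that
generates an ideal with radical the maximal ideal, the local cohomology modules
`H^i_m(R) = H^i(J)` are all anti-nilpotent. -/
def FAntiNilpotent (R : Type) [CommRing R] [IsLocalRing R] : Prop :=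
  ∀ J : Finset R, (Ideal.span (J : Set R)).radical = IsLocalRing.maximalIdeal R →
    ∀ i : ℕ, AntiNilpotent J i

end Q36.FA
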