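import Mathlib
import Pool.Agent.Q36.FA.Def

/-! Cech cochains of a domain through a field containing it. -/

open Classical

namespace Q36.FA

section Emb

variable {R : Type} [CommRing R] [IsDomain R] {E : Type} [Field E] (ι : R →+* E)

/-- The elements of the field that come from the localisation attached to `S`. -/
def VV (S : Finset R) : Set E := {e | ∃ r : R, ∃ n : ℕ, e * ι (∏ a ∈ S, a) ^ n = ι r}

variable {ι} (hι : Function.Injective ι)
include hι

lemma prod_ne {S : Finset R} (h : (0 : R) ∉ S) : ι (∏ a ∈ S, a) ≠ 0 := by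
  rw [Ne, map_eq_zero_iff ι hι, Finset.prod_eq_zero_iff]
  rintro ⟨a, ha, rfl⟩
  exact h ha

/-- The embedding of a localisation in the field. -/
noncomputable def embH (S : Finset R) (h : (0 : R) ∉ S) : Loc S →+* E :=
  IsLocalization.Away.lift (∏ a ∈ S, a) (prod_ne hι h).isUnit

lemma embH_algebraMap (S : Finset R) (h : (0 : R) ∉ S) (r : R) :
    embH hι S h (algebraMap R (Loc S) r) = ι r :=
  IsLocalization.Away.lift_eq _ _ _

lemma embH_mem (S : Finset R) (h : (0 : R) ∉ S) (u : Loc S) : embH hι S h u ∈ VV ι S := by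
  obtain ⟨n, r, hr⟩ := IsLocalization.Away.surj (∏ a ∈ S, a) u
  refine ⟨r, n, ?_⟩
  rw [← embH_algebraMap hι S h, ← map_pow, ← map_mul, hr, embH_algebraMap]

lemma embH_inj (S : Finset R) (h : (0 : R) ∉ S) : Function.Injective (embH hι S h) := by
  rw [injective_iff_map_eq_zero]
  intro u hu
  obtain ⟨n, r, hr⟩ := IsLocalization.Away.surj (∏ a ∈ S, a) u
  have h1 : ι r = 0 := by
    rw [← embH_algebraMap hι S h, ← hr, map_mul, hu, zero_mul]
  rw [map_eq_zero_iff ι hι] at h1
  rw [h1, map_zero] at hr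
  have h2 : IsUnit ((algebraMap R (Loc S) (∏ a ∈ S, a)) ^ n) :=
    (IsLocalization.Away.algebraMap_isUnit _).pow n
  exact (h2.mul_left_eq_zero).1 hr

lemma embH_surj (S : Finset R) (h : (0 : R) ∉ S) {e : E} (he : e ∈ VV ι S) :
    ∃ u, embH hι S h u = e := by
  obtain ⟨r, n, hr⟩ := he
  have h2 : IsUnit ((algebraMap R (Loc S) (∏ a ∈ S, a)) ^ n) :=
    (IsLocalization.Away.algebraMap_isUnit _).pow n
  obtain ⟨v, hv⟩ := h2.exists_right_inv
  refine ⟨algebraMap R (Loc S) r * v, ?_⟩
  have h3 := congrArg (embH hι S h) hv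
  rw [map_mul, map_pow, embH_algebraMap, map_one] at h3
  rw [map_mul, embH_algebraMap, ← hr, mul_assoc, h3, mul_one]

lemma embH_res {S T : Finset R} (h : S ⊆ T) (hT : (0 : R) ∉ T) (u : Loc S) :
    embH hι T hT (res h u) = embH hι S (fun h0 => hT (h h0)) u := by
  have : (embH hι T hT).comp (res h) = embH hι S (fun h0 => hT (h h0)) := by
    apply IsLocalization.ringHom_ext (Submonoid.powers (∏ a ∈ S, a))
    ext r
    simp only [RingHom.comp_apply, res_algebraMap, embH_algebraMap]
  rw [← this]; rfl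

/-- The value of a cochain in the field. -/
noncomputable def val (c : Cochain R) (S : Finset R) : E :=
  if h : (0 : R) ∉ S then embH hι S h (c S) else 0

lemma val_eq (c : Cochain R) {S : Finset R} (h : (0 : R) ∉ S) :
    val hι c S = embH hι S h (c S) := dif_pos h

lemma val_add (c c' : Cochain R) (S : Finset R) :
    val hι (c + c') S = val hι c S + val hι c' S := by
  unfold val; split_ifs <;> simp

lemma val_smul (r : R) (c : Cochain R) (S : Finset R) :
    val hι (r • c) S = ι r * val hι c S := by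
  by_cases h : (0 : R) ∈ S
  · unfold val; simp [h]
  · rw [val_eq hι _ h, val_eq hι _ h, Pi.smul_apply, Algebra.smul_def, map_mul, embH_algebraMap]

lemma val_sq (c : Cochain R) (S : Finset R) : val hι (c ^ 2) S = val hι c S ^ 2 := by
  unfold val; split_ifs <;> simp

lemma val_mem (c : Cochain R) {S : Finset R} (h : (0 : R) ∉ S) : val hι c S ∈ VV ι S := by
  rw [val_eq hι c h]; exact embH_mem hι S h _

lemma val_inj {c c' : Cochain R} {S : Finset R} (h : (0 : R) ∉ S)
    (he : val hι c S = val hι c' S) : c S = c' S := by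
  rw [val_eq hι c h, val_eq hι c' h] at he
  exact embH_inj hι S h he

lemma val_diff (c : Cochain R) {S : Finset R} (h : (0 : R) ∉ S) :
    val hι (diff c) S = ∑ a ∈ S, val hι c (S.erase a) := by
  rw [val_eq hι _ h, diff_apply, map_sum]
  refine Finset.sum_congr rfl fun a ha => ?_
  rw [embH_res hι _ h, val_eq]

lemma exists_cochain (β : Finset R → E) : ∃ b : Cochain R, ∀ S, (0 : R) ∉ S → β S ∈ VV ι S →
    val hι b S = β S := by
  refine ⟨fun S => if h : (0 : R) ∉ S ∧ β S ∈ VV ι S then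
    (embH_surj hι S h.1 h.2).choose else 0, fun S h0 hS => ?_⟩
  rw [val_eq hι _ h0, dif_pos ⟨h0, hS⟩]
  exact (embH_surj hι S h0 hS).choose_spec

end Emb

section Three

variable {R : Type} {s t y : R}

lemma card3 (hst : s ≠ t) (hsy : s ≠ y) (hty : t ≠ y) : ({s, t, y} : Finset R).card = 3 := by
  rw [Finset.card_insert_of_notMem (by simp [hst, hsy]), Finset.card_pair hty]

lemma pc0 (J : Finset R) (S : Finset R) (hS : S ∈ J.powersetCard 0) : S = ∅ := by
  simpa using hS

lemma pc1 (S : Finset R) (hS : S ∈ ({s, t, y} : Finset R).powersetCard 1) :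
    S = {s} ∨ S = {t} ∨ S = {y} := by
  obtain ⟨h1, h2⟩ := Finset.mem_powersetCard.1 hS
  obtain ⟨a, rfl⟩ := Finset.card_eq_one.1 h2
  have : a ∈ ({s, t, y} : Finset R) := h1 (Finset.mem_singleton_self a)
  simp only [Finset.mem_insert, Finset.mem_singleton] at this
  rcases this with rfl | rfl | rfl <;> simp

lemma pc2 (hst : s ≠ t) (hsy : s ≠ y) (hty : t ≠ y) (S : Finset R)
    (hS : S ∈ ({s, t, y} : Finset R).powersetCard 2) :
    S = {s, t} ∨ S = {s, y} ∨ S = {t, y} := by
  obtain ⟨h1, h2⟩ := Finset.mem_powersetCard.1 hS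
  obtain ⟨a, b, hab, rfl⟩ := Finset.card_eq_two.1 h2
  have ha : a ∈ ({s, t, y} : Finset R) := h1 (by simp)
  have hb : b ∈ ({s, t, y} : Finset R) := h1 (by simp)
  simp only [Finset.mem_insert, Finset.mem_singleton] at ha hb
  rcases ha with rfl | rfl | rfl <;> rcases hb with rfl | rfl | rfl <;>
    first
      | exact absurd rfl hab
      | exact Or.inl rfl
      | exact Or.inr (Or.inl rfl)
      | exact Or.inr (Or.inr rfl)
      | exact Or.inl (Finset.pair_comm _ _)
      | exact Or.inr (Or.inl (Finset.pair_comm _ _))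
      | exact Or.inr (Or.inr (Finset.pair_comm _ _))

lemma pc3 (hst : s ≠ t) (hsy : s ≠ y) (hty : t ≠ y) (S : Finset R)
    (hS : S ∈ ({s, t, y} : Finset R).powersetCard 3) : S = {s, t, y} := by
  obtain ⟨h1, h2⟩ := Finset.mem_powersetCard.1 hS
  exact Finset.eq_of_subset_of_card_le h1 (by rw [h2, card3 hst hsy hty])

end Three

section Low

variable {R : Type} [CommRing R] [IsDomain R] {E : Type} [Field E] {ι : R →+* E}
  (hι : Function.Injective ι) {s t y : R}

lemma val_single (c : Cochain R) {a : R} (ha : a ≠ 0) :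
    val hι (diff c) {a} = val hι c ∅ := by
  rw [val_diff hι c (by simpa using ha.symm), Finset.sum_singleton, Finset.erase_singleton]

lemma val_pair (c : Cochain R) {a b : R} (hab : a ≠ b) (ha : a ≠ 0) (hb : b ≠ 0) :
    val hι (diff c) {a, b} = val hι c {b} + val hι c {a} := by
  rw [val_diff hι c (by simp [ha.symm, hb.symm]), Finset.sum_pair hab,
    Finset.erase_insert (by simpa using hab), Finset.pair_comm,
    Finset.erase_insert (by simpa using hab.symm)]

lemma val_triple (c : Cochain R) (hst : s ≠ t) (hsy : s ≠ y) (hty : t ≠ y) (hs : s ≠ 0)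
    (ht : t ≠ 0) (hy : y ≠ 0) : val hι (diff c) {s, t, y} =
      val hι c {t, y} + (val hι c {s, y} + val hι c {s, t}) := by
  have e1 : ({s, t, y} : Finset R).erase s = {t, y} :=
    Finset.erase_insert (by simp [hst, hsy])
  have e2 : ({s, t, y} : Finset R).erase t = {s, y} := by
    ext a; simp only [Finset.mem_erase, Finset.mem_insert, Finset.mem_singleton]
    constructor
    · rintro ⟨h1, h2 | h2 | h2⟩
      · exact Or.inl h2
      · exact absurd h2 h1
      · exact Or.inr h2
    · rintro (rfl | rfl)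
      · exact ⟨hst, Or.inl rfl⟩
      · exact ⟨hty.symm, Or.inr (Or.inr rfl)⟩
  have e3 : ({s, t, y} : Finset R).erase y = {s, t} := by
    ext a; simp only [Finset.mem_erase, Finset.mem_insert, Finset.mem_singleton]
    constructor
    · rintro ⟨h1, h2 | h2 | h2⟩
      · exact Or.inl h2
      · exact Or.inr h2
      · exact absurd h2 h1
    · rintro (rfl | rfl)
      · exact ⟨hsy, Or.inl rfl⟩
      · exact ⟨hty, Or.inr (Or.inl rfl)⟩
  rw [val_diff hι c (by simp [hs.symm, ht.symm, hy.symm]),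
    Finset.sum_insert (by simp [hst, hsy]), Finset.sum_pair hty, e1, e2, e3]

/-- The regularity used for the vanishing of the lower cohomology. -/
structure Reg (s t y : R) : Prop where
  hst : s ≠ t
  hsy : s ≠ y
  hty : t ≠ y
  hs : s ≠ 0
  ht : t ≠ 0
  hy : y ≠ 0
  r2 : ∀ (n : ℕ) (a b : R), t ^ n * a = s ^ n * b → ∃ c, a = s ^ n * c
  r3 : ∀ (n : ℕ) (a b c : R), y ^ n * a = s ^ n * b + t ^ n * c →
    ∃ b' c', a = s ^ n * b' + t ^ n * c'

variable [CharP E 2]

omit [IsDomain R] [CharP E 2] in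
lemma VV_level {S : Finset R} {e : E} (he : e ∈ VV ι S) (m : ℕ) :
    ∃ n, m ≤ n ∧ ∃ r : R, e * ι (∏ a ∈ S, a) ^ n = ι r := by
  obtain ⟨r, n, hr⟩ := he
  refine ⟨n + m, Nat.le_add_left _ _, r * (∏ a ∈ S, a) ^ m, ?_⟩
  rw [pow_add, ← mul_assoc, hr, map_mul, map_pow]

omit [IsDomain R] [CharP E 2] in
lemma VV_mono_level' {S : Finset R} {e : E} {n : ℕ} {r : R}
    (h : e * ι (∏ a ∈ S, a) ^ n = ι r) (m : ℕ) (hm : n ≤ m) :
    ∃ r : R, e * ι (∏ a ∈ S, a) ^ m = ι r := by
  obtain ⟨k, rfl⟩ := Nat.exists_eq_add_of_le hm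
  exact ⟨r * (∏ a ∈ S, a) ^ k, by rw [pow_add, ← mul_assoc, h, map_mul, map_pow]⟩

omit [CharP E 2] in
include hι in
theorem low0 (h : Reg s t y) : cocycles ({s, t, y} : Finset R) 0 ≤
    coboundaries ({s, t, y} : Finset R) 0 := by
  intro c hc
  refine ⟨0, fun S hS => ?_⟩
  rw [pc0 _ S hS]
  have h1 := hc {s} (by simp [Finset.mem_powersetCard])
  have h2 : val hι (diff c) {s} = 0 := by
    rw [val_eq hι _ (by simpa using h.hs.symm), h1, map_zero]
  rw [val_single hι c h.hs] at h2
  apply val_inj hι (by simp)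
  rw [h2, map_zero]
  unfold val
  simp

include hι in
theorem low1 (h : Reg s t y) : cocycles ({s, t, y} : Finset R) 1 ≤
    coboundaries ({s, t, y} : Finset R) 1 := by
  intro c hc
  have key : ∀ a b, a ≠ b → a ≠ 0 → b ≠ 0 → ({a, b} : Finset R) ⊆ {s, t, y} →
      val hι c {a} = val hι c {b} := by
    intro a b hab ha hb hsub
    have h1 := hc {a, b} (Finset.mem_powersetCard.2 ⟨hsub, Finset.card_pair hab⟩)
    have h2 : val hι (diff c) {a, b} = 0 := by
      rw [val_eq hι _ (by simp [ha.symm, hb.symm]), h1, map_zero]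
    rw [val_pair hι c hab ha hb] at h2
    have := CharTwo.add_self_eq_zero (val hι c {b})
    linear_combination h2 - this
  have k1 := key s t h.hst h.hs h.ht (by intro x; simp; tauto)
  have k2 := key s y h.hsy h.hs h.hy (by intro x; simp; tauto)
  have m1 := val_mem hι c (S := {s}) (by simpa using h.hs.symm)
  have m2 := val_mem hι c (S := {t}) (by simpa using h.ht.symm)
  rw [← k1] at m2
  have hs' : ι s ≠ 0 := by rw [Ne, map_eq_zero_iff ι hι]; exact h.hs
  have hmem : val hι c {s} ∈ VV ι ∅ := by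
    obtain ⟨a, n, ha⟩ := m1
    obtain ⟨m, hm, b, hb⟩ := VV_level m2 n
    obtain ⟨a, ha⟩ := VV_mono_level' ha m hm
    rw [Finset.prod_singleton] at ha hb
    have e1 : t ^ m * a = s ^ m * b := by
      apply hι
      rw [map_mul, map_mul, ← ha, ← hb, map_pow, map_pow]
      ring
    obtain ⟨r, hr⟩ := h.r2 m a b e1
    refine ⟨r, 0, ?_⟩
    rw [pow_zero, mul_one]
    rw [hr, map_mul, map_pow, mul_comm] at ha
    exact mul_left_cancel₀ (pow_ne_zero m hs') ha
  obtain ⟨b, hb⟩ := exists_cochain hι (fun _ => val hι c {s})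
  have hb0 := hb ∅ (by simp) hmem
  refine ⟨b, fun S hS => ?_⟩
  have key2 : ∀ a, a ≠ 0 → val hι c {s} = val hι c {a} → c {a} = diff b {a} := by
    intro a ha hv
    refine val_inj hι (by simpa using ha.symm) ?_
    rw [val_single hι b ha, hb0, hv]
  rcases pc1 S hS with rfl | rfl | rfl
  · exact key2 _ h.hs rfl
  · exact key2 _ h.ht k1
  · exact key2 _ h.hy k2

include hι in
theorem low2 (h : Reg s t y) : cocycles ({s, t, y} : Finset R) 2 ≤
    coboundaries ({s, t, y} : Finset R) 2 := by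
  intro c hc
  have hs' : ι s ≠ 0 := by rw [Ne, map_eq_zero_iff ι hι]; exact h.hs
  have ht' : ι t ≠ 0 := by rw [Ne, map_eq_zero_iff ι hι]; exact h.ht
  have hy' : ι y ≠ 0 := by rw [Ne, map_eq_zero_iff ι hι]; exact h.hy
  have h1 := hc {s, t, y} (Finset.mem_powersetCard.2 ⟨subset_rfl, card3 h.hst h.hsy h.hty⟩)
  have h2 : val hι (diff c) {s, t, y} = 0 := by
    rw [val_eq hι _ (by simp [h.hs.symm, h.ht.symm, h.hy.symm]), h1, map_zero]
  rw [val_triple hι c h.hst h.hsy h.hty h.hs h.ht h.hy] at h2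
  have m1 := val_mem hι c (S := {s, t}) (by simp [h.hs.symm, h.ht.symm])
  have m2 := val_mem hι c (S := {s, y}) (by simp [h.hs.symm, h.hy.symm])
  have m3 := val_mem hι c (S := {t, y}) (by simp [h.ht.symm, h.hy.symm])
  obtain ⟨n1, -, a, ha⟩ := VV_level m1 0
  obtain ⟨n2, hn2, b, hb⟩ := VV_level m2 n1
  obtain ⟨n, hn3, d, hd⟩ := VV_level m3 n2
  obtain ⟨b, hb⟩ := VV_mono_level' hb n hn3
  obtain ⟨a, ha⟩ := VV_mono_level' ha n (hn2.trans hn3)
  rw [Finset.prod_pair h.hst] at ha
  rw [Finset.prod_pair h.hsy] at hb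
  rw [Finset.prod_pair h.hty] at hd
  set e1 := val hι c {s, t} with he1
  set e2 := val hι c {s, y} with he2
  set e3 := val hι c {t, y} with he3
  have two : (2 : E) = 0 := CharTwo.two_eq_zero
  simp only [map_mul, mul_pow] at ha hb hd
  have k1 : y ^ n * a = s ^ n * d + t ^ n * b := by
    apply hι
    rw [map_add, map_mul, map_mul, map_mul, ← ha, ← hb, ← hd, map_pow, map_pow, map_pow]
    linear_combination (ι s ^ n * ι t ^ n * ι y ^ n) * h2 -
      (ι s ^ n * ι t ^ n * ι y ^ n) * (e2 + e3) * two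
  obtain ⟨α, β, hαβ⟩ := h.r3 n a d b k1
  have k2 : t ^ n * (b - β * y ^ n) = s ^ n * (α * y ^ n - d) := by
    linear_combination (y ^ n) * hαβ - k1
  obtain ⟨γ, hγ⟩ := h.r2 n _ _ k2
  have k3 : α * y ^ n - d = t ^ n * γ := by
    apply hι
    have := congrArg ι k2
    rw [hγ] at this
    simp only [map_mul, map_sub, map_pow] at this ⊢
    have hs2 := pow_ne_zero n hs'
    apply mul_left_cancel₀ hs2
    linear_combination -this
  -- the one-cochain
  let f : Finset R → E := fun S =>
    if S = {s} then ι β / ι s ^ n else if S = {t} then ι α / ι t ^ n else ι γ / ι y ^ n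
  obtain ⟨w, hw⟩ := exists_cochain hι f
  have f1 : f {s} = ι β / ι s ^ n := if_pos rfl
  have f2 : f {t} = ι α / ι t ^ n :=
    (if_neg (by simpa using h.hst.symm)).trans (if_pos rfl)
  have f3 : f {y} = ι γ / ι y ^ n :=
    (if_neg (by simpa using h.hsy.symm)).trans (if_neg (by simpa using h.hty.symm))
  have w1 : val hι w {s} = ι β / ι s ^ n := by
    rw [hw {s} (by simpa using h.hs.symm) ⟨β, n, by
      rw [f1, Finset.prod_singleton]; field_simp⟩, f1]
  have w2 : val hι w {t} = ι α / ι t ^ n := by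
    rw [hw {t} (by simpa using h.ht.symm) ⟨α, n, by
      rw [f2, Finset.prod_singleton]; field_simp⟩, f2]
  have w3 : val hι w {y} = ι γ / ι y ^ n := by
    rw [hw {y} (by simpa using h.hy.symm) ⟨γ, n, by
      rw [f3, Finset.prod_singleton]; field_simp⟩, f3]
  have E1 := congrArg ι hαβ
  have E2 := congrArg ι hγ
  have E3 := congrArg ι k3
  simp only [map_mul, map_sub, map_add, map_pow] at E1 E2 E3
  refine ⟨w, fun S hS => ?_⟩
  rcases pc2 h.hst h.hsy h.hty S hS with rfl | rfl | rfl
  · refine val_inj hι (by simp [h.hs.symm, h.ht.symm]) ?_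
    rw [val_pair hι w h.hst h.hs h.ht, w1, w2, ← he1]
    field_simp
    linear_combination ha + E1
  · refine val_inj hι (by simp [h.hs.symm, h.hy.symm]) ?_
    rw [val_pair hι w h.hsy h.hs h.hy, w1, w3, ← he2]
    field_simp
    linear_combination hb + E2
  · refine val_inj hι (by simp [h.ht.symm, h.hy.symm]) ?_
    rw [val_pair hι w h.hty h.ht h.hy, w2, w3, ← he3]
    field_simp
    linear_combination hd - E3 - (ι t ^ n * ι γ) * two

omit [IsDomain R] in
theorem high (hst : s ≠ t) (hsy : s ≠ y) (hty : t ≠ y) (i : ℕ) (hi : 4 ≤ i) :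
    cocycles ({s, t, y} : Finset R) i ≤ coboundaries ({s, t, y} : Finset R) i := by
  intro c _
  refine ⟨0, fun S hS => ?_⟩
  have h1 := Finset.card_le_card (Finset.mem_powersetCard.1 hS).1
  rw [(Finset.mem_powersetCard.1 hS).2, card3 hst hsy hty] at h1
  omega

end Low

end Q36.FA
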