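import Mathlib

/-! Fractions with three denominators. -/

open Classical

namespace Q36.FA

section

variable {A E : Type} [CommRing A] [Field E] [CharP E 2] (al : A →+* E) (x1 x2 x3 : A)

/-- Fractions with denominators powers of `x1 x2`, `x1 x3`, `x2 x3`. -/
def Q (U : AddSubgroup A) (n : ℕ) (e : E) : Prop :=
  ∃ u ∈ U, ∃ v w : A, e * (al x1 * al x2 * al x3) ^ n =
    al (u * x3 ^ n + v * x2 ^ n + w * x1 ^ n)

variable {al x1 x2 x3}

omit [CharP E 2] in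
lemma Q_add {U : AddSubgroup A} {n : ℕ} {e e' : E} (h : Q al x1 x2 x3 U n e)
    (h' : Q al x1 x2 x3 U n e') : Q al x1 x2 x3 U n (e + e') := by
  obtain ⟨u, hu, v, w, h⟩ := h
  obtain ⟨u', hu', v', w', h'⟩ := h'
  refine ⟨u + u', add_mem hu hu', v + v', w + w', ?_⟩
  rw [add_mul, h, h', ← map_add]
  congr 1
  ring

omit [CharP E 2] in
lemma Q_up {U : AddSubgroup A} (hU : ∀ u ∈ U, u * (x1 * x2) ∈ U) {n : ℕ} {e : E}
    (h : Q al x1 x2 x3 U n e) (k : ℕ) : Q al x1 x2 x3 U (n + k) e := by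
  induction k with
  | zero => exact h
  | succ k ih =>
    obtain ⟨u, hu, v, w, h⟩ := ih
    refine ⟨u * (x1 * x2), hU u hu, v * (x1 * x3), w * (x2 * x3), ?_⟩
    rw [← add_assoc, pow_succ, ← mul_assoc, h, ← map_mul, ← map_mul, ← map_mul]
    congr 1
    ring

lemma Q_closure {U : AddSubgroup A} (hU : ∀ u ∈ U, u * (x1 * x2) ∈ U) (S : Set E)
    (hS : ∀ e ∈ S, ∃ n, Q al x1 x2 x3 U n e) (e : E) (he : e ∈ AddSubgroup.closure S) :
    ∃ n, Q al x1 x2 x3 U n e := by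
  refine AddSubgroup.closure_induction (p := fun e _ => ∃ n, Q al x1 x2 x3 U n e) hS
    ⟨0, 0, zero_mem _, 0, 0, by simp⟩ ?_ ?_ he
  · rintro x y - - ⟨n, hn⟩ ⟨m, hm⟩
    refine ⟨n + m, Q_add (Q_up hU hn m) ?_⟩
    rw [add_comm]
    exact Q_up hU hm n
  · rintro x - hx
    rwa [CharTwo.neg_eq]

end

lemma exists_level (a b c : ℤ) : ∃ n A B D : ℕ, a + n = A ∧ b + n = B ∧ c + n = D := by
  refine ⟨a.natAbs + b.natAbs + c.natAbs, (a + (a.natAbs + b.natAbs + c.natAbs : ℕ)).toNat,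
    (b + (a.natAbs + b.natAbs + c.natAbs : ℕ)).toNat,
    (c + (a.natAbs + b.natAbs + c.natAbs : ℕ)).toNat, ?_, ?_, ?_⟩ <;> omega

end Q36.FA
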