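import Mathlib
import Pool.Agent.Q36.FA.Emb

/-! Transfer of regularity to the localisation at a prime ideal. -/

open Classical

namespace Q36.FA

section

variable {A L : Type} [CommRing A] [CommRing L] [Algebra A L]
  (m : Ideal A) [m.IsPrime] [IsLocalization.AtPrime L m]

include m in
lemma gden (a : L) : ∃ u : A, u ∉ m ∧ ∃ a0 : A, a * algebraMap A L u = algebraMap A L a0 := by
  obtain ⟨⟨a0, u⟩, h⟩ := IsLocalization.surj m.primeCompl a
  exact ⟨u, u.2, a0, h⟩

omit [IsLocalization.AtPrime L m] in
lemma gmul {u v : A} (hu : u ∉ m) (hv : v ∉ m) : u * v ∉ m :=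
  fun h => (Ideal.IsPrime.mem_or_mem inferInstance h).elim hu hv

lemma gunit {u : A} (hu : u ∉ m) : ∃ w : L, algebraMap A L u * w = 1 :=
  (IsLocalization.map_units L (⟨u, hu⟩ : m.primeCompl)).exists_right_inv

include m in
theorem Reg.loc {s t y : A} (h : Reg s t y)
    (hinj : Function.Injective (algebraMap A L)) :
    Reg (algebraMap A L s) (algebraMap A L t) (algebraMap A L y) where
  hst e := h.hst (hinj e)
  hsy e := h.hsy (hinj e)
  hty e := h.hty (hinj e)
  hs e := h.hs (hinj (e.trans (map_zero _).symm))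
  ht e := h.ht (hinj (e.trans (map_zero _).symm))
  hy e := h.hy (hinj (e.trans (map_zero _).symm))
  r2 n a b e := by
    obtain ⟨u, hu, a0, ha⟩ := gden m a
    obtain ⟨v, hv, b0, hb⟩ := gden m b
    have h1 : t ^ n * (a0 * v) = s ^ n * (b0 * u) := by
      apply hinj
      simp only [map_mul, map_pow]
      rw [← ha, ← hb]
      linear_combination (algebraMap A L u * algebraMap A L v) * e
    obtain ⟨c, hc⟩ := h.r2 n _ _ h1
    obtain ⟨w, hw⟩ := gunit (L := L) m (gmul m hu hv)
    refine ⟨algebraMap A L c * w, ?_⟩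
    have h3 := congrArg (algebraMap A L) hc
    simp only [map_mul, map_pow] at h3 hw
    linear_combination w * h3 - a * hw + w * algebraMap A L v * ha
  r3 n a b c e := by
    obtain ⟨u, hu, a0, ha⟩ := gden m a
    obtain ⟨v, hv, b0, hb⟩ := gden m b
    obtain ⟨v', hv', c0, hc⟩ := gden m c
    have h1 : y ^ n * (a0 * (v * v')) = s ^ n * (b0 * (u * v')) + t ^ n * (c0 * (u * v)) := by
      apply hinj
      simp only [map_mul, map_pow, map_add]
      rw [← ha, ← hb, ← hc]
      linear_combination (algebraMap A L u * algebraMap A L v * algebraMap A L v') * e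
    obtain ⟨b', c', he⟩ := h.r3 n _ _ _ h1
    obtain ⟨w, hw⟩ := gunit (L := L) m (gmul m hu (gmul m hv hv'))
    refine ⟨algebraMap A L b' * w, algebraMap A L c' * w, ?_⟩
    have h3 := congrArg (algebraMap A L) he
    simp only [map_mul, map_pow, map_add] at h3 hw
    linear_combination w * h3 - a * hw +
      w * algebraMap A L v * algebraMap A L v' * ha

/-- A finite set generates the maximal ideal of the localisation up to radical when the squares
of the elements of the prime ideal are in the ideal it generates. -/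
theorem radical_loc [IsLocalRing L] (J : Finset A) (hJ : ∀ a ∈ J, a ∈ m)
    (hsq : ∀ f ∈ m, f ^ 2 ∈ Ideal.span (J : Set A)) :
    (Ideal.span ((J.image (algebraMap A L) : Finset L) : Set L)).radical =
      IsLocalRing.maximalIdeal L := by
  apply le_antisymm
  · rw [(IsLocalRing.maximalIdeal.isMaximal L).isPrime.radical_le_iff, Ideal.span_le]
    intro x hx
    obtain ⟨a, ha, rfl⟩ := Finset.mem_image.1 (Finset.mem_coe.1 hx)
    exact (IsLocalization.AtPrime.to_map_mem_maximal_iff L m a).2 (hJ a ha)
  · intro x hx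
    obtain ⟨u, hu, x0, h⟩ := gden m x
    have hx0 : x0 ∈ m := by
      rw [← IsLocalization.AtPrime.to_map_mem_maximal_iff L m x0, ← h]
      exact Ideal.mul_mem_right _ _ hx
    have h1 := Ideal.mem_map_of_mem (algebraMap A L) (hsq x0 hx0)
    rw [Ideal.map_span] at h1
    refine ⟨2, ?_⟩
    obtain ⟨w, hw⟩ := gunit (L := L) m hu
    have h2 : x ^ 2 = w ^ 2 * algebraMap A L (x0 ^ 2) := by
      rw [map_pow, ← h]
      linear_combination (-x ^ 2 * (algebraMap A L u * w + 1)) * hw
    rw [h2, Finset.coe_image]
    exact Ideal.mul_mem_left _ _ h1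

end

end Q36.FA
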