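import Mathlib

/-! Subgroups of a field of Laurent series stable under squaring. -/

open Classical

namespace Q36.FA

open HahnSeries

section

variable {F : Type} [Field F] (K O : Subring F)

/-- All coefficients are in `O`. -/
def isU (e : HahnSeries ℤ F) : Prop := ∀ n, e.coeff n ∈ O
/-- No negative powers. -/
def isW (e : HahnSeries ℤ F) : Prop := ∀ n < 0, e.coeff n = 0
/-- Only positive powers. -/
def isI (e : HahnSeries ℤ F) : Prop := ∀ n ≤ 0, e.coeff n = 0

variable {K O}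

lemma isU_mul {x y : HahnSeries ℤ F} (hx : isU O x) (hy : isU O y) : isU O (x * y) := by
  intro n
  rw [HahnSeries.coeff_mul]
  exact sum_mem fun ij _ => mul_mem (hx _) (hy _)

lemma isI_mul {x y : HahnSeries ℤ F} (hx : isI x) (hy : isW y) : isI (x * y) := by
  intro n hn
  rw [HahnSeries.coeff_mul]
  refine Finset.sum_eq_zero fun ij hij => ?_
  have h := (Finset.mem_antidiagonal.1 hij).2.2
  rcases le_or_gt ij.1 0 with h1 | h1
  · rw [hx _ h1, zero_mul]
  · rw [hy _ (by omega), mul_zero]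

lemma isI_isW {x : HahnSeries ℤ F} (hx : isI x) : isW x := fun n hn => hx n hn.le

lemma isU_C {o : F} (ho : o ∈ O) : isU O (C o : HahnSeries ℤ F) := by
  intro n
  rw [HahnSeries.C_apply, HahnSeries.coeff_single]
  split_ifs
  · exact ho
  · exact zero_mem _

lemma isW_C (o : F) : isW (C o : HahnSeries ℤ F) := by
  intro n hn
  rw [HahnSeries.C_apply, HahnSeries.coeff_single_of_ne hn.ne]

lemma C_coeff_zero (o : F) : (C o : HahnSeries ℤ F).coeff 0 = o := by
  rw [HahnSeries.C_apply, HahnSeries.coeff_single_same]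

variable (K O) in
/-- The stable subgroup. -/
def NN : AddSubgroup (HahnSeries ℤ F) where
  carrier := {e | ∃ k ∈ K, ∃ u, isU O u ∧ ∃ i, isI i ∧ e = C k + u + i}
  zero_mem' := ⟨0, zero_mem _, 0, fun n => by simp, 0, fun n _ => by simp, by simp⟩
  add_mem' := by
    rintro _ _ ⟨k, hk, u, hu, i, hi, rfl⟩ ⟨k', hk', u', hu', i', hi', rfl⟩
    refine ⟨k + k', add_mem hk hk', u + u', fun n => ?_, i + i', fun n hn => ?_, ?_⟩
    · rw [HahnSeries.coeff_add]; exact add_mem (hu n) (hu' n)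
    · rw [HahnSeries.coeff_add, hi n hn, hi' n hn, add_zero]
    · rw [map_add]; ring
  neg_mem' := by
    rintro _ ⟨k, hk, u, hu, i, hi, rfl⟩
    refine ⟨-k, neg_mem hk, -u, fun n => ?_, -i, fun n hn => ?_, ?_⟩
    · rw [HahnSeries.coeff_neg]; exact neg_mem (hu n)
    · rw [HahnSeries.coeff_neg, hi n hn, neg_zero]
    · rw [map_neg]; ring

lemma NN_coeff {e : HahnSeries ℤ F} (he : e ∈ NN K O) :
    ∃ k ∈ K, ∃ o ∈ O, e.coeff 0 = k + o := by
  obtain ⟨k, hk, u, hu, i, hi, rfl⟩ := he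
  refine ⟨k, hk, u.coeff 0, hu 0, ?_⟩
  rw [HahnSeries.coeff_add, HahnSeries.coeff_add, hi 0 le_rfl, add_zero, C_coeff_zero]

lemma NN_C {k : F} (hk : k ∈ K) : (C k : HahnSeries ℤ F) ∈ NN K O :=
  ⟨k, hk, 0, fun n => by simp, 0, fun n _ => by simp, by simp⟩

lemma NN_U {u : HahnSeries ℤ F} (hu : isU O u) : u ∈ NN K O :=
  ⟨0, zero_mem _, u, hu, 0, fun n _ => by simp, by simp⟩

lemma NN_I {i : HahnSeries ℤ F} (hi : isI i) : i ∈ NN K O :=
  ⟨0, zero_mem _, 0, fun n => by simp, i, hi, by simp⟩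

lemma sub_isI {r : HahnSeries ℤ F} (hr : isW r) : isI (r - C (r.coeff 0)) := by
  intro n hn
  rw [HahnSeries.coeff_sub]
  rcases eq_or_lt_of_le hn with rfl | h
  · rw [C_coeff_zero, sub_self]
  · rw [hr n h, isW_C _ n h, sub_zero]

lemma NN_mul {r e : HahnSeries ℤ F} (hU : isU O r) (hW : isW r) (hK : r.coeff 0 ∈ K)
    (he : e ∈ NN K O) : r * e ∈ NN K O := by
  obtain ⟨k, hk, u, hu, i, hi, rfl⟩ := he
  have h1 : r * (C k + u + i) = C (r.coeff 0 * k) + (r - C (r.coeff 0)) * C k + r * u +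
      i * r := by
    rw [map_mul]; ring
  rw [h1]
  exact add_mem (add_mem (add_mem (NN_C (mul_mem hK hk)) (NN_I (isI_mul (sub_isI hW) (isW_C k))))
    (NN_U (isU_mul hU hu))) (NN_I (isI_mul hi hW))

lemma NN_sq [CharP F 2] {e : HahnSeries ℤ F} (he : e ∈ NN K O) : e ^ 2 ∈ NN K O := by
  have hc : CharP (HahnSeries ℤ F) 2 := charP_of_injective_ringHom
    (f := (HahnSeries.C : F →+* HahnSeries ℤ F)) HahnSeries.C_injective 2
  obtain ⟨k, hk, u, hu, i, hi, rfl⟩ := he
  rw [CharTwo.add_sq, CharTwo.add_sq, ← map_pow]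
  refine add_mem (add_mem (NN_C (pow_mem hk 2)) (NN_U ?_)) (NN_I ?_)
  · rw [pow_two]; exact isU_mul hu hu
  · rw [pow_two]; exact isI_mul hi (isI_isW hi)

/-- Division of a good element by an element of `K`. -/
lemma NN_divC {r : HahnSeries ℤ F} (hW : isW r) {k : F} (hK : r.coeff 0 * k ∈ K) :
    r * C k ∈ NN K O := by
  have h1 : r * C k = C (r.coeff 0 * k) + (r - C (r.coeff 0)) * C k := by
    rw [map_mul]; ring
  rw [h1]
  exact add_mem (NN_C hK) (NN_I (isI_mul (sub_isI hW) (isW_C k)))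

lemma NN_of_single {e r : HahnSeries ℤ F} {n : ℕ} (h : e * (single (1 : ℤ) (1 : F)) ^ n = r)
    (hr : isU O r) : e ∈ NN K O := by
  have h1 : e = r * (single (-(1 : ℤ)) (1 : F)) ^ n := by
    rw [← h, mul_assoc, ← mul_pow, HahnSeries.single_mul_single]
    simp
  rw [h1]
  refine NN_U (isU_mul hr ?_)
  rw [HahnSeries.single_pow]
  intro m
  rw [HahnSeries.coeff_single]
  split_ifs
  · rw [one_pow]; exact one_mem _
  · exact zero_mem _

lemma NN_of_C {e r : HahnSeries ℤ F} {n : ℕ} {k : F} (hk : k ≠ 0) (h : e * (C k) ^ n = r)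
    (hW : isW r) (hK : r.coeff 0 * (k ^ n)⁻¹ ∈ K) : e ∈ NN K O := by
  have h1 : e = r * C ((k ^ n)⁻¹) := by
    rw [← h, mul_assoc, ← map_pow, ← map_mul, mul_inv_cancel₀ (pow_ne_zero n hk), map_one, mul_one]
  rw [h1]
  exact NN_divC hW hK

lemma C_div_mul {a b : F} (hb : b ≠ 0) :
    (C (a / b) : HahnSeries ℤ F) * (C b * single (1 : ℤ) (1 : F)) =
      single (1 : ℤ) (1 : F) * C a := by
  rw [← mul_assoc, ← map_mul, div_mul_cancel₀ _ hb, mul_comm]

end

end Q36.FA
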