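import Mathlib
import Pool.Agent.Q36.FA.Def

/-! Independence of the local cohomology, with its Frobenius action, of the chosen elements. -/

open Classical

namespace Q36.FA

section

variable {R : Type} [CommRing R]

lemma res_res {S T U : Finset R} (h1 : S ⊆ T) (h2 : T ⊆ U) (u : Loc S) :
    res h2 (res h1 u) = res (h1.trans h2) u := by
  have : (res h2).comp (res h1) = res (h1.trans h2) := by
    apply IsLocalization.ringHom_ext (Submonoid.powers (∏ a ∈ S, a))
    ext r
    simp only [RingHom.comp_apply, res_algebraMap]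
  exact RingHom.congr_fun this u

lemma res_refl {S : Finset R} (h : S ⊆ S) (u : Loc S) : res h u = u := by
  have : (res h) = RingHom.id (Loc S) := by
    apply IsLocalization.ringHom_ext (Submonoid.powers (∏ a ∈ S, a))
    ext r
    simp only [RingHom.comp_apply, res_algebraMap, RingHom.id_apply]
  exact RingHom.congr_fun this u

lemma res_congr (c : Cochain R) {U U' T : Finset R} (e : U = U') (h : U ⊆ T) (h' : U' ⊆ T) :
    res h (c U) = res h' (c U') := by
  subst e; rfl

lemma isUnit_mem {S : Finset R} {a : R} (ha : a ∈ S) : IsUnit (algebraMap R (Loc S) a) :=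
  isUnit_of_dvd_unit (map_dvd _ (Finset.dvd_prod_of_mem _ ha)) (isUnit_prod (subset_refl S))

/-- Every element of a larger localisation comes from a smaller one after multiplication. -/
lemma frac_surj {U T : Finset R} (h : U ⊆ T) {a : R} (hp : ∏ x ∈ T, x = a * ∏ x ∈ U, x) (u : Loc T) :
    ∃ (M : ℕ) (v : Loc U), res h v = a ^ M • u := by
  obtain ⟨n, r, hr⟩ := IsLocalization.Away.surj (∏ x ∈ T, x) u
  have h1 : IsUnit ((algebraMap R (Loc U) (∏ x ∈ U, x)) ^ n) := (isUnit_prod subset_rfl).pow n
  obtain ⟨w, hw⟩ := h1.exists_right_inv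
  refine ⟨n, algebraMap R (Loc U) r * w, ?_⟩
  have h2 : IsUnit ((algebraMap R (Loc T) (∏ x ∈ U, x)) ^ n) := (isUnit_prod h).pow n
  have h3 := congrArg (res h) hw
  rw [map_mul, map_pow, res_algebraMap, map_one] at h3
  have e : algebraMap R (Loc T) (∏ x ∈ T, x) =
      algebraMap R (Loc T) a * algebraMap R (Loc T) (∏ x ∈ U, x) := by
    have := congrArg (algebraMap R (Loc T)) hp
    rwa [map_mul] at this
  replace hr : u * (algebraMap R (Loc T) a * algebraMap R (Loc T) (∏ x ∈ U, x)) ^ n =
      algebraMap R (Loc T) r := by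
    rw [← e]; exact hr
  apply h2.mul_right_cancel
  rw [map_mul, res_algebraMap, Algebra.smul_def, map_pow, ← hr]
  linear_combination (u * (algebraMap R (Loc T) a * algebraMap R (Loc T) (∏ x ∈ U, x)) ^ n) * h3

/-- Elements that vanish in a larger localisation are killed by a power. -/
lemma frac_kill {U T : Finset R} (h : U ⊆ T) {a : R} (hp : ∏ x ∈ T, x = a * ∏ x ∈ U, x) (u : Loc U)
    (hu : res h u = 0) : ∃ k : ℕ, a ^ k • u = 0 := by
  obtain ⟨n, r, hr⟩ := IsLocalization.Away.surj (∏ x ∈ U, x) u
  have h1 := congrArg (res h) hr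
  rw [map_mul, hu, zero_mul, res_algebraMap, eq_comm] at h1
  obtain ⟨⟨_, k, rfl⟩, hk⟩ := (IsLocalization.map_eq_zero_iff
    (Submonoid.powers (∏ x ∈ T, x)) (Loc T) r).1 h1
  change (∏ x ∈ T, x) ^ k * r = 0 at hk
  refine ⟨k, ?_⟩
  have h2 : IsUnit ((algebraMap R (Loc U) (∏ x ∈ U, x)) ^ (k + n)) :=
    (isUnit_prod subset_rfl).pow _
  apply h2.mul_right_cancel
  rw [hp] at hk
  have h3 := congrArg (algebraMap R (Loc U)) hk
  simp only [map_mul, map_pow, map_zero] at h3
  rw [Algebra.smul_def, map_pow, zero_mul]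
  linear_combination (algebraMap R (Loc U) a ^ k * algebraMap R (Loc U) (∏ x ∈ U, x) ^ k) * hr + h3

variable (y : R)

/-- The part of a cochain on the sets without `y`. -/
noncomputable def cut (c : Cochain R) : Cochain R := fun S => if y ∈ S then 0 else c S

lemma exists_inv (K : ℕ) (S : Finset R) : ∃ w : Loc S, y ∈ S →
    algebraMap R (Loc S) (y ^ K) * w = 1 := by
  by_cases h : y ∈ S
  · have h1 : IsUnit (algebraMap R (Loc S) (y ^ K)) := by
      rw [map_pow]; exact (isUnit_mem h).pow K
    obtain ⟨w, hw⟩ := h1.exists_right_inv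
    exact ⟨w, fun _ => hw⟩
  · exact ⟨0, fun h' => absurd h' h⟩

noncomputable def iv (K : ℕ) (S : Finset R) : Loc S := (exists_inv y K S).choose

lemma iv_spec (K : ℕ) {S : Finset R} (h : y ∈ S) :
    algebraMap R (Loc S) (y ^ K) * iv y K S = 1 := (exists_inv y K S).choose_spec h

lemma res_iv (K : ℕ) {S T : Finset R} (h : S ⊆ T) (hS : y ∈ S) :
    res h (iv y K S) = iv y K T := by
  have h1 := congrArg (res h) (iv_spec y K hS)
  rw [map_mul, res_algebraMap, map_one] at h1
  have h2 := iv_spec y K (h hS)
  linear_combination iv y K T * h1 - res h (iv y K S) * h2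

/-- Extension of a cochain to the sets with `y`, divided by a power of `y`. -/
noncomputable def ext (K : ℕ) (v : Cochain R) : Cochain R := fun S =>
  if y ∈ S then iv y K S * res (S.erase_subset y) (v (S.erase y)) else 0

variable {y}

lemma diff_cut_notMem (c : Cochain R) {S : Finset R} (h : y ∉ S) :
    diff (cut y c) S = diff c S := by
  rw [diff_apply, diff_apply]
  refine Finset.sum_congr rfl fun a _ => ?_
  rw [cut, if_neg (fun h' => h (Finset.mem_of_mem_erase h'))]

lemma diff_cut_mem (c : Cochain R) {S : Finset R} (h : y ∈ S) :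
    diff (cut y c) S = res (S.erase_subset y) (c (S.erase y)) := by
  rw [diff_apply, ← Finset.add_sum_erase S _ h]
  rw [Finset.sum_eq_zero, add_zero, cut, if_neg (Finset.notMem_erase y S)]
  intro a ha
  have hne := (Finset.mem_erase.1 ha).1
  rw [cut, if_pos (Finset.mem_erase.2 ⟨hne.symm, h⟩), map_zero]

lemma diff_ext_notMem (K : ℕ) (v : Cochain R) {S : Finset R} (h : y ∉ S) :
    diff (ext y K v) S = 0 := by
  rw [diff_apply]
  refine Finset.sum_eq_zero fun a _ => ?_
  rw [ext, if_neg (fun h' => h (Finset.mem_of_mem_erase h')), map_zero]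

lemma diff_ext_mem (K : ℕ) (v : Cochain R) {S : Finset R} (h : y ∈ S) :
    diff (ext y K v) S = iv y K S * res (S.erase_subset y) (diff v (S.erase y)) := by
  rw [diff_apply, ← Finset.add_sum_erase S _ h]
  rw [show ext y K v (S.erase y) = 0 from if_neg (Finset.notMem_erase y S), map_zero, zero_add,
    diff_apply, map_sum, Finset.mul_sum]
  refine Finset.sum_congr rfl fun a ha => ?_
  have hne := (Finset.mem_erase.1 ha).1
  have hy : y ∈ S.erase a := Finset.mem_erase.2 ⟨hne.symm, h⟩
  rw [ext, if_pos hy, map_mul, res_iv y K _ hy, res_res, res_res]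
  congr 1
  exact res_congr v Finset.erase_right_comm _ _

/-- Common denominators. -/
lemma lift_all (z : Cochain R) (J : Finset R) : ∃ (M : ℕ) (w : Cochain R),
    (∀ U, y ∈ U → w U = 0) ∧ ∀ U ⊆ J, y ∉ U → ∀ (T : Finset R) (_ : T = insert y U) (h : U ⊆ T),
      res h (w U) = y ^ M • z T := by
  have key : ∀ U : Finset R, ∃ (M : ℕ) (v : Loc U), y ∉ U → ∀ (T : Finset R)
      (_ : T = insert y U) (h : U ⊆ T), res h v = y ^ M • z T := by
    intro U
    by_cases hU : y ∈ U
    · exact ⟨0, 0, fun h => absurd hU h⟩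
    · obtain ⟨M, v, hv⟩ := frac_surj (Finset.subset_insert y U) (Finset.prod_insert hU)
        (z (insert y U))
      refine ⟨M, v, fun _ T hT h => ?_⟩
      subst hT
      exact hv
  choose M v hv using key
  refine ⟨J.powerset.sup M, fun U => if y ∈ U then 0 else y ^ (J.powerset.sup M - M U) • v U,
    fun U hU => if_pos hU, fun U hU hy T hT h => ?_⟩
  have hle : M U ≤ J.powerset.sup M := Finset.le_sup (Finset.mem_powerset.2 hU)
  simp only [if_neg hy]
  rw [res_smul, hv U hy T hT h, smul_smul, ← pow_add, Nat.sub_add_cancel hle]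

lemma kill_all (c : Cochain R) (J : Finset R) (P : Finset R → Prop)
    (hc : ∀ S ⊆ J, y ∉ S → P S → res (Finset.subset_insert y S) (c S) = 0) :
    ∃ k : ℕ, ∀ S ⊆ J, y ∉ S → P S → y ^ k • c S = 0 := by
  have key : ∀ S : Finset R, ∃ k : ℕ, S ⊆ J → y ∉ S → P S → y ^ k • c S = 0 := by
    intro S
    by_cases h : S ⊆ J ∧ y ∉ S ∧ P S
    · obtain ⟨k, hk⟩ := frac_kill (Finset.subset_insert y S) (Finset.prod_insert h.2.1) (c S)
        (hc S h.1 h.2.1 h.2.2)
      exact ⟨k, fun _ _ _ => hk⟩
    · exact ⟨0, fun h1 h2 h3 => absurd ⟨h1, h2, h3⟩ h⟩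
  choose k hk using key
  refine ⟨J.powerset.sup k, fun S h1 h2 h3 => ?_⟩
  have hle : k S ≤ J.powerset.sup k := Finset.le_sup (Finset.mem_powerset.2 h1)
  rw [← Nat.sub_add_cancel hle, pow_add, mul_smul, hk S h1 h2 h3, smul_zero]

variable [CharP R 2]

lemma two_smul_zero {S : Finset R} (u : Loc S) : u + u = 0 := by
  have h2 : (2 : R) = 0 := CharTwo.two_eq_zero
  have h3 : (2 : Loc S) = 0 := by
    have := congrArg (algebraMap R (Loc S)) h2
    rwa [map_ofNat, map_zero] at this
  linear_combination u * h3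

lemma diff_diff (b : Cochain R) (T : Finset R) : diff (diff b) T = 0 := by
  rw [diff_apply]
  simp only [diff_apply, map_sum, res_res]
  rw [Finset.sum_sigma']
  refine Finset.sum_involution (fun x _ => ⟨x.2, x.1⟩) ?_ ?_ ?_ ?_
  · rintro ⟨l, m⟩ hx
    simp only [Finset.mem_sigma, Finset.mem_erase] at hx
    have : res (((T.erase m).erase_subset l).trans (T.erase_subset m)) (b ((T.erase m).erase l)) =
        res (((T.erase l).erase_subset m).trans (T.erase_subset l)) (b ((T.erase l).erase m)) :=
      res_congr b Finset.erase_right_comm _ _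
    simp only
    rw [this]
    exact two_smul_zero _
  · rintro ⟨l, m⟩ hx _ heq
    simp only [Finset.mem_sigma, Finset.mem_erase] at hx
    have : m = l := congrArg Sigma.fst heq
    exact hx.2.1 this
  · rintro ⟨l, m⟩ hx
    simp only [Finset.mem_sigma, Finset.mem_erase] at hx ⊢
    exact ⟨hx.2.2, fun h => hx.2.1 h.symm, hx.1⟩
  · rintro ⟨l, m⟩ _
    rfl

lemma cob_le_coc (J : Finset R) (i : ℕ) : coboundaries J i ≤ cocycles J i := by
  rintro c ⟨b, hb⟩ T hT
  have h1 : diff c T = diff (diff b) T := by
    rw [diff_apply, diff_apply]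
    refine Finset.sum_congr rfl fun a ha => ?_
    rw [hb (T.erase a)]
    obtain ⟨h1, h2⟩ := Finset.mem_powersetCard.1 hT
    exact Finset.mem_powersetCard.2 ⟨(T.erase_subset a).trans h1, by
      rw [Finset.card_erase_of_mem ha, h2]; rfl⟩
  rw [h1, diff_diff]

lemma sq_add' {S : Finset R} (u v : Loc S) : (u + v) ^ 2 = u ^ 2 + v ^ 2 := by
  linear_combination two_smul_zero (u * v)

lemma sq_sum' {S : Finset R} {ι : Type} (F : Finset ι) (f : ι → Loc S) :
    (∑ x ∈ F, f x) ^ 2 = ∑ x ∈ F, f x ^ 2 := by
  induction F using Finset.induction_on with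
  | empty => simp
  | insert a F ha ih => rw [Finset.sum_insert ha, Finset.sum_insert ha, sq_add', ih]

lemma diff_sq (b : Cochain R) (S : Finset R) : diff (b ^ 2) S = (diff b S) ^ 2 := by
  rw [diff_apply, diff_apply, sq_sum']
  simp only [Pi.pow_apply, map_pow]

lemma cob_sq (J : Finset R) (i : ℕ) {c : Cochain R} (hc : c ∈ coboundaries J i) :
    c ^ 2 ∈ coboundaries J i := by
  obtain ⟨b, hb⟩ := hc
  exact ⟨b ^ 2, fun S hS => by rw [Pi.pow_apply, hb S hS, diff_sq]⟩

lemma coc_sq (J : Finset R) (i : ℕ) {c : Cochain R} (hc : c ∈ cocycles J i) :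
    c ^ 2 ∈ cocycles J i := fun T hT => by
  rw [diff_sq, hc T hT]; simp

/-- The cohomology is killed by powers of each of the elements. -/
lemma torsion_mem {J : Finset R} {i : ℕ} {z : Cochain R} (hz : z ∈ cocycles J i) (hy : y ∈ J) :
    ∃ k : ℕ, y ^ k • z ∈ coboundaries J i := by
  obtain ⟨M, w, hw0, hw⟩ := lift_all (y := y) z J
  have hsub : ∀ S ⊆ J, insert y S ⊆ J := fun S hS => Finset.insert_subset hy hS
  have key : ∃ k : ℕ, ∀ S ⊆ J, y ∉ S → S.card = i →
      y ^ k • (diff w - y ^ M • z) S = 0 := by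
    refine kill_all (diff w - y ^ M • z) J (fun S => S.card = i) (fun S hS hyS hcard => ?_)
    have hT : insert y S ∈ J.powersetCard (i + 1) := Finset.mem_powersetCard.2
      ⟨hsub S hS, by rw [Finset.card_insert_of_notMem hyS, hcard]⟩
    have h1 := hz _ hT
    rw [diff_apply, Finset.sum_insert hyS] at h1
    have h2 : res (Finset.subset_insert y S) (diff w S) =
        ∑ l ∈ S, y ^ M • res ((insert y S).erase_subset l) (z ((insert y S).erase l)) := by
      rw [diff_apply, map_sum]
      refine Finset.sum_congr rfl fun l hl => ?_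
      have hne : y ≠ l := fun e => hyS (e ▸ hl)
      have e1 : (insert y S).erase l = insert y (S.erase l) := by
        rw [Finset.erase_insert_of_ne hne]
      have hs : S.erase l ⊆ (insert y S).erase l := by rw [e1]; exact Finset.subset_insert _ _
      have h3 := hw (S.erase l) ((S.erase_subset l).trans hS)
        (fun h => hyS (Finset.mem_of_mem_erase h)) ((insert y S).erase l) e1 hs
      rw [res_res, ← res_smul, ← h3, res_res]
    have h4 : res ((insert y S).erase_subset y) (z ((insert y S).erase y)) =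
        res (Finset.subset_insert y S) (z S) :=
      res_congr z (Finset.erase_insert hyS) _ _
    rw [h4] at h1
    rw [Pi.sub_apply, Pi.smul_apply, map_sub, res_smul, h2, ← Finset.smul_sum]
    have h5 := two_smul_zero (res (Finset.subset_insert y S) (z S))
    rw [← smul_sub]
    have h6 : (∑ l ∈ S, res ((insert y S).erase_subset l) (z ((insert y S).erase l))) -
        res (Finset.subset_insert y S) (z S) = 0 := by
      linear_combination h1 - h5
    rw [h6, smul_zero]
  obtain ⟨k, hk⟩ := key
  refine ⟨k + M, y ^ k • w, fun S hS => ?_⟩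
  obtain ⟨h1, h2⟩ := Finset.mem_powersetCard.1 hS
  rw [map_smul, Pi.smul_apply, Pi.smul_apply, pow_add, mul_smul]
  by_cases hyS : y ∈ S
  · congr 1
    rw [diff_apply, ← Finset.add_sum_erase S _ hyS, Finset.sum_eq_zero, add_zero]
    · exact (hw (S.erase y) ((S.erase_subset y).trans h1) (Finset.notMem_erase y S) S
        (Finset.insert_erase hyS).symm (S.erase_subset y)).symm
    · intro a ha
      have hne := (Finset.mem_erase.1 ha).1
      rw [hw0 _ (Finset.mem_erase.2 ⟨hne.symm, hyS⟩), map_zero]
  · have h3 := hk S h1 hyS h2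
    rw [Pi.sub_apply, Pi.smul_apply, smul_sub, sub_eq_zero] at h3
    exact h3.symm

lemma torsion {J : Finset R} {i : ℕ} {z : Cochain R} (hz : z ∈ cocycles J i)
    (hy : y ∈ (Ideal.span (J : Set R)).radical) : ∃ k : ℕ, y ^ k • z ∈ coboundaries J i := by
  let I : Ideal R :=
    { carrier := {r | r • z ∈ coboundaries J i}
      zero_mem' := by
        show (0 : R) • z ∈ coboundaries J i
        rw [zero_smul]; exact zero_mem _
      add_mem' := fun {a b} ha hb => by
        show (a + b) • z ∈ coboundaries J i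
        rw [add_smul]; exact add_mem ha hb
      smul_mem' := fun c a ha => by
        show (c • a) • z ∈ coboundaries J i
        rw [smul_assoc]; exact Submodule.smul_mem _ _ ha }
  have h1 : (Ideal.span (J : Set R)).radical ≤ I.radical := by
    rw [← Ideal.radical_idem I]
    apply Ideal.radical_mono
    rw [Ideal.span_le]
    intro a ha
    exact torsion_mem hz ha
  exact h1 hy

variable {J : Finset R}

set_option linter.unusedSectionVars false

lemma coc_insert (i : ℕ) : cocycles (insert y J) i ≤ cocycles J i := fun c hc T hT =>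
  hc T (Finset.powersetCard_mono (Finset.subset_insert y J) hT)

lemma cob_insert (i : ℕ) : coboundaries (insert y J) i ≤ coboundaries J i := by
  rintro c ⟨b, hb⟩
  exact ⟨b, fun S hS => hb S (Finset.powersetCard_mono (Finset.subset_insert y J) hS)⟩

lemma mem_pc {S : Finset R} {i : ℕ} (hS : S ∈ (insert y J).powersetCard i) (hy : y ∉ S) :
    S ∈ J.powersetCard i := by
  obtain ⟨h1, h2⟩ := Finset.mem_powersetCard.1 hS
  exact Finset.mem_powersetCard.2 ⟨(Finset.subset_insert_iff_of_notMem hy).1 h1, h2⟩

lemma mem_pc_erase {S : Finset R} {i : ℕ} (hS : S ∈ (insert y J).powersetCard (i + 1))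
    (hy : y ∈ S) : S.erase y ∈ J.powersetCard i := by
  obtain ⟨h1, h2⟩ := Finset.mem_powersetCard.1 hS
  refine Finset.mem_powersetCard.2 ⟨Finset.subset_insert_iff.1 h1, ?_⟩
  rw [Finset.card_erase_of_mem hy, h2]; rfl

lemma notMem_pc (hyJ : y ∉ J) {S : Finset R} {i : ℕ} (hS : S ∈ J.powersetCard i) : y ∉ S :=
  fun h => hyJ ((Finset.mem_powersetCard.1 hS).1 h)

/-- Surjectivity on cohomology. -/
lemma surj_insert (hyJ : y ∉ J) (hy : y ∈ (Ideal.span (J : Set R)).radical) {i : ℕ}
    {z : Cochain R} (hz : z ∈ cocycles J i) :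
    ∃ z' ∈ cocycles (insert y J) i, z' - z ∈ coboundaries J i := by
  obtain ⟨k, b, hb⟩ := torsion hz hy
  refine ⟨ext y k b + cut y z, fun T hT => ?_, 0, fun S hS => ?_⟩
  · rw [map_add, Pi.add_apply]
    by_cases h : y ∈ T
    · have hT' := mem_pc_erase hT h
      rw [diff_ext_mem k b h, diff_cut_mem z h, ← hb _ hT', Pi.smul_apply, res_smul,
        Algebra.smul_def, ← mul_assoc, mul_comm (iv y k T), iv_spec y k h, one_mul]
      exact two_smul_zero _
    · rw [diff_ext_notMem k b h, diff_cut_notMem z h, hz T (mem_pc hT h), add_zero]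
  · have h := notMem_pc hyJ hS
    rw [map_zero, Pi.sub_apply, Pi.add_apply, ext, if_neg h, cut, if_neg h]
    simp

/-- Injectivity on cohomology. -/
lemma inj_insert (hyJ : y ∉ J) (hy : y ∈ (Ideal.span (J : Set R)).radical) {i : ℕ}
    {z : Cochain R} (hz : z ∈ cocycles (insert y J) i) (hz' : z ∈ coboundaries J i) :
    z ∈ coboundaries (insert y J) i := by
  obtain ⟨b, hb⟩ := hz'
  rcases i with _ | i
  · refine ⟨b, fun S hS => ?_⟩
    have : S = ∅ := by simpa using hS
    subst this
    exact hb ∅ (by simp)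
  have hD : diff (cut y b) ∈ coboundaries (insert y J) (i + 1) := ⟨cut y b, fun _ _ => rfl⟩
  suffices h : z - diff (cut y b) ∈ coboundaries (insert y J) (i + 1) by
    have := add_mem h hD
    rwa [sub_add_cancel] at this
  have hz1 : z - diff (cut y b) ∈ cocycles (insert y J) (i + 1) :=
    sub_mem hz (cob_le_coc _ _ hD)
  have hzero : ∀ S ∈ J.powersetCard (i + 1), (z - diff (cut y b)) S = 0 := by
    intro S hS
    rw [Pi.sub_apply, diff_cut_notMem b (notMem_pc hyJ hS), hb S hS, sub_self]
  generalize z - diff (cut y b) = z1 at hz1 hzero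
  obtain ⟨M, w, hw0, hw⟩ := lift_all (y := y) z1 J
  have key : ∃ k : ℕ, ∀ S ⊆ J, y ∉ S → S.card = i + 1 → y ^ k • diff w S = 0 := by
    refine kill_all (diff w) J (fun S => S.card = i + 1) (fun S hS hyS hcard => ?_)
    have hT : insert y S ∈ (insert y J).powersetCard (i + 1 + 1) := Finset.mem_powersetCard.2
      ⟨Finset.insert_subset_insert y hS, by rw [Finset.card_insert_of_notMem hyS, hcard]⟩
    have h1 := hz1 _ hT
    rw [diff_apply, Finset.sum_insert hyS] at h1
    have h2 : res (Finset.subset_insert y S) (diff w S) =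
        ∑ l ∈ S, y ^ M • res ((insert y S).erase_subset l) (z1 ((insert y S).erase l)) := by
      rw [diff_apply, map_sum]
      refine Finset.sum_congr rfl fun l hl => ?_
      have hne : y ≠ l := fun e => hyS (e ▸ hl)
      have e1 : (insert y S).erase l = insert y (S.erase l) := by
        rw [Finset.erase_insert_of_ne hne]
      have hs : S.erase l ⊆ (insert y S).erase l := by rw [e1]; exact Finset.subset_insert _ _
      have h3 := hw (S.erase l) ((S.erase_subset l).trans hS)
        (fun h => hyS (Finset.mem_of_mem_erase h)) ((insert y S).erase l) e1 hs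
      rw [res_res, ← res_smul, ← h3, res_res]
    have h4 : res ((insert y S).erase_subset y) (z1 ((insert y S).erase y)) =
        res (Finset.subset_insert y S) (z1 S) :=
      res_congr z1 (Finset.erase_insert hyS) _ _
    rw [h4, hzero S (Finset.mem_powersetCard.2 ⟨hS, hcard⟩), map_zero, zero_add] at h1
    rw [h2, ← Finset.smul_sum, h1, smul_zero]
  obtain ⟨k, hk⟩ := key
  have hw1 : y ^ k • w ∈ cocycles J i := by
    intro S hS
    obtain ⟨h1, h2⟩ := Finset.mem_powersetCard.1 hS
    rw [map_smul, Pi.smul_apply]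
    exact hk S h1 (notMem_pc hyJ hS) h2
  obtain ⟨L, v, hv⟩ := torsion hw1 hy
  refine ⟨ext y (L + k + M) v, fun S hS => ?_⟩
  by_cases h : y ∈ S
  · have hS' := mem_pc_erase hS h
    have h1 := hv _ hS'
    have h2 := hw (S.erase y) (Finset.mem_powersetCard.1 hS').1 (Finset.notMem_erase y S) S
      (Finset.insert_erase h).symm (S.erase_subset y)
    rw [diff_ext_mem _ v h, ← h1, Pi.smul_apply, Pi.smul_apply, smul_smul, ← pow_add, res_smul,
      h2, smul_smul, ← pow_add, Algebra.smul_def, ← mul_assoc, mul_comm (iv y _ S),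
      iv_spec y _ h, one_mul]
  · rw [diff_ext_notMem _ v h, hzero S (mem_pc hS h)]

/-- Adding an element of the radical does not change anti-nilpotency. -/
theorem anti_insert (hyJ : y ∉ J) (hy : y ∈ (Ideal.span (J : Set R)).radical) (i : ℕ) :
    AntiNilpotent (insert y J) i ↔ AntiNilpotent J i := by
  constructor
  · intro h N hB hZ hF z hz hz2
    obtain ⟨z', hz', hb⟩ := surj_insert hyJ hy hz
    have h1 := h (N ⊓ cocycles (insert y J) i)
      (le_inf ((cob_insert i).trans hB) (cob_le_coc _ _)) inf_le_right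
      (fun c hc => ⟨hF c hc.1, coc_sq _ _ hc.2⟩) z' hz' ⟨?_, coc_sq _ _ hz'⟩
    · have := sub_mem h1.1 (hB hb)
      rwa [sub_sub_cancel] at this
    · have e : z' ^ 2 = z ^ 2 + (z' - z) ^ 2 := by
        funext S
        have h2 := sq_add' (z S) (z' S - z S)
        rw [add_sub_cancel] at h2
        exact h2
      rw [e]
      exact add_mem hz2 (hB (cob_sq _ _ hb))
  · intro h N hB hZ hF z hz hz2
    have h1 := h (N ⊔ coboundaries J i) le_sup_right
      (sup_le (hZ.trans (coc_insert i)) (cob_le_coc _ _)) (fun c hc => ?_) z (coc_insert i hz)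
      (Submodule.mem_sup_left hz2)
    · obtain ⟨n, hn, b, hb, rfl⟩ := Submodule.mem_sup.1 h1
      have h2 : b ∈ cocycles (insert y J) i := by
        have := sub_mem hz (hZ hn)
        rwa [add_sub_cancel_left] at this
      exact add_mem hn (hB (inj_insert hyJ hy h2 hb))
    · obtain ⟨n, hn, b, hb, rfl⟩ := Submodule.mem_sup.1 hc
      have e : (n + b) ^ 2 = n ^ 2 + b ^ 2 := by
        funext S
        exact sq_add' (n S) (b S)
      rw [e]
      exact add_mem (Submodule.mem_sup_left (hF n hn)) (Submodule.mem_sup_right (cob_sq _ _ hb))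

lemma anti_union (J K : Finset R) (hK : ∀ a ∈ K, a ∈ (Ideal.span (J : Set R)).radical) (i : ℕ) :
    AntiNilpotent (J ∪ K) i ↔ AntiNilpotent J i := by
  induction K using Finset.induction_on with
  | empty => rw [Finset.union_empty]
  | insert a K ha ih =>
    have ih' := ih (fun b hb => hK b (Finset.mem_insert_of_mem hb))
    rw [Finset.union_insert]
    by_cases h : a ∈ J ∪ K
    · rw [Finset.insert_eq_of_mem h]; exact ih'
    · rw [anti_insert h _ i]
      · exact ih'
      · refine Ideal.radical_mono (Ideal.span_mono ?_) (hK a (Finset.mem_insert_self a K))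
        exact_mod_cast Finset.subset_union_left

/-- Independence of the choice of the elements. -/
theorem anti_indep (J K : Finset R)
    (h : (Ideal.span (J : Set R)).radical = (Ideal.span (K : Set R)).radical) (i : ℕ) :
    AntiNilpotent J i ↔ AntiNilpotent K i := by
  rw [← anti_union J K (fun a ha => h ▸ Ideal.le_radical (Ideal.subset_span ha)) i,
    Finset.union_comm, anti_union K J
      (fun a ha => h ▸ Ideal.le_radical (Ideal.subset_span ha)) i]

end

end Q36.FA
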