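import Mathlib
import Pool.Agent.Q36.FA.Cr

/-! The graded ring: polynomials in `s, z, y` whose restriction to `y = 0` is a polynomial
in `s` and `t = z^5 + s z^2`. -/

open Classical

namespace Q36.FA

open Polynomial

/-- Polynomials in `s`, `z`, `y`. -/
abbrev AA := Polynomial CR

/-- The polynomials in `s, z, y` whose restriction to `y = 0` is a polynomial in `s, t`. -/
noncomputable def R0 : Subalgebra ℤ AA where
  carrier := {f | f.coeff 0 ∈ BR}
  mul_mem' {f g} hf hg := by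
    have : (f * g).coeff 0 = f.coeff 0 * g.coeff 0 := mul_coeff_zero f g
    show (f * g).coeff 0 ∈ BR
    rw [this]
    exact mul_mem hf hg
  add_mem' {f g} hf hg := by
    show (f + g).coeff 0 ∈ BR
    rw [coeff_add]
    exact add_mem hf hg
  algebraMap_mem' r := by
    show (algebraMap ℤ AA r).coeff 0 ∈ BR
    have h1 : (algebraMap ℤ AA r) = C (r : CR) := by simp
    rw [h1, coeff_C_zero]
    exact intCast_mem _ _

lemma mem_R0 (f : AA) : f ∈ R0 ↔ f.coeff 0 ∈ BR := Iff.rfl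

lemma C_mem (b : CR) (hb : b ∈ BR) : (C b : AA) ∈ R0 := by rw [mem_R0, coeff_C_zero]; exact hb

lemma X_mul_mem (f : AA) : X * f ∈ R0 := by
  rw [mem_R0, coeff_X_mul_zero]; exact zero_mem _

lemma X_mem' : (X : AA) ∈ R0 := by simpa using X_mul_mem 1

/-- A finite set of generators. -/
noncomputable def gens : Set AA :=
  {C sR, C tR, X * 1, X * C zR, X * C (zR ^ 2), X * C (zR ^ 3), X * C (zR ^ 4)}

lemma adj_B (b : CR) (hb : b ∈ BR) : (C b : AA) ∈ Algebra.adjoin ℤ gens := by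
  refine BR_ind (fun b => (C b : AA) ∈ Algebra.adjoin ℤ gens) ?_ (fun a b ha hb => ?_)
    (fun n m => ?_) b hb
  · rw [C_0]; exact zero_mem _
  · rw [C_add]; exact add_mem ha hb
  · rw [C_mul, C_pow, C_pow]
    exact mul_mem (pow_mem (Algebra.subset_adjoin (by simp [gens])) _)
      (pow_mem (Algebra.subset_adjoin (by simp [gens])) _)

lemma z_rel (m : ℕ) : zR ^ (m + 5) = tR * zR ^ m + sR * zR ^ (m + 2) := by
  rw [pow_add, relR]; ring

lemma adj_yz (m : ℕ) : (X * C (zR ^ m) : AA) ∈ Algebra.adjoin ℤ gens := by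
  induction m using Nat.strong_induction_on with
  | _ m ih =>
    rcases Nat.lt_or_ge m 5 with hm | hm
    · refine Algebra.subset_adjoin ?_
      interval_cases m <;> simp [gens]
    · obtain ⟨k, rfl⟩ := Nat.exists_eq_add_of_le' hm
      rw [z_rel, C_add, C_mul, C_mul, mul_add]
      refine add_mem ?_ ?_
      · rw [mul_left_comm]
        exact mul_mem (adj_B _ tR_mem) (ih k (by omega))
      · rw [mul_left_comm]
        exact mul_mem (adj_B _ sR_mem) (ih (k + 2) (by omega))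

lemma adj_y (f : AA) : X * f ∈ Algebra.adjoin ℤ gens := by
  induction f using Polynomial.induction_on' with
  | add p q hp hq => rw [mul_add]; exact add_mem hp hq
  | monomial n a =>
    have key : ∀ a : CR, (X * C a : AA) ∈ Algebra.adjoin ℤ gens := by
      intro a
      refine CR_ind (fun a => (X * C a : AA) ∈ Algebra.adjoin ℤ gens) ?_ (fun a b ha hb => ?_)
        (fun n m => ?_) a
      · rw [C_0, mul_zero]; exact zero_mem _
      · rw [C_add, mul_add]; exact add_mem ha hb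
      · rw [C_mul, mul_left_comm]
        exact mul_mem (adj_B _ (pow_mem sR_mem n)) (adj_yz m)
    rw [← C_mul_X_pow_eq_monomial, ← mul_assoc]
    refine mul_mem (key a) (pow_mem ?_ _)
    simpa using key 1

lemma R0_eq : R0 = Algebra.adjoin ℤ gens := by
  apply le_antisymm
  · intro f hf
    rw [← divX_mul_X_add f, mul_comm]
    exact add_mem (adj_y _) (adj_B _ hf)
  · rw [Algebra.adjoin_le_iff]
    intro f hf
    simp only [gens, Set.mem_insert_iff, Set.mem_singleton_iff] at hf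
    rcases hf with rfl | rfl | rfl | rfl | rfl | rfl | rfl
    · exact C_mem _ sR_mem
    · exact C_mem _ tR_mem
    all_goals exact X_mul_mem _

lemma gens_finite : gens.Finite := by
  unfold gens
  exact Set.toFinite _

lemma R0_noeth : IsNoetherianRing R0 := by
  refine isNoetherianRing_of_fg ?_
  rw [R0_eq]
  have := Subalgebra.fg_adjoin_finset (R := ℤ) gens_finite.toFinset
  rwa [gens_finite.coe_toFinset] at this

lemma R0_domain : IsDomain R0 := inferInstance

lemma two_R0 : (2 : R0) = 0 := by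
  apply Subtype.ext
  show (2 : AA) = 0
  exact CharTwo.two_eq_zero

noncomputable def s0 : R0 := ⟨C sR, C_mem _ sR_mem⟩
noncomputable def t0 : R0 := ⟨C tR, C_mem _ tR_mem⟩
noncomputable def y0 : R0 := ⟨X, X_mem'⟩
noncomputable def yz0 (j : ℕ) : R0 := ⟨X * C (zR ^ j), X_mul_mem _⟩

lemma prime_s : Prime (C sR : AA) := by
  rw [prime_C_iff]
  exact prime_sR

lemma s_not_dvd_t : ¬ (C sR : AA) ∣ C tR := by
  rw [C_dvd_iff_dvd_coeff]
  intro h
  have h1 := h 0
  rw [coeff_C_zero] at h1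
  exact sR_not_dvd_tR h1

/-- Regularity of the pair `s, t`. -/
lemma reg2 (n : ℕ) (a b : AA) (ha : a ∈ R0) (h : (C tR) ^ n * a = (C sR) ^ n * b) :
    ∃ c ∈ R0, a = (C sR) ^ n * c := by
  have h1 : (C sR : AA) ^ n ∣ (C tR) ^ n * a := ⟨b, h⟩
  obtain ⟨c, hc⟩ := prime_s.pow_dvd_of_dvd_mul_left n
    (fun h' => s_not_dvd_t (prime_s.dvd_of_dvd_pow h')) h1
  refine ⟨c, ?_, hc⟩
  rw [mem_R0] at ha ⊢
  rw [hc, mul_coeff_zero, ← C_pow, coeff_C_zero] at ha
  exact cancelR n _ ha

lemma exists_shift (b : AA) (n : ℕ) : ∃ b' : AA, ∀ k, b'.coeff k = b.coeff (k + n) := by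
  induction n with
  | zero => exact ⟨b, fun k => rfl⟩
  | succ n ih =>
    obtain ⟨b', hb'⟩ := ih
    refine ⟨divX b', fun k => ?_⟩
    rw [coeff_divX, hb']
    congr 1
    ring

/-- Regularity of `y` modulo powers of `s, t`. -/
lemma reg3 (n : ℕ) (a b c : AA) (ha : a ∈ R0)
    (h : X ^ n * a = (C sR) ^ n * b + (C tR) ^ n * c) :
    ∃ b' ∈ R0, ∃ c' ∈ R0, a = (C sR) ^ n * b' + (C tR) ^ n * c' := by
  obtain ⟨b1, hb1⟩ := exists_shift b n
  obtain ⟨c1, hc1⟩ := exists_shift c n
  have h1 : a = (C sR) ^ n * b1 + (C tR) ^ n * c1 := by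
    ext1 k
    have := congrArg (fun f => Polynomial.coeff f (k + n)) h
    simp only [← C_pow, coeff_X_pow_mul, coeff_add, coeff_C_mul] at this ⊢
    rw [this, hb1, hc1]
  have h0 : a.coeff 0 = sR ^ n * b1.coeff 0 + tR ^ n * c1.coeff 0 := by
    conv_lhs => rw [h1]
    rw [coeff_add, ← C_pow, ← C_pow, coeff_C_mul, coeff_C_mul]
  obtain ⟨b2, hb2, c2, hc2, h2⟩ := contractR n _ _ _ ha h0
  refine ⟨b1 - C (b1.coeff 0) + C b2, ?_, c1 - C (c1.coeff 0) + C c2, ?_, ?_⟩
  · rw [mem_R0]; simpa using hb2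
  · rw [mem_R0]; simpa using hc2
  · have h3 : (C sR : AA) ^ n * C (b1.coeff 0) + (C tR) ^ n * C (c1.coeff 0) =
        (C sR) ^ n * C b2 + (C tR) ^ n * C c2 := by
      simp only [← C_pow, ← C_mul, ← C_add]
      rw [← h0, h2]
    conv_lhs => rw [h1]
    linear_combination h3

lemma not1' (n : ℕ) (u v w : AA) :
    (C sR * C tR * X) ^ n ≠ u * X ^ (n + 2) + v * (C tR) ^ (n + 2) +
      w * (C sR) ^ (n + 2) := by
  intro h
  have h1 := congrArg (fun f => Polynomial.coeff f n) h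
  have e1 : ((C sR * C tR * X) ^ n : AA) = C ((sR * tR) ^ n) * X ^ n := by
    simp only [C_pow, C_mul, mul_pow]
  simp only [e1, ← C_pow, coeff_add, coeff_mul_C, coeff_mul_X_pow', if_pos (le_refl n),
    if_neg (show ¬ n + 2 ≤ n by omega), Nat.sub_self, coeff_C_zero, zero_add] at h1
  exact not1R n _ _ h1

lemma not2' (n : ℕ) (u v w : AA) (hu : u ∈ R0) :
    (C (zR ^ 2)) * (C sR * C tR) ^ n * X ^ (n + 2) ≠ u * X ^ (n + 2) +
      v * (C tR) ^ (n + 2) + w * (C sR) ^ (n + 2) := by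
  intro h
  have h1 := congrArg (fun f => Polynomial.coeff f (n + 2)) h
  have e1 : ((C (zR ^ 2)) * (C sR * C tR) ^ n * X ^ (n + 2) : AA) =
      C (zR ^ 2 * (sR * tR) ^ n) * X ^ (n + 2) := by
    simp only [C_pow, C_mul, mul_pow]
  simp only [e1, ← C_pow, coeff_add, coeff_mul_C, coeff_mul_X_pow', if_pos (le_refl (n + 2)),
    Nat.sub_self, coeff_C_zero] at h1
  exact not2R n _ _ _ hu h1

end Q36.FA
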