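import Mathlib
import Pool.Agent.Q36.FA.Ring
import Pool.Agent.Q36.FA.Gen

/-! The local ring. -/

open Classical

namespace Q36.FA

open Polynomial

/-- Restriction of an element of `R0` to `y = z = 0`, a polynomial in `s`. -/
noncomputable def evy : R0 →+* K0 := (ev.comp Polynomial.constantCoeff).comp R0.val.toRingHom

lemma evy_apply (f : R0) : evy f = ev ((f : AA).coeff 0) := rfl

/-- The value at the origin. -/
noncomputable def evo : R0 →+* F2 := (Polynomial.evalRingHom 0).comp evy

/-- The ideal of the origin. -/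
noncomputable def m0 : Ideal R0 := RingHom.ker evo

instance m0_prime : m0.IsPrime := RingHom.ker_isPrime _

lemma evy_ne {u : R0} (hu : u ∉ m0) : evy u ≠ 0 := by
  intro h
  apply hu
  show (evy u).eval 0 = 0
  rw [h, eval_zero]

/-- The local ring of the origin. -/
def RL : Type := Localization.AtPrime m0

noncomputable instance : CommRing RL := inferInstanceAs (CommRing (Localization.AtPrime m0))

noncomputable instance : Algebra R0 RL := inferInstanceAs (Algebra R0 (Localization.AtPrime m0))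

instance : IsLocalization.AtPrime RL m0 :=
  inferInstanceAs (IsLocalization.AtPrime (Localization.AtPrime m0) m0)

instance : IsLocalRing RL := inferInstanceAs (IsLocalRing (Localization.AtPrime m0))

instance : IsDomain R0 := R0_domain

lemma compl_le : m0.primeCompl ≤ nonZeroDivisors R0 := m0.primeCompl_le_nonZeroDivisors

instance : IsDomain RL :=
  (IsLocalization.isDomain_localization compl_le : IsDomain (Localization.AtPrime m0))

instance : IsNoetherianRing R0 := R0_noeth

instance : IsNoetherianRing RL :=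
  IsLocalization.isNoetherianRing m0.primeCompl RL R0_noeth

/-- The field of rational functions. -/
abbrev EE : Type := FractionRing AA

lemma charP_two {R : Type} [CommRing R] [Nontrivial R] (h : (2 : R) = 0) : CharP R 2 :=
  CharTwo.of_one_ne_zero_of_two_eq_zero one_ne_zero h

instance : CharP EE 2 := charP_of_injective_algebraMap (IsFractionRing.injective AA EE) 2

instance : CharP R0 2 := charP_two two_R0

lemma alg_inj : Function.Injective (algebraMap R0 RL) := IsLocalization.injective RL compl_le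

instance : CharP RL 2 := charP_of_injective_algebraMap alg_inj 2

/-- The inclusion of `R0` in the field. -/
noncomputable def jj : R0 →+* EE := (algebraMap AA EE).comp R0.val.toRingHom

lemma jj_apply (f : R0) : jj f = algebraMap AA EE (f : AA) := rfl

lemma jj_inj : Function.Injective jj := by
  intro a b h
  exact Subtype.ext (IsFractionRing.injective AA EE h)

/-- The inclusion of the local ring in the field. -/
noncomputable def io : RL →+* EE :=
  IsLocalization.lift (M := m0.primeCompl) (g := jj) (fun u => by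
    rw [isUnit_iff_ne_zero, Ne, map_eq_zero_iff jj jj_inj]
    rintro h
    exact u.2 (h ▸ zero_mem _))

lemma io_alg (f : R0) : io (algebraMap R0 RL f) = jj f := IsLocalization.lift_eq _ _

lemma io_inj : Function.Injective io := by
  rw [injective_iff_map_eq_zero]
  intro a ha
  obtain ⟨u, hu, a0, h⟩ := gden m0 a
  have h1 := congrArg io h
  rw [map_mul, ha, zero_mul, io_alg, eq_comm, map_eq_zero_iff jj jj_inj] at h1
  rw [h1, map_zero] at h
  rcases mul_eq_zero.1 h with h | h
  · exact h
  · rw [map_eq_zero_iff _ alg_inj] at h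
    exact absurd (h ▸ zero_mem _) hu

noncomputable def sL : RL := algebraMap R0 RL s0
noncomputable def tL : RL := algebraMap R0 RL t0
noncomputable def yL : RL := algebraMap R0 RL y0

lemma s0_val : ((s0 : R0) : AA) = C sR := rfl
lemma t0_val : ((t0 : R0) : AA) = C tR := rfl
lemma y0_val : ((y0 : R0) : AA) = X := rfl

lemma sR_ne : sR ≠ 0 := prime_sR.ne_zero

lemma s0_ne : s0 ≠ 0 := by
  intro h
  have := congrArg Subtype.val h
  exact sR_ne (C_eq_zero.1 this)

lemma t0_ne : t0 ≠ 0 := by
  intro h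
  have := congrArg Subtype.val h
  exact tR_ne (C_eq_zero.1 this)

lemma y0_ne : y0 ≠ 0 := by
  intro h
  have := congrArg Subtype.val h
  exact X_ne_zero this

lemma s0t0 : s0 ≠ t0 := by
  intro h
  have h1 := C_injective (congrArg Subtype.val h)
  exact sR_not_dvd_tR (h1 ▸ dvd_rfl)

lemma s0y0 : s0 ≠ y0 := by
  intro h
  have := congrArg (fun f : R0 => (f : AA).coeff 1) h
  simp only [s0_val, y0_val, coeff_C_succ, coeff_X_one] at this
  exact zero_ne_one this

lemma t0y0 : t0 ≠ y0 := by
  intro h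
  have := congrArg (fun f : R0 => (f : AA).coeff 1) h
  simp only [t0_val, y0_val, coeff_C_succ, coeff_X_one] at this
  exact zero_ne_one this

theorem reg_R0 : Reg s0 t0 y0 where
  hst := s0t0
  hsy := s0y0
  hty := t0y0
  hs := s0_ne
  ht := t0_ne
  hy := y0_ne
  r2 n a b h := by
    have h1 : (C tR : AA) ^ n * (a : AA) = (C sR) ^ n * (b : AA) := congrArg Subtype.val h
    obtain ⟨c, hc, hc2⟩ := reg2 n a b a.2 h1
    exact ⟨⟨c, hc⟩, Subtype.ext hc2⟩
  r3 n a b c h := by
    have h1 : (X : AA) ^ n * (a : AA) = (C sR) ^ n * (b : AA) + (C tR) ^ n * (c : AA) :=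
      congrArg Subtype.val h
    obtain ⟨b', hb', c', hc', he⟩ := reg3 n a b c a.2 h1
    exact ⟨⟨b', hb'⟩, ⟨c', hc'⟩, Subtype.ext he⟩

theorem reg_RL : Reg sL tL yL := reg_R0.loc m0 alg_inj

/-- Elements of `BR` modulo `s, t`. -/
lemma BR_split (b : CR) (hb : b ∈ BR) : ∃ b1 ∈ BR, ∃ b2 ∈ BR,
    b = sR * b1 + tR * b2 ∨ b = 1 + (sR * b1 + tR * b2) := by
  have two : (2 : CR) = 0 := CharTwo.two_eq_zero
  refine BR_ind (fun b => ∃ b1 ∈ BR, ∃ b2 ∈ BR,
    b = sR * b1 + tR * b2 ∨ b = 1 + (sR * b1 + tR * b2))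
    ⟨0, zero_mem _, 0, zero_mem _, Or.inl (by ring)⟩ ?_ ?_ b hb
  · rintro a b ⟨a1, ha1, a2, ha2, ha | ha⟩ ⟨b1, hb1, b2, hb2, hb | hb⟩
    · exact ⟨a1 + b1, add_mem ha1 hb1, a2 + b2, add_mem ha2 hb2, Or.inl (by rw [ha, hb]; ring)⟩
    · exact ⟨a1 + b1, add_mem ha1 hb1, a2 + b2, add_mem ha2 hb2, Or.inr (by rw [ha, hb]; ring)⟩
    · exact ⟨a1 + b1, add_mem ha1 hb1, a2 + b2, add_mem ha2 hb2, Or.inr (by rw [ha, hb]; ring)⟩
    · refine ⟨a1 + b1, add_mem ha1 hb1, a2 + b2, add_mem ha2 hb2, Or.inl ?_⟩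
      rw [ha, hb]; linear_combination two
  · intro n m
    rcases n with _ | n
    · rcases m with _ | m
      · exact ⟨0, zero_mem _, 0, zero_mem _, Or.inr (by ring)⟩
      · exact ⟨0, zero_mem _, tR ^ m, pow_mem tR_mem _, Or.inl (by ring)⟩
    · exact ⟨sR ^ n * tR ^ m, mul_mem (pow_mem sR_mem _) (pow_mem tR_mem _), 0, zero_mem _,
        Or.inl (by ring)⟩

lemma sq_split (f : AA) (b1 b2 : CR) (h : f.coeff 0 = sR * b1 + tR * b2) :
    f ^ 2 = C sR * C (sR * b1 ^ 2) + C tR * C (tR * b2 ^ 2) + X * (X * divX f ^ 2) := by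
  have h1 := divX_mul_X_add f
  rw [h] at h1
  conv_lhs => rw [← h1]
  rw [CharTwo.add_sq, C_add, CharTwo.add_sq]
  simp only [C_mul, C_pow]
  ring

lemma sq_mem0 (f : R0) (hf : f ∈ m0) : ∃ a b c : R0, f ^ 2 = s0 * a + t0 * b + y0 * c := by
  have h0 : ((f : AA).coeff 0) ∈ BR := f.2
  obtain ⟨b1, hb1, b2, hb2, h | h⟩ := BR_split _ h0
  · exact ⟨⟨C (sR * b1 ^ 2), C_mem _ (mul_mem sR_mem (pow_mem hb1 _))⟩,
      ⟨C (tR * b2 ^ 2), C_mem _ (mul_mem tR_mem (pow_mem hb2 _))⟩,
      ⟨X * divX (f : AA) ^ 2, X_mul_mem _⟩, Subtype.ext (sq_split _ b1 b2 h)⟩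
  · exfalso
    have h1 : evo f = 0 := hf
    have h2 : evo f = (ev ((f : AA).coeff 0)).eval 0 := rfl
    rw [h, map_add, map_add, map_mul, map_mul, ev_s, ev_t, map_one] at h2
    simp only [eval_add, eval_mul, eval_X, zero_mul, eval_one, add_zero] at h2
    rw [h1] at h2
    exact zero_ne_one h2

lemma s0_mem : s0 ∈ m0 := by
  show (ev ((C sR : AA).coeff 0)).eval 0 = 0
  rw [coeff_C_zero, ev_s, eval_X]

lemma t0_mem : t0 ∈ m0 := by
  show (ev ((C tR : AA).coeff 0)).eval 0 = 0
  rw [coeff_C_zero, ev_t, eval_zero]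

lemma y0_mem : y0 ∈ m0 := by
  show (ev ((X : AA).coeff 0)).eval 0 = 0
  rw [coeff_X_zero, map_zero, eval_zero]

theorem radical_RL : (Ideal.span (({sL, tL, yL} : Finset RL) : Set RL)).radical =
    IsLocalRing.maximalIdeal RL := by
  have h := radical_loc (L := RL) m0 ({s0, t0, y0} : Finset R0) (by
    intro a ha
    simp only [Finset.mem_insert, Finset.mem_singleton] at ha
    rcases ha with rfl | rfl | rfl
    · exact s0_mem
    · exact t0_mem
    · exact y0_mem) (by
    intro f hf
    obtain ⟨a, b, c, habc⟩ := sq_mem0 f hf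
    rw [habc]
    refine add_mem (add_mem ?_ ?_) ?_
    all_goals
      refine Ideal.mul_mem_right _ _ (Ideal.subset_span ?_)
      simp)
  rwa [Finset.image_insert, Finset.image_insert, Finset.image_singleton] at h

end Q36.FA
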