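import Mathlib
import Pool.Agent.Q36.FA.Def

/-! A criterion for the failure of anti-nilpotency with two parameters. -/

open Classical

namespace Q36.FA

section

variable {R L : Type} [CommRing R] [Field L] (Ps : R →+* L) {t y : R}

theorem not_anti_gen (hty : t ≠ y) (ht : Ps t ≠ 0) (hy : Ps y ≠ 0) (N : AddSubgroup L)
    (hmul : ∀ r : R, ∀ e ∈ N, Ps r * e ∈ N) (hsq : ∀ e ∈ N, e ^ 2 ∈ N)
    (hby : ∀ (e : L) (n : ℕ) (r : R), e * Ps y ^ n = Ps r → e ∈ N)
    (hbt : ∀ (e : L) (n : ℕ) (r : R), e * Ps t ^ n = Ps r → e ∈ N)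
    (q : R) (q0 : L) (hq : q0 * (Ps t * Ps y) = Ps q) (hq1 : q0 ∉ N) (hq2 : q0 ^ 2 ∈ N) :
    ¬ AntiNilpotent ({t, y} : Finset R) 2 := by
  intro h
  have hprod : ∏ a ∈ ({t, y} : Finset R), a = t * y := Finset.prod_pair hty
  have hne : IsUnit (Ps (∏ a ∈ ({t, y} : Finset R), a)) := by
    rw [hprod, map_mul]
    exact (mul_ne_zero ht hy).isUnit
  let Ph : Loc ({t, y} : Finset R) →+* L := IsLocalization.Away.lift _ hne
  have Ph_alg : ∀ r, Ph (algebraMap R _ r) = Ps r := fun r => IsLocalization.Away.lift_eq _ _ _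
  have Ph_res : ∀ {S : Finset R} (h : S ⊆ {t, y}) (u : Loc S), ∃ (n : ℕ) (r : R),
      Ph (res h u) * Ps (∏ a ∈ S, a) ^ n = Ps r := by
    intro S h u
    obtain ⟨n, r, hr⟩ := IsLocalization.Away.surj (∏ a ∈ S, a) u
    refine ⟨n, r, ?_⟩
    have := congrArg (fun v => Ph (res h v)) hr
    simpa only [map_mul, map_pow, res_algebraMap, Ph_alg] using this
  let M : Submodule R (Cochain R) :=
    { carrier := {c | Ph (c {t, y}) ∈ N}
      zero_mem' := by
        show Ph (0 : Loc _) ∈ N
        rw [map_zero]; exact zero_mem _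
      add_mem' := fun {c c'} h h' => by
        show Ph (c {t, y} + c' {t, y}) ∈ N
        rw [map_add]; exact add_mem h h'
      smul_mem' := fun r c h => by
        show Ph (r • c {t, y}) ∈ N
        rw [Algebra.smul_def, map_mul, Ph_alg]
        exact hmul r _ h }
  have mem_M : ∀ c, c ∈ M ↔ Ph (c {t, y}) ∈ N := fun c => Iff.rfl
  have hcob : coboundaries ({t, y} : Finset R) 2 ≤ M := by
    rintro c ⟨b, hb⟩
    rw [mem_M, hb _ (Finset.mem_powersetCard.2 ⟨subset_rfl, Finset.card_pair hty⟩),
      diff_apply, map_sum]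
    refine sum_mem fun a ha => ?_
    obtain ⟨n, r, h⟩ := Ph_res (Finset.erase_subset a {t, y}) (b (Finset.erase {t, y} a))
    rcases Finset.mem_insert.1 ha with rfl | ha
    · have e1 : Finset.erase {a, y} a = {y} := Finset.erase_insert (by simpa using hty)
      have e2 : (∏ b ∈ Finset.erase {a, y} a, b) = y := by rw [e1, Finset.prod_singleton]
      refine hby _ n r ?_
      rw [← h]
      congr 3
      exact e2.symm
    · rw [Finset.mem_singleton] at ha
      subst ha
      have e1 : Finset.erase {t, a} a = {t} := by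
        rw [Finset.pair_comm]
        exact Finset.erase_insert (by simpa using hty.symm)
      have e2 : (∏ b ∈ Finset.erase {t, a} a, b) = t := by rw [e1, Finset.prod_singleton]
      refine hbt _ n r ?_
      rw [← h]
      congr 3
      exact e2.symm
  have hcoc : (⊤ : Submodule R (Cochain R)) ≤ cocycles ({t, y} : Finset R) 2 := by
    intro c _ S hS
    have h1 := Finset.card_le_card (Finset.mem_powersetCard.1 hS).1
    rw [(Finset.mem_powersetCard.1 hS).2, Finset.card_pair hty] at h1
    omega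
  have h1 : IsUnit (algebraMap R (Loc ({t, y} : Finset R)) (∏ a ∈ ({t, y} : Finset R), a)) :=
    IsLocalization.Away.algebraMap_isUnit _
  obtain ⟨w, hw⟩ := h1.exists_right_inv
  let v : Loc ({t, y} : Finset R) := algebraMap R _ q * w
  have hv : Ph v = q0 := by
    have h2 := congrArg Ph hw
    rw [map_mul, Ph_alg, map_one] at h2
    have h3 : Ps (∏ a ∈ ({t, y} : Finset R), a) = Ps t * Ps y := by rw [hprod, map_mul]
    rw [h3] at h2
    show Ph (_ * w) = _
    rw [map_mul, Ph_alg, ← hq]
    linear_combination q0 * h2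
  let c : Cochain R := Function.update 0 {t, y} v
  have hc : c {t, y} = v := Function.update_self _ _ _
  have h6 := h M hcob (le_top.trans hcoc) (fun c hc => by
    rw [mem_M] at hc ⊢
    rw [Pi.pow_apply, map_pow]
    exact hsq _ hc) c (hcoc trivial) (by
    rw [mem_M, Pi.pow_apply, map_pow, hc, hv]
    exact hq2)
  rw [mem_M, hc, hv] at h6
  exact hq1 h6

end

end Q36.FA
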