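import Mathlib
import Pool.Agent.Q36.FA.Loc
import Pool.Agent.Q36.FA.Hahn
import Pool.Agent.Q36.FA.NegGen

/-! The localisation at the prime ideal generated by `t` and the conductor. -/

open Classical

namespace Q36.FA

/-- Rational functions in `s`. -/
abbrev KK : Type := FractionRing K0

/-- Power series in `y` over power series in `z`. -/
abbrev O2 : Type := PowerSeries (PowerSeries KK)

noncomputable def rh : AA →+* O2 :=
  Polynomial.eval₂RingHom ((PowerSeries.C).comp (lam KK)) PowerSeries.X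

lemma rh_C (c : CR) : rh (Polynomial.C c) = PowerSeries.C (lam KK c) := by
  simp [rh]

lemma rh_X : rh Polynomial.X = PowerSeries.X := by
  simp [rh]

lemma rh_const (f : AA) : PowerSeries.constantCoeff (rh f) = lam KK (f.coeff 0) := by
  have : (PowerSeries.constantCoeff (R := PowerSeries KK)).comp rh =
      (lam KK).comp Polynomial.constantCoeff := by
    apply Polynomial.ringHom_ext
    · intro a
      simp [rh_C]
    · simp [rh_X]
  exact RingHom.congr_fun this f

noncomputable def r0h : R0 →+* O2 := rh.comp R0.val.toRingHom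

lemma r0h_apply (f : R0) : r0h f = rh (f : AA) := rfl

/-- The residue in the field of rational functions in `s`. -/
noncomputable def cc : O2 →+* KK := (PowerSeries.constantCoeff).comp PowerSeries.constantCoeff

lemma isUnit_O2 {g : O2} (h : cc g ≠ 0) : IsUnit g := by
  rw [PowerSeries.isUnit_iff_constantCoeff, PowerSeries.isUnit_iff_constantCoeff]
  exact isUnit_iff_ne_zero.2 h

lemma cc_r0h (f : R0) : cc (r0h f) = algebraMap K0 KK (evy f) := by
  show PowerSeries.constantCoeff (PowerSeries.constantCoeff (rh (f : AA))) = _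
  rw [rh_const, lam_const]
  rfl

lemma kk_ne {q : K0} (h : q ≠ 0) : algebraMap K0 KK q ≠ 0 := by
  rwa [Ne, map_eq_zero_iff _ (IsFractionRing.injective K0 KK)]

noncomputable def rL : RL →+* O2 :=
  IsLocalization.lift (M := m0.primeCompl) (g := r0h) (fun u =>
    isUnit_O2 (by rw [cc_r0h]; exact kk_ne (evy_ne u.2)))

lemma rL_alg (f : R0) : rL (algebraMap R0 RL f) = r0h f := IsLocalization.lift_eq _ _

/-- The prime ideal: the kernel of the map to the rational functions in `s`. -/
noncomputable def PP : Ideal RL := RingHom.ker (cc.comp rL)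

instance PP_prime : PP.IsPrime := RingHom.ker_isPrime _

lemma mem_PP (r : RL) : r ∈ PP ↔ cc (rL r) = 0 := Iff.rfl

/-- The localisation. -/
abbrev RP : Type := Localization.AtPrime PP

noncomputable example : CommRing RP := inferInstance

noncomputable def rP : RP →+* O2 :=
  IsLocalization.lift (M := PP.primeCompl) (g := rL) (fun u => isUnit_O2 u.2)

lemma rP_alg (f : RL) : rP (algebraMap RL RP f) = rL f := IsLocalization.lift_eq _ _

/-- Laurent series in `z`. -/
def Lz : Type := HahnSeries ℤ KK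

noncomputable instance : Field Lz := inferInstanceAs (Field (HahnSeries ℤ KK))

/-- Laurent series in `y` over Laurent series in `z`. -/
abbrev Ly : Type := HahnSeries ℤ Lz

instance : CharP KK 2 := charP_of_injective_algebraMap (IsFractionRing.injective K0 KK) 2

noncomputable def toz : PowerSeries KK →+* Lz :=
  (HahnSeries.ofPowerSeries ℤ KK : PowerSeries KK →+* HahnSeries ℤ KK)

lemma toz_inj : Function.Injective toz := HahnSeries.ofPowerSeries_injective

instance : CharP Lz 2 := charP_of_injective_ringHom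
    (f := toz.comp (PowerSeries.C : KK →+* PowerSeries KK))
    (toz_inj.comp PowerSeries.C_injective) 2

noncomputable def to2 : O2 →+* Ly := (HahnSeries.ofPowerSeries ℤ Lz).comp (PowerSeries.map toz)

/-- The ring of power series in `z`. -/
noncomputable def Oz : Subring Lz := toz.range

lemma to2_coeff (g : O2) (n : ℤ) : (to2 g).coeff n =
    if n < 0 then 0 else toz (PowerSeries.coeff n.natAbs g) := by
  show (HahnSeries.ofPowerSeries ℤ Lz (PowerSeries.map toz g)).coeff n = _
  rw [PowerSeries.coeff_coe]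
  simp

lemma to2_W (g : O2) : isW (to2 g) := by
  intro n hn
  rw [to2_coeff, if_pos hn]

lemma to2_U (g : O2) : isU Oz (to2 g) := by
  intro n
  rw [to2_coeff]
  split_ifs
  · exact zero_mem _
  · exact ⟨_, rfl⟩

lemma to2_zero (g : O2) : (to2 g).coeff 0 = toz (PowerSeries.constantCoeff g) := by
  rw [to2_coeff, if_neg (by norm_num)]
  simp

lemma to2_inj : Function.Injective to2 := by
  refine (HahnSeries.ofPowerSeries_injective (Γ := ℤ) (R := Lz)).comp ?_
  exact PowerSeries.map_injective toz toz_inj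

lemma to2_C (f : PowerSeries KK) : to2 (PowerSeries.C f) = HahnSeries.C (toz f) := by
  show HahnSeries.ofPowerSeries ℤ Lz (PowerSeries.map toz (PowerSeries.C f)) = _
  rw [PowerSeries.map_C, HahnSeries.ofPowerSeries_C]

lemma to2_X : to2 PowerSeries.X = HahnSeries.single 1 1 := by
  show HahnSeries.ofPowerSeries ℤ Lz (PowerSeries.map toz PowerSeries.X) = _
  rw [PowerSeries.map_X, HahnSeries.ofPowerSeries_X]

/-- The expansion of polynomials in `s, z`. -/
noncomputable def mu : CR →+* Lz := toz.comp (lam KK)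

/-- The field of rational functions in `s, t`. -/
noncomputable def Kt : Subring Lz where
  carrier := {x | ∃ b1 ∈ BR, ∃ b2 ∈ BR, mu b2 ≠ 0 ∧ x * mu b2 = mu b1}
  mul_mem' := by
    rintro x y ⟨a1, ha1, a2, ha2, h1, h2⟩ ⟨b1, hb1, b2, hb2, h3, h4⟩
    refine ⟨a1 * b1, mul_mem ha1 hb1, a2 * b2, mul_mem ha2 hb2, ?_, ?_⟩
    · rw [map_mul]; exact mul_ne_zero h1 h3
    · rw [map_mul, map_mul, ← h2, ← h4]; ring
  one_mem' := ⟨1, one_mem _, 1, one_mem _, by rw [map_one]; exact one_ne_zero, by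
    rw [one_mul]⟩
  add_mem' := by
    rintro x y ⟨a1, ha1, a2, ha2, h1, h2⟩ ⟨b1, hb1, b2, hb2, h3, h4⟩
    refine ⟨a1 * b2 + b1 * a2, add_mem (mul_mem ha1 hb2) (mul_mem hb1 ha2), a2 * b2,
      mul_mem ha2 hb2, ?_, ?_⟩
    · rw [map_mul]; exact mul_ne_zero h1 h3
    · rw [map_mul, map_add, map_mul, map_mul, ← h2, ← h4]; ring
  zero_mem' := ⟨0, zero_mem _, 1, one_mem _, by rw [map_one]; exact one_ne_zero, by
    rw [map_zero, zero_mul]⟩
  neg_mem' := by
    rintro x ⟨a1, ha1, a2, ha2, h1, h2⟩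
    exact ⟨-a1, neg_mem ha1, a2, ha2, h1, by rw [map_neg, ← h2]; ring⟩

lemma mu_inj_t : mu tR ≠ 0 := by
  intro h
  have h1 : lam KK tR = 0 := toz_inj (h.trans (map_zero toz).symm)
  have h2 : lam KK tR = PowerSeries.X ^ 2 * (PowerSeries.X ^ 3 + lam KK sR) := by
    rw [tR, map_add, map_mul, map_pow, map_pow, lam_z]; ring
  rw [h2] at h1
  rcases mul_eq_zero.1 h1 with h3 | h3
  · exact pow_ne_zero 2 PowerSeries.X_ne_zero h3
  · have h4 := congrArg PowerSeries.constantCoeff h3
    rw [map_add, map_pow, PowerSeries.constantCoeff_X, lam_s, PowerSeries.constantCoeff_C,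
      map_zero] at h4
    simp only [ne_eq, OfNat.ofNat_ne_zero, not_false_eq_true, zero_pow, zero_add] at h4
    exact kk_ne Polynomial.X_ne_zero h4

/-- The embedding of the localisation in iterated Laurent series. -/
noncomputable def Ps : RP →+* Ly := to2.comp rP

lemma Ps_alg (f : R0) : Ps (algebraMap RL RP (algebraMap R0 RL f)) = to2 (rh (f : AA)) := by
  show to2 (rP _) = _
  rw [rP_alg, rL_alg]; rfl

lemma exists_den (r : RP) : ∃ v a : R0, cc (r0h v) ≠ 0 ∧
    r * algebraMap RL RP (algebraMap R0 RL v) = algebraMap RL RP (algebraMap R0 RL a) := by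
  obtain ⟨v, hv, a, h⟩ := gden PP r
  obtain ⟨u1, hu1, v0, h1⟩ := gden m0 v
  obtain ⟨u2, hu2, a0, h2⟩ := gden m0 a
  refine ⟨v0 * u2, a0 * u1, ?_, ?_⟩
  · rw [map_mul, map_mul, ← rL_alg, ← h1, map_mul, map_mul]
    refine mul_ne_zero (mul_ne_zero hv ?_) ?_
    · rw [rL_alg, cc_r0h]; exact kk_ne (evy_ne hu1)
    · rw [cc_r0h]; exact kk_ne (evy_ne hu2)
  · simp only [map_mul]
    rw [← h1, ← h2]
    simp only [map_mul]
    rw [← h]
    ring

lemma Ps_coeff (r : RP) : (Ps r).coeff 0 ∈ Kt := by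
  obtain ⟨v, a, hv, h⟩ := exists_den r
  refine ⟨(a : AA).coeff 0, a.2, (v : AA).coeff 0, v.2, ?_, ?_⟩
  · intro h0
    apply hv
    have h1 : lam KK ((v : AA).coeff 0) = 0 := toz_inj (h0.trans (map_zero toz).symm)
    show PowerSeries.constantCoeff (PowerSeries.constantCoeff (rh (v : AA))) = 0
    rw [rh_const, h1, map_zero]
  · have h1 := congrArg rP h
    rw [map_mul, rP_alg, rP_alg, rL_alg, rL_alg] at h1
    have h2 := congrArg (fun g => toz (PowerSeries.constantCoeff g)) h1
    simp only [map_mul] at h2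
    rw [r0h_apply, r0h_apply, rh_const, rh_const] at h2
    show (to2 (rP r)).coeff 0 * toz (lam KK _) = toz (lam KK _)
    rw [to2_zero]
    exact h2

noncomputable def tP : RP := algebraMap RL RP tL
noncomputable def yP : RP := algebraMap RL RP yL

lemma Ps_t : Ps tP = HahnSeries.C (mu tR) := by
  show Ps (algebraMap RL RP (algebraMap R0 RL t0)) = _
  rw [Ps_alg, t0_val, rh_C, to2_C]; rfl

lemma Ps_y : Ps yP = HahnSeries.single 1 1 := by
  show Ps (algebraMap RL RP (algebraMap R0 RL y0)) = _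
  rw [Ps_alg, y0_val, rh_X, to2_X]

lemma Ps_t_ne : Ps tP ≠ 0 := by
  rw [Ps_t]
  exact fun h => mu_inj_t (HahnSeries.C_injective (h.trans (map_zero _).symm))

lemma Ps_y_ne : Ps yP ≠ 0 := by
  rw [Ps_y]
  exact HahnSeries.single_ne_zero one_ne_zero

lemma tP_ne_yP : tP ≠ yP := by
  intro h
  have h1 := congrArg (fun r => (Ps r).coeff 0) h
  simp only [Ps_t, Ps_y, C_coeff_zero] at h1
  rw [HahnSeries.coeff_single_of_ne (by norm_num)] at h1
  exact mu_inj_t h1

/-- The two parameters. -/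
noncomputable abbrev JP : Finset RP := {tP, yP}

lemma Ps_U (r : RP) : isU Oz (Ps r) := to2_U (rP r)

lemma Ps_W (r : RP) : isW (Ps r) := to2_W (rP r)

lemma NN_smul (r : RP) (e : Ly) (he : e ∈ NN Kt Oz) : Ps r * e ∈ NN Kt Oz :=
  NN_mul (Ps_U r) (Ps_W r) (Ps_coeff r) he

lemma NN_sq' (e : Ly) (he : e ∈ NN Kt Oz) : e ^ 2 ∈ NN Kt Oz := NN_sq he

lemma NN_of_y {e : Ly} {n : ℕ} {r : RP} (h : e * Ps yP ^ n = Ps r) : e ∈ NN Kt Oz := by
  rw [Ps_y] at h
  exact NN_of_single h (Ps_U r)

lemma NN_of_t {e : Ly} {n : ℕ} {r : RP} (h : e * Ps tP ^ n = Ps r) : e ∈ NN Kt Oz := by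
  rw [Ps_t] at h
  refine NN_of_C mu_inj_t h (Ps_W r) ?_
  obtain ⟨b1, hb1, b2, hb2, h2, h3⟩ := Ps_coeff r
  have ht := pow_ne_zero n mu_inj_t
  refine ⟨b1, hb1, b2 * tR ^ n, mul_mem hb2 (pow_mem tR_mem n), ?_, ?_⟩
  · rw [map_mul, map_pow]; exact mul_ne_zero h2 ht
  · rw [map_mul, map_pow, ← h3]
    field_simp

/-- Orders of power series. -/
lemma order_aux {m k : ℕ} {f g : PowerSeries KK} (hf : PowerSeries.constantCoeff f ≠ 0)
    (hg : PowerSeries.constantCoeff g ≠ 0)
    (h : PowerSeries.X ^ m * f = PowerSeries.X ^ k * g) : m = k := by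
  have hf0 : f.order = 0 := PowerSeries.order_zero_of_unit
    (PowerSeries.isUnit_iff_constantCoeff.2 (isUnit_iff_ne_zero.2 hf))
  have hg0 : g.order = 0 := PowerSeries.order_zero_of_unit
    (PowerSeries.isUnit_iff_constantCoeff.2 (isUnit_iff_ne_zero.2 hg))
  have := congrArg PowerSeries.order h
  rw [PowerSeries.order_mul, PowerSeries.order_mul, PowerSeries.order_X_pow,
    PowerSeries.order_X_pow, hf0, hg0, add_zero, add_zero] at this
  exact_mod_cast this

lemma lam_t : lam KK tR = PowerSeries.X ^ 2 * (PowerSeries.X ^ 3 + lam KK sR) := by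
  rw [tR, map_add, map_mul, map_pow, map_pow, lam_z]; ring

lemma const_v : PowerSeries.constantCoeff (PowerSeries.X ^ 3 + lam KK sR) ≠ 0 := by
  rw [map_add, map_pow, PowerSeries.constantCoeff_X, lam_s, PowerSeries.constantCoeff_C]
  simp only [ne_eq, OfNat.ofNat_ne_zero, not_false_eq_true, zero_pow, zero_add]
  exact kk_ne Polynomial.X_ne_zero

lemma lam_order (b : CR) (hb : b ∈ BR) (h0 : mu b ≠ 0) : ∃ (j : ℕ) (g : PowerSeries KK),
    lam KK b = PowerSeries.X ^ (2 * j) * g ∧ PowerSeries.constantCoeff g ≠ 0 := by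
  obtain ⟨j, b', rfl, hb'⟩ := BR_order b hb (by rintro rfl; exact h0 (map_zero _))
  refine ⟨j, (PowerSeries.X ^ 3 + lam KK sR) ^ j * lam KK b', ?_, ?_⟩
  · rw [map_mul, map_pow, lam_t, mul_pow, ← pow_mul, mul_assoc]
  · rw [map_mul, map_pow]
    refine mul_ne_zero (pow_ne_zero _ const_v) ?_
    rw [lam_const]
    exact kk_ne hb'

lemma not_sum {k o : Lz} (hk : k ∈ Kt) (ho : o ∈ Oz) : mu zR / mu tR ≠ k + o := by
  intro h
  obtain ⟨b1, hb1, b2, hb2, h2, h3⟩ := hk
  obtain ⟨p, rfl⟩ := ho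
  have ht := mu_inj_t
  have e1 : (mu zR - toz p * mu tR) * mu b2 = mu tR * mu b1 := by
    rw [← h3]
    field_simp at h
    rw [h]
    ring
  have e2 : (lam KK zR - p * lam KK tR) * lam KK b2 = lam KK tR * lam KK b1 := by
    apply toz_inj
    rw [map_mul, map_sub, map_mul, map_mul]
    exact e1
  obtain ⟨j2, g2, hg2, hc2⟩ := lam_order b2 hb2 h2
  have hc3 : PowerSeries.constantCoeff (1 - p * PowerSeries.X *
      (PowerSeries.X ^ 3 + lam KK sR) : PowerSeries KK) ≠ 0 := by
    simp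
  have e3 : (lam KK zR - p * lam KK tR) * lam KK b2 = PowerSeries.X ^ (1 + 2 * j2) *
      ((1 - p * PowerSeries.X * (PowerSeries.X ^ 3 + lam KK sR)) * g2) := by
    rw [hg2, lam_t, lam_z]; ring
  by_cases hb0 : mu b1 = 0
  · have hb0' : lam KK b1 = 0 := toz_inj (hb0.trans (map_zero toz).symm)
    rw [e3, hb0', mul_zero] at e2
    rcases mul_eq_zero.1 e2 with h4 | h4
    · exact pow_ne_zero _ PowerSeries.X_ne_zero h4
    · rcases mul_eq_zero.1 h4 with h5 | h5
      · rw [h5, map_zero] at hc3; exact hc3 rfl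
      · rw [h5, map_zero] at hc2; exact hc2 rfl
  · obtain ⟨j1, g1, hg1, hc1⟩ := lam_order b1 hb1 hb0
    have e4 : lam KK tR * lam KK b1 = PowerSeries.X ^ (2 + 2 * j1) *
        ((PowerSeries.X ^ 3 + lam KK sR) * g1) := by
      rw [hg1, lam_t]; ring
    rw [e3, e4] at e2
    have := order_aux (by rw [map_mul]; exact mul_ne_zero hc3 hc2)
      (by rw [map_mul]; exact mul_ne_zero const_v hc1) e2
    omega

lemma mu_s_ne : mu sR ≠ 0 := by
  intro h
  have h1 : lam KK sR = 0 := toz_inj (h.trans (map_zero toz).symm)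
  have h2 := congrArg PowerSeries.constantCoeff h1
  rw [lam_s, PowerSeries.constantCoeff_C, map_zero] at h2
  exact kk_ne Polynomial.X_ne_zero h2

lemma sq_sum : ∃ k ∈ Kt, ∃ o ∈ Oz, (mu zR / mu tR) ^ 2 = k + o := by
  have hs := mu_s_ne
  have ht := mu_inj_t
  have hu : IsUnit (lam KK sR * (PowerSeries.X ^ 3 + lam KK sR) ^ 2) := by
    rw [PowerSeries.isUnit_iff_constantCoeff, isUnit_iff_ne_zero, map_mul, map_pow]
    refine mul_ne_zero ?_ (pow_ne_zero _ const_v)
    rw [lam_s, PowerSeries.constantCoeff_C]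
    exact kk_ne Polynomial.X_ne_zero
  obtain ⟨w, hw⟩ := hu.exists_right_inv
  refine ⟨(mu sR * mu tR)⁻¹, ⟨1, one_mem _, sR * tR, mul_mem sR_mem tR_mem, ?_, ?_⟩,
    toz (PowerSeries.X * w), ⟨_, rfl⟩, ?_⟩
  · rw [map_mul]; exact mul_ne_zero hs ht
  · rw [map_mul, map_one, inv_mul_cancel₀ (mul_ne_zero hs ht)]
  · have e1 : mu sR * mu tR ^ 2 * toz (PowerSeries.X * w) = mu zR ^ 5 := by
      have e0 : lam KK sR * lam KK tR ^ 2 * (PowerSeries.X * w) = lam KK zR ^ 5 := by
        rw [lam_t, lam_z]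
        linear_combination (PowerSeries.X ^ 5) * hw
      have := congrArg toz e0
      rw [map_mul, map_mul, map_pow, map_pow] at this
      exact this
    have e2 : mu zR ^ 5 = mu tR + mu sR * mu zR ^ 2 := by
      rw [← map_pow, relR, map_add, map_mul, map_pow]
    have two : (2 : Lz) = 0 := CharTwo.two_eq_zero
    field_simp
    linear_combination -e1 - e2 - mu tR * two

/-- The local cohomology of the localisation is not anti-nilpotent. -/
theorem not_anti : ¬ AntiNilpotent JP 2 := by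
  have hC : (HahnSeries.C (mu zR / mu tR) : Ly) * (Ps tP * Ps yP) =
      Ps (algebraMap RL RP (algebraMap R0 RL (yz0 1))) := by
    rw [Ps_alg, Ps_y, Ps_t]
    show _ = to2 (rh (Polynomial.X * Polynomial.C (zR ^ 1)))
    rw [pow_one, map_mul, map_mul, rh_X, rh_C, to2_X, to2_C]
    exact C_div_mul mu_inj_t
  refine not_anti_gen Ps tP_ne_yP Ps_t_ne Ps_y_ne (NN Kt Oz)
    NN_smul NN_sq'
    (fun e n r h => NN_of_y h) (fun e n r h => NN_of_t h) _ _ hC (fun h => ?_) ?_
  · obtain ⟨k, hk, o, ho, he⟩ := NN_coeff h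
    rw [C_coeff_zero] at he
    exact not_sum hk ho he
  · obtain ⟨k, hk, o, ho, he⟩ := sq_sum
    rw [← map_pow, he, map_add]
    exact add_mem (NN_C hk) (NN_U (isU_C ho))

lemma tL_PP : tL ∈ PP := by
  show cc (rL (algebraMap R0 RL t0)) = 0
  rw [rL_alg, cc_r0h, evy_apply, t0_val, Polynomial.coeff_C_zero, ev_t, map_zero]

lemma yL_PP : yL ∈ PP := by
  show cc (rL (algebraMap R0 RL y0)) = 0
  rw [rL_alg, cc_r0h, evy_apply, y0_val, Polynomial.coeff_X_zero, map_zero, map_zero]

theorem radical_RP : (Ideal.span ((JP : Finset RP) : Set RP)).radical =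
    IsLocalRing.maximalIdeal RP := by
  have h := radical_loc (L := RP) PP ({tL, yL} : Finset RL) (by
    intro a ha
    simp only [Finset.mem_insert, Finset.mem_singleton] at ha
    rcases ha with rfl | rfl
    · exact tL_PP
    · exact yL_PP) (by
    intro f hf
    obtain ⟨u, hu, f0, h⟩ := gden m0 f
    obtain ⟨w, hw⟩ := gunit (L := RL) m0 hu
    have h1 : ev ((f0 : AA).coeff 0) = 0 := by
      have h2 : cc (rL (algebraMap R0 RL f0)) = 0 := by
        rw [← h, map_mul, map_mul, (mem_PP f).1 hf, zero_mul]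
      rw [rL_alg, cc_r0h] at h2
      by_contra h3
      exact kk_ne h3 h2
    obtain ⟨b', hb', hb⟩ := BR_ev _ f0.2 h1
    obtain ⟨A1, A2, h2⟩ : ∃ A1 A2 : R0, f0 ^ 2 = t0 * A1 + y0 * A2 := by
      refine ⟨⟨Polynomial.C (tR * b' ^ 2), C_mem _ (mul_mem tR_mem (pow_mem hb' _))⟩,
        ⟨Polynomial.X * Polynomial.divX (f0 : AA) ^ 2, X_mul_mem _⟩, ?_⟩
      apply Subtype.ext
      have := sq_split (f0 : AA) 0 b' (by rw [hb]; ring)
      show (f0 : AA) ^ 2 = Polynomial.C tR * Polynomial.C (tR * b' ^ 2) +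
        Polynomial.X * (Polynomial.X * Polynomial.divX (f0 : AA) ^ 2)
      rw [this]
      simp
    have h3 : f ^ 2 = w ^ 2 * (algebraMap R0 RL f0) ^ 2 := by
      rw [← h]
      linear_combination (-f ^ 2 * (algebraMap R0 RL u * w + 1)) * hw
    rw [h3, ← map_pow, h2, map_add, map_mul, map_mul]
    refine Ideal.mul_mem_left _ _ (add_mem ?_ ?_)
    all_goals
      refine Ideal.mul_mem_right _ _ (Ideal.subset_span ?_)
      simp [tL, yL])
  rwa [Finset.image_insert, Finset.image_singleton] at h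

end Q36.FA
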