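import Mathlib
import Pool.Agent.Q36.FA.Loc
import Pool.Agent.Q36.FA.Core3
import Pool.Agent.Q36.FA.Frac

/-! The local ring of the origin is F-anti-nilpotent, for one choice of parameters. -/

open Classical

namespace Q36.FA

open Polynomial

/-- The inclusion of the polynomial ring in its field of fractions. -/
noncomputable abbrev al : AA →+* EE := algebraMap AA EE

lemma al_inj : Function.Injective al := IsFractionRing.injective AA EE

/-- The data for the combinatorial part. -/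
noncomputable def dd : Data EE where
  s := al (C sR)
  z := al (C zR)
  y := al X
  t := al (C tR)
  hs := by rw [Ne, map_eq_zero_iff al al_inj, C_eq_zero]; exact sR_ne
  ht := by rw [Ne, map_eq_zero_iff al al_inj, C_eq_zero]; exact tR_ne
  hy := by rw [Ne, map_eq_zero_iff al al_inj]; exact X_ne_zero
  rel := by
    simp only [← map_pow, ← map_mul, ← map_add]
    rw [relR]

lemma dd_s : dd.s = al (C sR) := rfl
lemma dd_z : dd.z = al (C zR) := rfl
lemma dd_y : dd.y = al X := rfl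
lemma dd_t : dd.t = al (C tR) := rfl

/-- Clearing denominators in a monomial. -/
lemma mo_clear (i : ℕ) (a b c : ℤ) (n A B D : ℕ) (hA : a + n = A) (hB : b + n = B)
    (hD : c + n = D) : dd.mo i a b c * (al (C sR) * al (C tR) * al X) ^ n =
      al (C (zR ^ i * sR ^ A * tR ^ B) * X ^ D) := by
  change dd.mo i a b c * (dd.s * dd.t * dd.y) ^ n = _
  have h1 : dd.mo i a b c * (dd.s * dd.t * dd.y) ^ n =
      dd.y ^ n * (dd.t ^ n * (dd.s ^ n * dd.mo i a b c)) := by ring
  rw [h1, dd.s_mo, dd.t_mo, dd.y_mo, hA, hB, hD]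
  simp only [Data.mo, zpow_natCast, map_mul, map_pow, dd_s, dd_z, dd_y, dd_t]

lemma WW_Q (e : EE) (he : e ∈ dd.WW) : ∃ n, Q al (C sR) (C tR) X ⊤ n e := by
  refine Q_closure (fun _ _ => AddSubgroup.mem_top _) _ ?_ e he
  rintro _ ⟨i, a, b, c, hc, rfl⟩
  obtain ⟨n, A, B, D, hA, hB, hD⟩ := exists_level a b c
  refine ⟨n, ?_⟩
  have h := mo_clear i a b c n A B D hA hB hD
  rcases hc with hc | hc | hc
  · refine ⟨0, AddSubgroup.mem_top _, 0, C (zR ^ i * sR ^ (A - n) * tR ^ B) * X ^ D, ?_⟩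
    rw [h]
    congr 1
    have : sR ^ A = sR ^ (A - n) * sR ^ n := by rw [← pow_add]; congr 1; omega
    rw [this]
    simp only [C_mul, C_pow]
    ring
  · refine ⟨0, AddSubgroup.mem_top _, C (zR ^ i * sR ^ A * tR ^ (B - n)) * X ^ D, 0, ?_⟩
    rw [h]
    congr 1
    have : tR ^ B = tR ^ (B - n) * tR ^ n := by rw [← pow_add]; congr 1; omega
    rw [this]
    simp only [C_mul, C_pow]
    ring
  · refine ⟨C (zR ^ i * sR ^ A * tR ^ B) * X ^ (D - n), AddSubgroup.mem_top _, 0, 0, ?_⟩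
    rw [h]
    congr 1
    have : (X : AA) ^ D = X ^ (D - n) * X ^ n := by rw [← pow_add]; congr 1; omega
    rw [this]
    ring

/-- `R0` as an additive subgroup. -/
noncomputable def U0 : AddSubgroup AA := R0.toSubring.toAddSubgroup

lemma mem_U0 (f : AA) : f ∈ U0 ↔ f ∈ R0 := Iff.rfl

lemma Bd_Q (e : EE) (he : e ∈ dd.Bd) : ∃ n, Q al (C sR) (C tR) X U0 n e := by
  refine Q_closure (fun u hu => ?_) _ ?_ e he
  · exact R0.mul_mem hu (R0.mul_mem (C_mem _ sR_mem) (C_mem _ tR_mem))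
  rintro _ ⟨i, a, b, c, hc, rfl⟩
  obtain ⟨n, A, B, D, hA, hB, hD⟩ := exists_level a b c
  refine ⟨n, ?_⟩
  have h := mo_clear i a b c n A B D hA hB hD
  rcases hc with hc | hc | hc | ⟨rfl, rfl⟩
  · refine ⟨0, zero_mem _, 0, C (zR ^ i * sR ^ (A - n) * tR ^ B) * X ^ D, ?_⟩
    rw [h]
    congr 1
    have : sR ^ A = sR ^ (A - n) * sR ^ n := by rw [← pow_add]; congr 1; omega
    rw [this]
    simp only [C_mul, C_pow]
    ring
  · refine ⟨0, zero_mem _, C (zR ^ i * sR ^ A * tR ^ (B - n)) * X ^ D, 0, ?_⟩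
    rw [h]
    congr 1
    have : tR ^ B = tR ^ (B - n) * tR ^ n := by rw [← pow_add]; congr 1; omega
    rw [this]
    simp only [C_mul, C_pow]
    ring
  · refine ⟨X * (C (zR ^ i * sR ^ A * tR ^ B) * X ^ (D - n - 1)), X_mul_mem _, 0, 0, ?_⟩
    rw [h]
    congr 1
    have : (X : AA) ^ D = X * X ^ (D - n - 1) * X ^ n := by
      rw [← pow_succ', ← pow_add]; congr 1; omega
    rw [this]
    ring
  · refine ⟨C (sR ^ A * tR ^ B), C_mem _ (mul_mem (pow_mem sR_mem _) (pow_mem tR_mem _)),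
      0, 0, ?_⟩
    rw [h]
    congr 1
    have : D = n := by omega
    rw [this, pow_zero]
    ring

lemma n1 : ∃ e ∈ dd.DD, e ^ 2 ∉ dd.WW := by
  refine ⟨_, Data.mo_DD 0 (-1) (-1) (-1), fun h => ?_⟩
  rw [Data.mo_sq] at h
  obtain ⟨n, hn⟩ := WW_Q _ h
  obtain ⟨u, -, v, w, h1⟩ := Q_up (fun _ _ => AddSubgroup.mem_top _) hn 2
  rw [mo_clear _ _ _ _ (n + 2) n n n (by push_cast; ring) (by push_cast; ring)
    (by push_cast; ring)] at h1
  refine not1' n u v w ?_
  rw [← al_inj h1]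
  simp only [C_mul, C_pow]
  ring

lemma n2 : ∃ e ∈ dd.WW, e ^ 2 ∉ dd.Bd := by
  refine ⟨dd.mo 1 (-1) (-1) 0, AddSubgroup.subset_closure
    ⟨_, _, _, _, Or.inr (Or.inr le_rfl), rfl⟩, fun h => ?_⟩
  rw [Data.mo_sq] at h
  obtain ⟨n, hn⟩ := Bd_Q _ h
  obtain ⟨u, hu, v, w, h1⟩ := Q_up (fun u hu => R0.mul_mem hu
    (R0.mul_mem (C_mem _ sR_mem) (C_mem _ tR_mem))) hn 2
  rw [mo_clear _ _ _ _ (n + 2) n n (n + 2) (by push_cast; ring) (by push_cast; ring)
    (by push_cast; ring)] at h1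
  refine not2' n u v w hu ?_
  rw [← al_inj h1]
  simp only [C_mul, C_pow]
  ring

/-- Everything with denominator a power of `sty` is a sum of monomials. -/
lemma mem_DD (f : AA) (n : ℕ) (e : EE) (h : e * (al (C sR) * al (C tR) * al X) ^ n = al f) :
    e ∈ dd.DD := by
  have hne : (al (C sR) * al (C tR) * al X) ^ n ≠ 0 :=
    pow_ne_zero _ (mul_ne_zero (mul_ne_zero dd.hs dd.ht) dd.hy)
  have h1 : e = al f * ((al (C sR) * al (C tR) * al X) ^ n)⁻¹ := by
    rw [← h, mul_assoc, mul_inv_cancel₀ hne, mul_one]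
  rw [h1]
  clear h h1
  induction f using Polynomial.induction_on' with
  | add p q hp hq => rw [map_add, add_mul]; exact add_mem hp hq
  | monomial k a =>
    refine CR_ind (fun a => al (monomial k a) * ((al (C sR) * al (C tR) * al X) ^ n)⁻¹ ∈ dd.DD) ?_
      (fun a b ha hb => ?_) (fun m j => ?_) a
    · simp only [map_zero, zero_mul]; exact zero_mem _
    · simp only [map_add, add_mul]; exact add_mem ha hb
    · have := mo_clear j (m - n) (-n) (k - n) n m 0 k (by ring) (by push_cast; ring) (by ring)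
      have h2 : al (monomial k (sR ^ m * zR ^ j)) * ((al (C sR) * al (C tR) * al X) ^ n)⁻¹ =
          dd.mo j (m - n) (-n) (k - n) := by
        rw [mul_inv_eq_iff_eq_mul₀ hne, this, ← C_mul_X_pow_eq_monomial]
        congr 2
        ring
      simp only [h2]
      exact Data.mo_DD _ _ _ _

section

/-- The three parameters. -/
noncomputable abbrev JJ : Finset RL := {sL, tL, yL}

lemma io_s : io sL = dd.s := io_alg _
lemma io_t : io tL = dd.t := io_alg _
lemma io_y : io yL = dd.y := io_alg _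

lemma io_R0 (f : AA) (hf : f ∈ R0) : io (algebraMap R0 RL ⟨f, hf⟩) = al f := io_alg _

variable (N : Submodule RL (Cochain RL))

/-- The values of the elements of `N` at the full set of parameters. -/
noncomputable def NE : AddSubgroup EE where
  carrier := {e | ∃ c ∈ N, val io_inj c JJ = e}
  zero_mem' := ⟨0, zero_mem _, by unfold val; simp⟩
  add_mem' := by
    rintro _ _ ⟨c, hc, rfl⟩ ⟨c', hc', rfl⟩
    exact ⟨c + c', add_mem hc hc', val_add _ _ _ _⟩
  neg_mem' := by
    rintro _ ⟨c, hc, rfl⟩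
    exact ⟨c, hc, (CharTwo.neg_eq _).symm⟩

variable {N}

lemma mem_NE (e : EE) : e ∈ NE N ↔ ∃ c ∈ N, val io_inj c JJ = e := Iff.rfl

lemma NE_smul {e : EE} (he : e ∈ NE N) (r : RL) : io r * e ∈ NE N := by
  obtain ⟨c, hc, rfl⟩ := he
  exact ⟨r • c, N.smul_mem r hc, val_smul _ _ _ _⟩

lemma zero_VV (S : Finset RL) : (0 : EE) ∈ VV io S := ⟨0, 0, by simp⟩

lemma NE_of_VV (hB : coboundaries JJ 3 ≤ N) (S : Finset RL)
    (hS : S = {tL, yL} ∨ S = {sL, yL} ∨ S = {sL, tL}) {e : EE} (he : e ∈ VV io S) :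
    e ∈ NE N := by
  have hR := reg_RL
  obtain ⟨b, hb⟩ := exists_cochain io_inj (fun T => if T = S then e else 0)
  have hb' : ∀ T, (0 : RL) ∉ T → val io_inj b T = if T = S then e else 0 := by
    intro T hT
    refine hb T hT ?_
    split_ifs with h
    · rw [h]; exact he
    · exact zero_VV _
  refine ⟨diff b, hB ⟨b, fun _ _ => rfl⟩, ?_⟩
  rw [val_triple io_inj b hR.hst hR.hsy hR.hty hR.hs hR.ht hR.hy,
    hb' _ (by simp [hR.ht.symm, hR.hy.symm]), hb' _ (by simp [hR.hs.symm, hR.hy.symm]),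
    hb' _ (by simp [hR.hs.symm, hR.ht.symm])]
  have d1 : ({tL, yL} : Finset RL) ≠ {sL, yL} := by
    intro h
    have : sL ∈ ({tL, yL} : Finset RL) := by rw [h]; simp
    simp only [Finset.mem_insert, Finset.mem_singleton] at this
    exact this.elim hR.hst hR.hsy
  have d2 : ({tL, yL} : Finset RL) ≠ {sL, tL} := by
    intro h
    have : sL ∈ ({tL, yL} : Finset RL) := by rw [h]; simp
    simp only [Finset.mem_insert, Finset.mem_singleton] at this
    exact this.elim hR.hst hR.hsy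
  have d3 : ({sL, yL} : Finset RL) ≠ {sL, tL} := by
    intro h
    have : tL ∈ ({sL, yL} : Finset RL) := by rw [h]; simp
    simp only [Finset.mem_insert, Finset.mem_singleton] at this
    exact this.elim hR.hst.symm hR.hty
  rcases hS with rfl | rfl | rfl
  · rw [if_pos rfl, if_neg d1.symm, if_neg d2.symm]; ring
  · rw [if_neg d1, if_pos rfl, if_neg d3.symm]; ring
  · rw [if_neg d2, if_neg d3, if_pos rfl]; ring

/-- Clearing two denominators. -/
lemma clear2 (i : ℕ) (a b c : ℤ) (S : Finset RL) (n A B D k l m : ℕ)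
    (hS : io (∏ x ∈ S, x) ^ n = dd.s ^ k * dd.t ^ l * dd.y ^ m) (hA : a + k = A)
    (hB : b + l = B) (hD : c + m = D)
    (hmem : C (zR ^ i * sR ^ A * tR ^ B) * X ^ D ∈ R0) :
    dd.mo i a b c ∈ VV io S := by
  refine ⟨algebraMap R0 RL ⟨_, hmem⟩, n, ?_⟩
  rw [hS, io_R0]
  have h1 : dd.mo i a b c * (dd.s ^ k * dd.t ^ l * dd.y ^ m) =
      dd.y ^ m * (dd.t ^ l * (dd.s ^ k * dd.mo i a b c)) := by ring
  rw [h1, dd.s_mo, dd.t_mo, dd.y_mo, hA, hB, hD]
  simp only [Data.mo, zpow_natCast, map_mul, map_pow, dd_s, dd_z, dd_y, dd_t]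

lemma pow_mem_R0 (a : CR) (D : ℕ) (hD : 1 ≤ D) : (C a * X ^ D : AA) ∈ R0 := by
  obtain ⟨D, rfl⟩ := Nat.exists_eq_add_of_le' hD
  rw [pow_succ', mul_left_comm]
  exact X_mul_mem _

theorem good (hB : coboundaries JJ 3 ≤ N) (hN : ∀ c ∈ N, c ^ 2 ∈ N) : dd.Good (NE N) := by
  have hR := reg_RL
  refine ⟨?_, ?_, ?_, ?_, ?_, ?_, ?_, ?_, ?_⟩
  · intro e he
    rw [← io_s]; exact NE_smul he _
  · intro e he
    rw [← io_t]; exact NE_smul he _
  · intro e he
    rw [← io_y]; exact NE_smul he _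
  · intro j e he
    have h := NE_smul he (algebraMap R0 RL (yz0 j))
    have h1 : io (algebraMap R0 RL (yz0 j)) = dd.y * dd.z ^ j := by
      rw [yz0, io_R0, map_mul, C_pow, map_pow, dd_y, dd_z]
    rwa [h1] at h
  · rintro _ ⟨c, hc, rfl⟩
    exact ⟨c ^ 2, hN c hc, val_sq _ _ _⟩
  · intro i a b c ha
    refine NE_of_VV hB {tL, yL} (Or.inl rfl) ?_
    obtain ⟨A, rfl⟩ := Int.eq_ofNat_of_zero_le ha
    obtain ⟨n, B, D, -, hBn, hD, -⟩ := exists_level b (c - 1) 0
    refine clear2 i A b c _ n A B (D + 1) 0 n n ?_ (by simp) hBn (by push_cast; omega)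
      (pow_mem_R0 _ _ (by omega))
    rw [Finset.prod_pair hR.hty, map_mul, io_t, io_y]; ring
  · intro i a b c hb
    refine NE_of_VV hB {sL, yL} (Or.inr (Or.inl rfl)) ?_
    obtain ⟨B, rfl⟩ := Int.eq_ofNat_of_zero_le hb
    obtain ⟨n, A, D, -, hA, hD, -⟩ := exists_level a (c - 1) 0
    refine clear2 i a B c _ n A B (D + 1) n 0 n ?_ hA (by simp) (by push_cast; omega)
      (pow_mem_R0 _ _ (by omega))
    rw [Finset.prod_pair hR.hsy, map_mul, io_s, io_y]; ring
  · intro i a b c hc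
    refine NE_of_VV hB {sL, tL} (Or.inr (Or.inr rfl)) ?_
    obtain ⟨D, rfl⟩ := Int.eq_ofNat_of_zero_le (show 0 ≤ c by omega)
    obtain ⟨n, A, B, -, hA, hBn, -⟩ := exists_level a b 0
    refine clear2 i a b D _ n A B D n n 0 ?_ hA hBn (by simp) (pow_mem_R0 _ _ (by omega))
    rw [Finset.prod_pair hR.hst, map_mul, io_s, io_t]; ring
  · intro a b
    refine NE_of_VV hB {sL, tL} (Or.inr (Or.inr rfl)) ?_
    obtain ⟨n, A, B, -, hA, hBn, -⟩ := exists_level a b 0
    refine clear2 0 a b 0 _ n A B 0 n n 0 ?_ hA hBn (by simp) ?_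
    · rw [Finset.prod_pair hR.hst, map_mul, io_s, io_t]; ring
    · rw [pow_zero, pow_zero, mul_one, one_mul]
      exact C_mem _ (mul_mem (pow_mem sR_mem _) (pow_mem tR_mem _))

end

/-- The top local cohomology is anti-nilpotent. -/
theorem anti3 : AntiNilpotent JJ 3 := by
  intro N hB _ hN c _ hc2
  have hR := reg_RL
  have hg := good hB hN
  have h0 : (0 : RL) ∉ JJ := by simp [JJ, hR.hs.symm, hR.ht.symm, hR.hy.symm]
  obtain ⟨r, n, hr⟩ := val_mem io_inj c h0
  obtain ⟨u, hu, r0, hr0⟩ := gden m0 r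
  have hprod : io (∏ a ∈ JJ, a) = al (C sR) * al (C tR) * al X := by
    change _ = dd.s * dd.t * dd.y
    rw [show JJ = {sL, tL, yL} from rfl, Finset.prod_insert (by simp [hR.hst, hR.hsy]),
      Finset.prod_pair hR.hty, map_mul, map_mul, io_s, io_t, io_y, mul_assoc]
  rw [hprod] at hr
  have hD : jj u * val io_inj c JJ ∈ dd.DD := by
    refine mem_DD (r0 : AA) n _ ?_
    rw [mul_assoc, hr, ← io_alg, ← map_mul, mul_comm, hr0, io_alg]
    rfl
  have hsq : (jj u * val io_inj c JJ) ^ 2 ∈ NE N := by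
    have h1 : val io_inj c JJ ^ 2 ∈ NE N := ⟨c ^ 2, hc2, val_sq _ _ _⟩
    have h2 := NE_smul h1 ((algebraMap R0 RL u) ^ 2)
    rwa [map_pow, io_alg, ← mul_pow] at h2
  obtain ⟨c', hc', hval⟩ := hg.main n1 n2 hD hsq
  obtain ⟨w, hw⟩ := gunit (L := RL) m0 hu
  have hw2 := congrArg io hw
  rw [map_mul, io_alg, map_one] at hw2
  have h3 : val io_inj (w • c') JJ = val io_inj c JJ := by
    rw [val_smul, hval, ← mul_assoc, mul_comm (io w), hw2, one_mul]
  have h4 : c JJ = (w • c') JJ := val_inj io_inj h0 h3.symm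
  have h5 : c - w • c' ∈ coboundaries JJ 3 := by
    refine ⟨0, fun S hS => ?_⟩
    rw [pc3 hR.hst hR.hsy hR.hty S hS, Pi.sub_apply, h4, sub_self, map_zero]
    rfl
  have h6 := add_mem (hB h5) (N.smul_mem w hc')
  rwa [sub_add_cancel] at h6

/-- All the local cohomology modules are anti-nilpotent. -/
theorem anti_all (i : ℕ) : AntiNilpotent JJ i := by
  have hR := reg_RL
  have triv : cocycles JJ i ≤ coboundaries JJ i → AntiNilpotent JJ i :=
    fun h N hB _ _ c hc _ => hB (h hc)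
  rcases Nat.lt_or_ge i 4 with hi | hi
  · interval_cases i
    · exact triv (low0 io_inj hR)
    · exact triv (low1 io_inj hR)
    · exact triv (low2 io_inj hR)
    · exact anti3
  · exact triv (high hR.hst hR.hsy hR.hty i hi)

end Q36.FA
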